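import Mathlib
import Pool.Agent.MP_1e211b_nt.H73.NV

set_option autoImplicit false

/-!
Linear algebra: flags, bases built level by level, generic parameters, determinants.
-/

namespace Pool.Agent.MP_60c1b5_an.H72

open Filter Submodule Module Pool.Agent.MP_1e211b_nt.H73

theorem flag {I H : Type} [Fintype I] [AddCommGroup H] [Module ℚ H] (w : I → H)
    (hw : ∀ i, w i ≠ 0) (hsp : ⊤ ≤ span ℚ (Set.range w)) :
    ∃ f : I → Fin (finrank ℚ H), Function.Surjective f ∧
      ∀ s : Fin (finrank ℚ H) → I, (∀ k, f (s k) = k) → ⊤ ≤ span ℚ (Set.range (w ∘ s)) := by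
  classical
  obtain ⟨b, -, -, h1, h2⟩ := exists_linearIndepOn_extension (linearIndepOn_empty ℚ w)
    (Set.empty_subset (Set.univ : Set I))
  have h3 : ⊤ ≤ span ℚ (Set.range fun i : b => w i) := by
    refine hsp.trans (span_le.2 ?_)
    rwa [← Set.image_eq_range, ← Set.image_univ]
  set B0 : Basis b ℚ H := Basis.mk h2 h3 with hB0
  have : Fintype b := Fintype.ofFinite b
  set e : b ≃ Fin (finrank ℚ H) := Fintype.equivFinOfCardEq (finrank_eq_card_basis B0).symm
  set B := B0.reindex e with hB
  have hne : ∀ i, (Finset.univ.filter fun k => B.repr (w i) k ≠ 0).Nonempty := by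
    intro i
    by_contra h
    apply hw i
    rw [← B.repr.map_eq_zero_iff]
    ext k
    by_contra hk
    exact h ⟨k, by simpa using hk⟩
  set f : I → Fin (finrank ℚ H) := fun i => Finset.max' _ (hne i) with hf
  have f1 : ∀ i, B.repr (w i) (f i) ≠ 0 := fun i => by
    simpa using Finset.max'_mem _ (hne i)
  have f2 : ∀ i k, f i < k → B.repr (w i) k = 0 := fun i k h => by
    by_contra hk
    exact h.not_ge (Finset.le_max' _ k (by simpa using hk))
  refine ⟨f, fun k => ⟨(e.symm k).1, ?_⟩, fun s hs => ?_⟩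
  · have h4 : w (e.symm k).1 = B k := by simp [hB, hB0]
    have h5 := f1 (e.symm k).1
    rw [h4, B.repr_self, Finsupp.single_apply] at h5
    by_contra h
    exact h5 (if_neg fun h' => h h'.symm)
  · have key : ∀ j : ℕ, ∀ k : Fin (finrank ℚ H), k.1 = j → B k ∈ span ℚ (Set.range (w ∘ s)) := by
      intro j
      induction j using Nat.strong_induction_on with
      | _ j ih =>
        intro k hk
        have h4 := B.sum_repr (w (s k))
        rw [← Finset.add_sum_erase _ _ (Finset.mem_univ k)] at h4
        have h5 := f1 (s k)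
        rw [hs] at h5
        rw [← smul_mem_iff _ h5, eq_sub_of_add_eq h4]
        refine sub_mem (subset_span ⟨k, rfl⟩) (sum_mem fun l hl => ?_)
        rcases lt_or_gt_of_ne (Finset.mem_erase.1 hl).1 with h | h
        · exact smul_mem _ _ (ih l (hk ▸ h) l rfl)
        · rw [f2 (s k) l (by rwa [hs]), zero_smul]
          exact zero_mem _
    rw [← B.span_eq]
    exact span_le.2 (Set.range_subset_iff.2 fun k => key _ k rfl)

section

variable {W I T V : Type} [Fintype W] [Fintype I] [Fintype T] [AddCommGroup V] [Module ℚ V]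

/-- coefficient vectors supported below level `a` -/
def Sub (I : Type) (ν : W → ℕ) (a : W) : Submodule ℚ (W × I → ℚ) where
  carrier := {y | ∀ p, ν a ≤ ν p.1 → y p = 0}
  add_mem' := by
    intro y z hy hz p hp
    simp [hy p hp, hz p hp]
  zero_mem' := fun _ _ => rfl
  smul_mem' := by
    intro c y hy p hp
    simp [hy p hp]

/-- the span of the lower levels -/
noncomputable def low (ν : W → ℕ) (v : W × I → V) (a : W) : Submodule ℚ V :=
  (Sub I ν a).map (Fintype.linearCombination ℚ v)

/-- relations at level `a` modulo the lower levels -/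
noncomputable def Gr (ν : W → ℕ) (v : W × I → V) (a : W) : Submodule ℚ (I → ℚ) :=
  (low ν v a).comap (Fintype.linearCombination ℚ fun i => v (a, i))

theorem mem_low {ν : W → ℕ} {v : W × I → V} {a : W} {p : W × I} (h : ν p.1 < ν a) :
    v p ∈ low ν v a := by
  classical
  refine ⟨Pi.single p 1, fun p' hp' => ?_, by simp [Fintype.linearCombination_apply_single]⟩
  rw [Pi.single_apply, if_neg]
  rintro rfl
  omega

theorem low_le {ν : W → ℕ} {v : W × I → V} {a : W} {M : Submodule ℚ V}
    (h : ∀ p : W × I, ν p.1 < ν a → v p ∈ M) : low ν v a ≤ M := by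
  rintro _ ⟨y, hy, rfl⟩
  rw [Fintype.linearCombination_apply]
  refine sum_mem fun p _ => ?_
  by_cases e : ν p.1 < ν a
  · exact smul_mem _ _ (h p e)
  · rw [hy p (by omega), zero_smul]
    exact zero_mem _

theorem level [DecidableEq W] [DecidableEq T] (ν : W → ℕ) (hν : Function.Injective ν)
    (v : W × I → V) (t : W × T → V) (c : W × T → I → ℚ)
    (ht : ∀ p, t p - Fintype.linearCombination ℚ (fun i => v (p.1, i)) (c p) ∈ low ν v p.1)
    (Q : W → Finset T)
    (hs : ∀ a, ⊤ ≤ span ℚ (Set.range fun τ : Q a => (Gr ν v a).mkQ (c (a, τ))))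
    (hc : ∀ a, (Q a).card ≤ finrank ℚ ((I → ℚ) ⧸ Gr ν v a)) :
    IsB t (Finset.univ.filter fun p => p.2 ∈ Q p.1) := by
  classical
  set P : Finset (W × T) := Finset.univ.filter fun p => p.2 ∈ Q p.1 with hP
  have lc : ∀ {M : Submodule ℚ V} (a : W), (∀ i, v (a, i) ∈ M) → ∀ e,
      Fintype.linearCombination ℚ (fun i => v (a, i)) e ∈ M := by
    intro M a h e
    rw [Fintype.linearCombination_apply]
    exact sum_mem fun i _ => smul_mem _ _ (h i)
  have hv : ∀ j, ∀ p : W × I, ν p.1 = j → v p ∈ span ℚ (t '' (P : Set (W × T))) := by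
    intro j
    induction j using Nat.strong_induction_on with
    | _ j ih =>
      rintro ⟨a, i⟩ ha
      have h0 : low ν v a ≤ span ℚ (t '' (P : Set (W × T))) :=
        low_le fun p hp => ih _ (ha ▸ hp) p rfl
      obtain ⟨y, hy⟩ := (mem_span_range_iff_exists_fun ℚ).1
        (hs a (mem_top (x := (Gr ν v a).mkQ (Pi.single i 1))))
      simp only [← map_smul, ← map_sum] at hy
      rw [mkQ_apply, mkQ_apply, Submodule.Quotient.eq] at hy
      have h1 := h0 hy
      rw [map_sub, map_sum, Fintype.linearCombination_apply_single, one_smul] at h1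
      have h2 : ∑ τ : Q a, Fintype.linearCombination ℚ (fun i => v (a, i)) (y τ • c (a, τ)) ∈
          span ℚ (t '' (P : Set (W × T))) := by
        refine sum_mem fun τ _ => ?_
        rw [map_smul]
        refine smul_mem _ _ ?_
        have h3 := sub_mem (subset_span (R := ℚ) (s := t '' (P : Set (W × T)))
          ⟨(a, τ), by simp [hP], rfl⟩) (h0 (ht (a, τ)))
        rwa [sub_sub_cancel] at h3
      have h3 := sub_mem h2 h1
      rwa [sub_sub_cancel] at h3
  refine ⟨?_, fun p => ?_⟩
  · rw [linearIndepOn_iff]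
    intro y hy h0
    by_contra hne
    obtain ⟨p0, hp0, hm⟩ := Finset.exists_max_image y.support (fun p => ν p.1)
      (Finsupp.support_nonempty_iff.2 hne)
    have hQ : ∀ p, y p ≠ 0 → p.2 ∈ Q p.1 := fun p hp => by
      have := hy (Finsupp.mem_support_iff.2 hp)
      simpa [hP] using this
    have hi := linearIndependent_of_top_le_span_of_card_le_finrank (hs p0.1)
      (by simpa using hc p0.1)
    have h1 : ∑ p, y p • t p = 0 := by
      rwa [Finsupp.linearCombination_apply, Finsupp.sum_fintype _ _ (by simp)] at h0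
    rw [Fintype.sum_prod_type, ← Finset.add_sum_erase _ _ (Finset.mem_univ p0.1)] at h1
    have h2 : ∑ τ, y (p0.1, τ) • t (p0.1, τ) ∈ low ν v p0.1 := by
      rw [eq_neg_of_add_eq_zero_left h1]
      refine neg_mem (sum_mem fun a ha => sum_mem fun τ _ => ?_)
      by_cases e : y (a, τ) = 0
      · simp [e]
      · have h3 : ν a < ν p0.1 := lt_of_le_of_ne (hm (a, τ) (Finsupp.mem_support_iff.2 e))
          fun e' => (Finset.mem_erase.1 ha).1 (hν e')
        have h4 := add_mem (low_le (fun p hp => mem_low (hp.trans h3)) (ht (a, τ)))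
          (lc a (fun i => mem_low (v := v) (p := (a, i)) h3) (c (a, τ)))
        rw [sub_add_cancel] at h4
        exact smul_mem _ _ h4
    have h3 : ∑ τ : Q p0.1, y (p0.1, τ) • (Gr ν v p0.1).mkQ (c (p0.1, τ)) = 0 := by
      simp only [← map_smul, ← map_sum]
      rw [mkQ_apply, Submodule.Quotient.mk_eq_zero,
        Finset.sum_coe_sort (Q p0.1) fun τ => y (p0.1, τ) • c (p0.1, τ),
        Finset.sum_subset (Finset.subset_univ _) fun τ _ h => by
          rw [not_imp_comm.1 (hQ (p0.1, τ)) h, zero_smul]]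
      have h4 := sub_mem h2 (sum_mem fun τ (_ : τ ∈ Finset.univ) =>
        smul_mem _ (y (p0.1, τ)) (ht (p0.1, τ)))
      simp only [smul_sub, Finset.sum_sub_distrib, sub_sub_cancel, ← map_smul, ← map_sum] at h4
      exact h4
    exact Finsupp.mem_support_iff.1 hp0 (Fintype.linearIndependent_iff.1 hi _ h3
      ⟨p0.2, hQ p0 (Finsupp.mem_support_iff.1 hp0)⟩)
  · have h1 := add_mem (low_le (fun p' _ => hv _ p' rfl) (ht p))
      (lc p.1 (fun i => hv _ (p.1, i) rfl) (c p))
    rwa [sub_add_cancel] at h1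

end

theorem generic {J : Type} [Countable J] [Nonempty J] (p0 p1 p2 : J → ℕ → ℚ) :
    ∃ s : ℕ → ℕ, (∀ n, s n ≤ 2 * n) ∧ ∀ j, ∀ᶠ n in atTop,
      p0 j n + p1 j n * s n + p2 j n * s n ^ 2 = 0 → p0 j n = 0 ∧ p1 j n = 0 ∧ p2 j n = 0 := by
  classical
  obtain ⟨e, he⟩ := exists_surjective_nat J
  set P : ℕ → ℕ → Polynomial ℚ := fun k n => Polynomial.C (p2 (e k) n) * Polynomial.X ^ 2 +
    Polynomial.C (p1 (e k) n) * Polynomial.X + Polynomial.C (p0 (e k) n) with hP
  have key : ∀ n : ℕ, ∃ s : ℕ, s ≤ 2 * n ∧ ∀ k < n, (s : ℚ) ∉ (P k n).roots := by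
    intro n
    have h1 : ((Finset.range n).biUnion fun k => (P k n).roots.toFinset).card <
        ((Finset.range (2 * n + 1)).image fun s : ℕ => (s : ℚ)).card := by
      rw [Finset.card_image_of_injective _ Nat.cast_injective, Finset.card_range]
      refine (Finset.card_biUnion_le_card_mul _ _ 2 fun k _ => ?_).trans_lt (by simp; omega)
      exact (Multiset.toFinset_card_le _).trans ((Polynomial.card_roots' _).trans
        Polynomial.natDegree_quadratic_le)
    obtain ⟨x, hx, hx'⟩ := Finset.exists_mem_notMem_of_card_lt_card h1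
    obtain ⟨s, hs, rfl⟩ := Finset.mem_image.1 hx
    refine ⟨s, by simpa [Nat.lt_succ_iff] using hs, fun k hk h => hx' ?_⟩
    exact Finset.mem_biUnion.2 ⟨k, Finset.mem_range.2 hk, Multiset.mem_toFinset.2 h⟩
  choose s h1 h2 using key
  refine ⟨s, h1, fun j => ?_⟩
  obtain ⟨k, rfl⟩ := he j
  filter_upwards [eventually_gt_atTop k] with n hn h
  have h3 : P k n = 0 := by
    by_contra h0
    refine h2 n k hn ((Polynomial.mem_roots h0).2 ?_)
    simp only [hP, Polynomial.IsRoot, Polynomial.eval_add, Polynomial.eval_mul, Polynomial.eval_C,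
      Polynomial.eval_pow, Polynomial.eval_X]
    linarith
  have c0 := congrArg (fun p => Polynomial.coeff p 0) h3
  have c1 := congrArg (fun p => Polynomial.coeff p 1) h3
  have c2 := congrArg (fun p => Polynomial.coeff p 2) h3
  simp [hP, Polynomial.coeff_X, Polynomial.coeff_X_pow, Polynomial.coeff_C] at c0 c1 c2
  exact ⟨c0, c1, c2⟩

theorem det_mem {I B : Type} [Fintype I] [DecidableEq I] [CommRing B] [Algebra ℚ B]
    (m : Submodule ℚ B) (hm : ∀ f ∈ m, ∀ g ∈ m, f * g ∈ m) (M : Matrix I I B)
    (hM : ∀ i j, M i j ∈ m) : (1 - M).det - 1 ∈ m := by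
  have pr : ∀ (s : Finset I) (f : I → B) (c : I → ℚ), (∀ i, f i - algebraMap ℚ B (c i) ∈ m) →
      ∏ i ∈ s, f i - algebraMap ℚ B (∏ i ∈ s, c i) ∈ m := by
    intro s f c h
    induction s using Finset.induction_on with
    | empty => simp
    | insert a s ha ih =>
      rw [Finset.prod_insert ha, Finset.prod_insert ha, map_mul]
      have h1 := add_mem (add_mem (hm _ (h a) _ ih) (m.smul_mem (c a) ih))
        (m.smul_mem (∏ i ∈ s, c i) (h a))
      simp only [Algebra.smul_def] at h1
      convert h1 using 1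
      ring
  have e : (1 : B) = algebraMap ℚ B (1 : Matrix I I ℚ).det := by simp
  have e' : (1 - M).det - 1 = (1 - M).det - algebraMap ℚ B (1 : Matrix I I ℚ).det := by rw [← e]
  rw [e', Matrix.det_apply, Matrix.det_apply, map_sum, ← Finset.sum_sub_distrib]
  refine sum_mem fun σ _ => ?_
  have h1 := pr Finset.univ (fun i => (1 - M) (σ i) i) (fun i => (1 : Matrix I I ℚ) (σ i) i)
    fun i => by
      have := neg_mem (hM (σ i) i)
      convert this using 1
      simp only [Matrix.sub_apply, Matrix.one_apply]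
      split_ifs <;> simp
  rcases Int.units_eq_one_or (Equiv.Perm.sign σ) with h | h
  · simpa only [h, one_smul] using h1
  · have := neg_mem h1
    simpa only [h, Units.neg_smul, one_smul, map_neg, neg_sub, sub_neg_eq_add, neg_add_eq_sub]
      using this

end Pool.Agent.MP_60c1b5_an.H72
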