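import Mathlib
import Pool.Agent.MP_60c1b5_an.H73.SZ
import Pool.Agent.MP_60c1b5_an.H72.Lev

set_option autoImplicit false

/-!
Formal monomials `2 ^ x * 3 ^ y` along an ultrafilter, ordered by size, and leading vectors.
-/

namespace Pool.Agent.MP_60c1b5_an.H72

open Filter Submodule Module Pool.Agent.MP_1e211b_nt.H73 Pool.Agent.MP_60c1b5_an.H73

/-- `2 ^ k * 3 ^ l` -/
def pw (k l : ℤ) : ℚ := 2 ^ k * 3 ^ l

theorem pw_pos (k l : ℤ) : 0 < pw k l := by
  unfold pw
  positivity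

theorem pw_add (k l k' l' : ℤ) : pw (k + k') (l + l') = pw k l * pw k' l' := by
  simp only [pw, zpow_add₀ (two_ne_zero' ℚ), zpow_add₀ (three_ne_zero' ℚ)]
  ring

/-- a group of exponent sequences with boxes -/
structure Amb (U : Ultrafilter ℕ) (A : Type) [AddCommGroup A] where
  x : ℕ → A →+ ℤ
  y : ℕ → A →+ ℤ
  Bx : ℕ → Finset A
  sep : ∀ a, a ≠ 0 → ∀ C : ℤ, ∀ᶠ n in (U : Filter ℕ), C < |x n a| + |y n a|
  lin : ∀ a, ∃ K : ℕ, ∀ᶠ n : ℕ in (U : Filter ℕ), |x n a| ≤ K * n ∧ |y n a| ≤ K * n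
  ex : ∀ a, ∃ w, a ∈ Bx w
  add : ∀ {D w a b}, a ∈ Bx D → b ∈ Bx w → a + b ∈ Bx (D + w)
  neg : ∀ {w a}, a ∈ Bx w → -a ∈ Bx w
  zero : ∀ w, 0 ∈ Bx w
  fol : ∀ (w : ℕ) (η : ℝ), 0 < η → ∃ D, ((Bx (D + w)).card : ℝ) ≤ (1 + η) * (Bx D).card

theorem exists_amb (U : Ultrafilter ℕ) {I : Type} [Fintype I] (a b : I → ℕ → ℤ)
    (ha : ∀ i, a i ∈ LinB U) (hb : ∀ i, b i ∈ LinB U) :
    ∃ (ρ : ℕ) (E : Amb U ((Fin ρ → ℤ) × (Fin ρ → ℤ))) (α : I → (Fin ρ → ℤ) × (Fin ρ → ℤ))
      (C C' : I → ℤ), ∀ᶠ n in (U : Filter ℕ), ∀ i, a i n = E.x n (α i) + C i ∧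
        b i n = E.y n (α i) + C' i := by
  obtain ⟨ρ, β, c, c', h1, h2, h3⟩ := lattice U (Sum.elim a b) (by
    rintro (j | j)
    · exact ha j
    · exact hb j)
  set φ : ℕ → (Fin ρ → ℤ) →+ ℤ := fun n =>
    { toFun := fun c => ∑ i, c i * β i n
      map_zero' := by simp
      map_add' := fun _ _ => by simp [add_mul, Finset.sum_add_distrib] } with hφ
  have hl : ∀ c, ∃ K : ℕ, ∀ᶠ n : ℕ in (U : Filter ℕ), |φ n c| ≤ K * n := by
    intro c
    have : (fun n => φ n c) = ∑ i, c i • β i := by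
      funext n
      simp [hφ, Finset.sum_apply]
    have h : (fun n => φ n c) ∈ LinB U := by
      rw [this]
      exact sum_mem fun i _ => smul_mem _ _ (h1 i)
    exact h
  refine ⟨ρ, ⟨fun n => (φ n).comp (AddMonoidHom.fst _ _), fun n => (φ n).comp (AddMonoidHom.snd _ _),
    fun w => box ρ w ×ˢ box ρ w, fun e he C => ?_, fun e => ?_, fun e => ?_, ?_, ?_, ?_,
    fun w η hη => ?_⟩, fun i => (c (.inl i), c (.inr i)), fun i => c' (.inl i),
    fun i => c' (.inr i), ?_⟩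
  · by_cases e1 : e.1 = 0
    · filter_upwards [h3 e.2 (fun e2 => he (Prod.ext e1 e2)) C] with n hn
      exact hn.trans_le (le_add_of_nonneg_left (abs_nonneg _))
    · filter_upwards [h3 e.1 e1 C] with n hn
      exact hn.trans_le (le_add_of_nonneg_right (abs_nonneg _))
  · obtain ⟨K, hK⟩ := hl e.1
    obtain ⟨K', hK'⟩ := hl e.2
    refine ⟨K + K', ?_⟩
    filter_upwards [hK, hK'] with n a1 a2
    exact ⟨a1.trans (by gcongr; omega), a2.trans (by gcongr; omega)⟩
  · obtain ⟨w, hw⟩ := Finite.exists_le fun i => (e.1 i).natAbs + (e.2 i).natAbs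
    refine ⟨w, Finset.mem_product.2 ⟨mem_box.2 fun i => ?_, mem_box.2 fun i => ?_⟩⟩ <;>
    · have := hw i
      rw [← Int.natCast_natAbs]
      omega
  · intro D w e e' h h'
    simp only [Finset.mem_product, mem_box, abs_le, Prod.fst_add, Prod.snd_add, Pi.add_apply]
      at h h' ⊢
    refine ⟨fun i => ?_, fun i => ?_⟩
    · have := h.1 i
      have := h'.1 i
      omega
    · have := h.2 i
      have := h'.2 i
      omega
  · intro w e h
    simpa only [Finset.mem_product, mem_box, Prod.fst_neg, Prod.snd_neg, Pi.neg_apply, abs_neg]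
      using h
  · intro w
    simp [mem_box]
  · obtain ⟨D, hD⟩ := exists_box ρ w (min 1 (η / 3)) (by positivity)
    refine ⟨D, ?_⟩
    simp only [Finset.card_product, Nat.cast_mul]
    refine (mul_le_mul hD hD (by positivity) (by positivity)).trans ?_
    rw [mul_mul_mul_comm]
    gcongr
    have a1 := min_le_left 1 (η / 3)
    have a2 := min_le_right 1 (η / 3)
    have a3 : 0 < min 1 (η / 3) := by positivity
    nlinarith
  · filter_upwards [eventually_all.2 h2] with n hn i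
    exact ⟨hn (.inl i), hn (.inr i)⟩

namespace Amb

variable {U : Ultrafilter ℕ} {A : Type} [AddCommGroup A] (E : Amb U A)

/-- the value of a monomial -/
def X (a : A) (n : ℕ) : ℚ := pw (E.x n a) (E.y n a)

/-- monomials below `1` -/
def Neg (a : A) : Prop := ∀ᶠ n in (U : Filter ℕ), E.X a n < 1

theorem X_pos (a : A) (n : ℕ) : 0 < E.X a n := pw_pos _ _

theorem X_add (a b : A) (n : ℕ) : E.X (a + b) n = E.X a n * E.X b n := by
  simp only [X, map_add, pw_add]

theorem X_zero (n : ℕ) : E.X 0 n = 1 := by simp [X, pw]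

theorem X_sub (a b : A) (n : ℕ) : E.X (a - b) n = E.X a n / E.X b n := by
  rw [eq_div_iff (E.X_pos b n).ne', ← X_add, sub_add_cancel]

theorem nv (T : Finset A) (c : A → ℚ)
    (h : ∀ᶠ n in (U : Filter ℕ), ∑ a ∈ T, c a * E.X a n = 0) : ∀ a ∈ T, c a = 0 := by
  intro a ha
  refine nv2 U _ T rfl (fun n a => E.x n a) (fun n a => E.y n a) (fun a a' e C => ?_)
    (fun a => c a) ?_ ⟨a, ha⟩
  · simpa only [map_sub] using E.sep (a - a') (fun e' => e (Subtype.ext (sub_eq_zero.1 e'))) C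
  · filter_upwards [h] with n hn
    rwa [← Finset.sum_coe_sort] at hn

theorem not_neg_zero : ¬E.Neg 0 := fun h => by
  obtain ⟨n, hn⟩ := h.exists
  simp [X_zero] at hn

theorem Neg.add {E : Amb U A} {a b : A} (ha : E.Neg a) (hb : E.Neg b) : E.Neg (a + b) := by
  filter_upwards [ha, hb] with n h1 h2
  rw [X_add]
  exact mul_lt_one_of_nonneg_of_lt_one_left (E.X_pos a n).le h1 h2.le

theorem neg_of_le {a b : A} (h : a ≠ b) (hle : ∀ᶠ n in (U : Filter ℕ), E.X a n ≤ E.X b n) :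
    E.Neg (a - b) := by
  classical
  have h1 : ∀ᶠ n in (U : Filter ℕ), E.X a n ≠ E.X b n := by
    refine Ultrafilter.eventually_not.2 fun h0 => ?_
    have := E.nv {a, b} (fun e => if e = a then 1 else -1) (by
      filter_upwards [h0] with n hn
      simp [Finset.sum_pair h, h.symm, hn]) a (by simp)
    simp at this
  filter_upwards [h1, hle] with n a1 a2
  rw [X_sub, div_lt_one (E.X_pos b n)]
  exact lt_of_le_of_ne a2 a1

/-- combinations of monomials from `S`, up to null sequences -/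
def Mm (S : Set A) : Submodule ℚ (ℕ → ℚ) := span ℚ (E.X '' S) ⊔ nullSeq U

theorem mem_Mm {S : Set A} {f : ℕ → ℚ} :
    f ∈ E.Mm S ↔ ∃ g ∈ span ℚ (E.X '' S), ∀ᶠ n in (U : Filter ℕ), f n = g n := by
  rw [Mm, Submodule.mem_sup]
  constructor
  · rintro ⟨g, hg, z, hz, rfl⟩
    exact ⟨g, hg, Eventually.mono hz fun n hn => by simp [hn]⟩
  · rintro ⟨g, hg, h⟩
    exact ⟨g, hg, f - g, Eventually.mono h fun n hn => by simp [hn], by simp⟩

theorem Mm_mono {S S' : Set A} (h : S ⊆ S') : E.Mm S ≤ E.Mm S' :=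
  sup_le_sup_right (span_mono (Set.image_mono h)) _

theorem mono_mem {S : Set A} {a : A} (ha : a ∈ S) (c : ℚ) {f : ℕ → ℚ}
    (h : ∀ᶠ n in (U : Filter ℕ), f n = c * E.X a n) : f ∈ E.Mm S :=
  E.mem_Mm.2 ⟨c • E.X a, smul_mem _ _ (subset_span ⟨a, ha, rfl⟩), h⟩

theorem Mm_mul (f : ℕ → ℚ) (hf : f ∈ E.Mm {a | E.Neg a}) (g : ℕ → ℚ)
    (hg : g ∈ E.Mm {a | E.Neg a}) : f * g ∈ E.Mm {a | E.Neg a} := by
  obtain ⟨f', h1, h2⟩ := E.mem_Mm.1 hf
  obtain ⟨g', h3, h4⟩ := E.mem_Mm.1 hg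
  refine E.mem_Mm.2 ⟨f' * g', ?_, ?_⟩
  · have := mul_mem_mul h1 h3
    rw [span_mul_span] at this
    refine span_mono ?_ this
    rintro _ ⟨_, ⟨a, ha, rfl⟩, _, ⟨b, hb, rfl⟩, rfl⟩
    exact ⟨a + b, Neg.add ha hb, funext (E.X_add a b)⟩
  · filter_upwards [h2, h4] with n a1 a2
    simp [a1, a2]

theorem nv0 {f : ℕ → ℚ} (hf : f ∈ E.Mm {a | E.Neg a}) {c : ℚ}
    (h : ∀ᶠ n in (U : Filter ℕ), f n = c) : c = 0 := by
  classical
  obtain ⟨g, h1, h2⟩ := E.mem_Mm.1 hf
  obtain ⟨l, hl, rfl⟩ := (Finsupp.mem_span_image_iff_linearCombination ℚ).1 h1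
  have h0 : (0 : A) ∉ l.support := fun h => E.not_neg_zero (hl h)
  have := E.nv (insert 0 l.support) (fun a => if a = 0 then -c else l a) (by
    filter_upwards [h, h2] with n a1 a2
    rw [Finset.sum_insert h0, if_pos rfl, X_zero, ← a1, a2, Finsupp.linearCombination_apply,
      Finsupp.sum, Finset.sum_apply, mul_one, neg_add_eq_zero]
    refine Finset.sum_congr rfl fun a ha => ?_
    rw [if_neg (by rintro rfl; exact h0 ha)]
    rfl) 0 (Finset.mem_insert_self _ _)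
  simpa using this

/-- small monomials in a box -/
def Sw (w : ℕ) : Set A := {a | E.Neg a ∧ a ∈ E.Bx w}

theorem Sw_mono {w w' : ℕ} (h : w ≤ w') : E.Sw w ⊆ E.Sw w' := by
  obtain ⟨k, rfl⟩ := Nat.exists_eq_add_of_le h
  exact fun a ha => ⟨ha.1, by simpa using E.add ha.2 (E.zero k)⟩

variable {I κ : Type} [Fintype I] (ξ : ℕ → κ → I → ℚ)

/-- leading vectors of relations -/
def G (w : ℕ) : Submodule ℚ (I → ℚ) where
  carrier := {c | ∃ M : I → ℕ → ℚ, (∀ l, M l ∈ E.Mm (E.Sw w)) ∧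
    ∀ᶠ n in (U : Filter ℕ), ∀ k, ∑ i, c i * ξ n k i = ∑ l, M l n * ξ n k l}
  add_mem' := by
    rintro c c' ⟨M, h1, h2⟩ ⟨M', h3, h4⟩
    refine ⟨M + M', fun l => add_mem (h1 l) (h3 l), ?_⟩
    filter_upwards [h2, h4] with n a1 a2 k
    simp only [Pi.add_apply, add_mul, Finset.sum_add_distrib, a1 k, a2 k]
  zero_mem' := ⟨0, fun _ => zero_mem _, by simp⟩
  smul_mem' := by
    rintro r c ⟨M, h1, h2⟩
    refine ⟨r • M, fun l => smul_mem _ _ (h1 l), ?_⟩
    filter_upwards [h2] with n a1 k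
    simp only [Pi.smul_apply, smul_eq_mul, mul_assoc, ← Finset.mul_sum, a1 k]

theorem stab (w1 : ℕ) : ∃ w0, w1 ≤ w0 ∧ ∀ w, w0 ≤ w → E.G ξ w = E.G ξ w0 := by
  obtain ⟨w0, h⟩ := monotone_stabilizes_iff_noetherian.2 (inferInstance : IsNoetherian ℚ (I → ℚ))
    ⟨E.G ξ, fun w w' hw c ⟨M, h1, h2⟩ => ⟨M, fun l => E.Mm_mono (E.Sw_mono hw) (h1 l), h2⟩⟩
  exact ⟨w0 + w1, by omega, fun w hw => (h w (by omega)).symm.trans (h _ (by omega))⟩

theorem bases [Fintype κ] (w0 D : ℕ) (hw : ∀ w, w0 ≤ w → E.G ξ w = E.G ξ w0) (γ : ℕ → κ → ℚ)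
    (hγ : ∀ y : E.Bx (D + w0) × I → ℚ, ∀ᶠ n in (U : Filter ℕ),
      ∑ k, γ n k * ∑ p, y p * (E.X p.1 n * ξ n k p.2) = 0 →
        ∀ k, ∑ p, y p * (E.X p.1 n * ξ n k p.2) = 0)
    (v : E.Bx (D + w0) × I → (ℕ → ℚ) ⧸ nullSeq U)
    (hv : ∀ p, v p = (nullSeq U).mkQ fun n => E.X p.1 n * ∑ k, γ n k * ξ n k p.2) :
    ∃ ν : E.Bx (D + w0) → ℕ, Function.Injective ν ∧ ∀ a : E.Bx (D + w0), a.1 ∈ E.Bx D →
      Gr ν v a = E.G ξ w0 ∧ ∀ l, ∀ μ ∈ E.Mm (E.Sw w0),
        (nullSeq U).mkQ (fun n => μ n * (E.X a n * ∑ k, γ n k * ξ n k l)) ∈ low ν v a := by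
  classical
  obtain ⟨ν, hν⟩ := Ultrafilter.eventually_exists_iff.1
    (Eventually.of_forall (f := (U : Filter ℕ)) fun n =>
      exists_rank fun a : E.Bx (D + w0) => E.X a n)
  have inj : Function.Injective fun a => (ν a : ℕ) :=
    Fin.val_injective.comp hν.exists.choose_spec.1
  have n1 : ∀ a a' : E.Bx (D + w0), E.Neg (a'.1 - a.1) → (ν a' : ℕ) < ν a := by
    intro a a' h
    by_contra hc
    obtain ⟨n, h1, h2⟩ := (hν.and h).exists
    rw [X_sub, div_lt_one (E.X_pos _ n)] at h2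
    exact h2.not_ge (h1.2 a a' (not_lt.1 hc))
  have n2 : ∀ a a' : E.Bx (D + w0), (ν a' : ℕ) < ν a → E.Neg (a'.1 - a.1) := fun a a' h =>
    E.neg_of_le (fun e => by rw [Subtype.ext e] at h; exact h.false)
      (hν.mono fun n hn => hn.2 a' a h.le)
  refine ⟨fun a => ν a, inj, fun a ha => ?_⟩
  have LM : ∀ l, ∀ μ ∈ E.Mm (E.Sw w0), (nullSeq U).mkQ
      (fun n => μ n * (E.X a n * ∑ k, γ n k * ξ n k l)) ∈ low (fun a => (ν a : ℕ)) v a := by
    intro l μ hμ
    obtain ⟨g, h1, h2⟩ := E.mem_Mm.1 hμ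
    rw [(mk_eq_iff U _ fun n => g n * (E.X a n * ∑ k, γ n k * ξ n k l)).2
      (h2.mono fun n hn => by rw [hn])]
    have h3 : span ℚ (E.X '' E.Sw w0) ≤ (low (fun a => (ν a : ℕ)) v a).comap ((nullSeq U).mkQ ∘ₗ
        LinearMap.mulRight ℚ fun n => E.X a n * ∑ k, γ n k * ξ n k l) := by
      rw [span_le]
      rintro _ ⟨b, hb, rfl⟩
      have h4 := mem_low (ν := fun a => (ν a : ℕ)) (v := v) (a := a)
        (p := (⟨a + b, E.add ha hb.2⟩, l)) (n1 _ _ (by simpa using hb.1))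
      rw [hv] at h4
      simp only [SetLike.mem_coe, Submodule.mem_comap, LinearMap.comp_apply, LinearMap.mulRight_apply]
      convert h4 using 2
      funext n
      simp only [Pi.mul_apply, X_add]
      ring
    exact h3 h1
  refine ⟨le_antisymm ?_ ?_, LM⟩
  · rintro c ⟨y, hy, h1⟩
    rw [← hw (D + w0 + (D + w0)) (by omega)]
    refine ⟨fun l n => ∑ b, y (b, l) * E.X (b.1 - a.1) n, fun l => ?_, ?_⟩
    · have : (fun n => ∑ b, y (b, l) * E.X (b.1 - a.1) n) =
          ∑ b : E.Bx (D + w0), fun n => y (b, l) * E.X (b.1 - a.1) n := by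
        funext n
        simp [Finset.sum_apply]
      beta_reduce
      rw [this]
      refine sum_mem fun b _ => ?_
      by_cases e : (ν b : ℕ) < ν a
      · refine E.mono_mem (a := b.1 - a.1) (And.intro (n2 _ _ e) ?_) _
          (Eventually.of_forall fun _ => rfl)
        rw [sub_eq_add_neg]
        exact E.add b.2 (E.neg a.2)
      · rw [hy (b, l) (not_lt.1 e)]
        simp only [zero_mul]
        exact zero_mem _
    · simp only [Fintype.linearCombination_apply, hv] at h1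
      rw [sum_mk, sum_mk, mk_eq_iff] at h1
      filter_upwards [h1, hγ fun p => y p - if p.1 = a then c p.2 else 0] with n a1 a2 k
      have e : ∀ F : E.Bx (D + w0) × I → ℚ,
          ∑ p, (y p - if p.1 = a then c p.2 else 0) * F p = ∑ p, y p * F p - ∑ i, c i * F (a, i) := by
        intro F
        simp only [sub_mul, Finset.sum_sub_distrib, ite_mul, zero_mul]
        congr 1
        rw [Fintype.sum_prod_type_right]
        simp
      have a3 := a2 (by
        simp only [e, mul_sub, Finset.sum_sub_distrib, Finset.mul_sum] at a1 ⊢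
        rw [Finset.sum_comm, Finset.sum_comm (s := Finset.univ) (t := (Finset.univ : Finset I)),
          sub_eq_zero]
        convert a1 using 3 <;> ring) k
      rw [e, sub_eq_zero, Fintype.sum_prod_type_right] at a3
      refine mul_left_cancel₀ (E.X_pos a n).ne' ?_
      simp only [Finset.mul_sum, Finset.sum_mul, X_sub] at a3 ⊢
      have := (E.X_pos a n).ne'
      convert a3.symm using 2
      · ring
      · refine Finset.sum_congr rfl fun b _ => ?_
        field_simp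
  · rintro c ⟨M, h1, h2⟩
    have h3 := sum_mem fun l (_ : l ∈ Finset.univ) => LM l _ (h1 l)
    simp only [Gr, Submodule.mem_comap, Fintype.linearCombination_apply, hv]
    rw [sum_mk]
    rw [← map_sum] at h3
    convert h3 using 1
    rw [mk_eq_iff]
    filter_upwards [h2] with n hn
    simp only [Finset.sum_apply, Finset.mul_sum]
    rw [Finset.sum_comm, Finset.sum_comm (s := (Finset.univ : Finset I))]
    refine Finset.sum_congr rfl fun k _ => ?_
    have := congrArg (fun z => E.X a n * γ n k * z) (hn k)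
    simp only [Finset.mul_sum] at this
    convert this using 2 <;> ring

end Amb

end Pool.Agent.MP_60c1b5_an.H72
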