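import Mathlib
import Pool.Agent.MP_60c1b5_an.H73.Avg

set_option autoImplicit false

/-!
Growth of periodic orbits and the mass of small balls around them.
-/

namespace Pool.Agent.MP_60c1b5_an.H72

open MeasureTheory Metric

/-- the ball of radius `j` of the group generated by two elements -/
noncomputable def Bl {Γ : Type} [CommGroup Γ] [DecidableEq Γ] (g h : Γ) (j : ℕ) : Finset Γ :=
  (Finset.Icc (-(j : ℤ)) j ×ˢ Finset.Icc (-(j : ℤ)) j).image fun p => g ^ p.1 * h ^ p.2

section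

variable {Γ : Type} [CommGroup Γ] [DecidableEq Γ] {g h : Γ}

theorem mem_Bl {j : ℕ} {z : Γ} :
    z ∈ Bl g h j ↔ ∃ a b : ℤ, |a| ≤ j ∧ |b| ≤ j ∧ g ^ a * h ^ b = z := by
  simp only [Bl, Finset.mem_image, Finset.mem_product, Finset.mem_Icc, abs_le, Prod.exists,
    and_assoc]

theorem mul_Bl {i j : ℕ} {z w : Γ} (hz : z ∈ Bl g h i) (hw : w ∈ Bl g h j) :
    z * w ∈ Bl g h (i + j) := by
  obtain ⟨a, b, h1, h2, rfl⟩ := mem_Bl.1 hz
  obtain ⟨a', b', h3, h4, rfl⟩ := mem_Bl.1 hw
  refine mem_Bl.2 ⟨a + a', b + b', ?_, ?_, ?_⟩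
  · push_cast
    linarith [abs_add_le a a']
  · push_cast
    linarith [abs_add_le b b']
  · rw [zpow_add, zpow_add, mul_mul_mul_comm]

theorem grow (l m : ℕ) (hinj : Set.InjOn (fun p : ℕ × ℕ => g ^ p.1 * h ^ p.2)
      (Finset.range (l + 1) ×ˢ Finset.range (l + 1) : Finset (ℕ × ℕ)))
    (hn : ∃ a b : ℤ, g ^ a * h ^ b ∉ Bl g h m) (k : ℕ) (hk : k * (2 * l + 1) ≤ m) :
    k * (l + 1) ^ 2 ≤ (Bl g h (k * (2 * l + 1))).card := by
  have mono : ∀ {i j : ℕ}, i ≤ j → Bl g h i ⊆ Bl g h j := by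
    intro i j hij z hz
    obtain ⟨a, b, h1, h2, rfl⟩ := mem_Bl.1 hz
    exact mem_Bl.2 ⟨a, b, by omega, by omega, rfl⟩
  have new : ∀ j ≤ m, ∃ z ∈ Bl g h (j + 1), z ∉ Bl g h j := by
    intro j hj
    by_contra hc
    push Not at hc
    have all : ∀ i, Bl g h (j + i) ⊆ Bl g h j := by
      intro i
      induction i with
      | zero => exact fun _ h => h
      | succ i ih =>
        intro z hz
        obtain ⟨a, b, h1, h2, rfl⟩ := mem_Bl.1 hz
        have e : g ^ a * h ^ b = (g ^ (a - a.sign) * h ^ (b - b.sign)) * (g ^ a.sign * h ^ b.sign) := by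
          rw [mul_mul_mul_comm, ← zpow_add, ← zpow_add, sub_add_cancel, sub_add_cancel]
        have s1 : ∀ a : ℤ, |a| ≤ (j + (i + 1) : ℕ) → |a - a.sign| ≤ (j + i : ℕ) ∧ |a.sign| ≤ (1 : ℕ) := by
          intro a ha
          rcases lt_trichotomy a 0 with h | rfl | h
          · rw [Int.sign_eq_neg_one_of_neg h]
            rw [abs_le] at ha ⊢
            exact ⟨by omega, by simp⟩
          · simp
            positivity
          · rw [Int.sign_eq_one_of_pos h]
            rw [abs_le] at ha ⊢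
            exact ⟨by omega, by simp⟩
        rw [e]
        exact hc _ (mul_Bl (ih (mem_Bl.2 ⟨_, _, (s1 a h1).1, (s1 b h2).1, rfl⟩))
          (mem_Bl.2 ⟨_, _, (s1 a h1).2, (s1 b h2).2, rfl⟩))
    obtain ⟨a, b, hab⟩ := hn
    exact hab (mono hj (all (a.natAbs + b.natAbs) (mem_Bl.2 ⟨a, b,
      by rw [← Int.natCast_natAbs]; omega, by rw [← Int.natCast_natAbs]; omega, rfl⟩)))
  induction k with
  | zero => simp
  | succ k ih =>
    obtain ⟨z, hz, hz'⟩ := new (k * (2 * l + 1) + l) (by nlinarith)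
    set S := (Finset.range (l + 1) ×ˢ Finset.range (l + 1)).image
      fun p : ℕ × ℕ => z * (g ^ p.1 * h ^ p.2) with hS
    have h1 : S.card = (l + 1) ^ 2 := by
      rw [Finset.card_image_of_injOn fun p hp p' hp' e => hinj hp hp' (mul_left_cancel e)]
      simp [sq]
    have h2 : Disjoint (Bl g h (k * (2 * l + 1))) S := by
      rw [Finset.disjoint_right]
      intro w hw hw'
      obtain ⟨p, hp, rfl⟩ := Finset.mem_image.1 hw
      simp only [Finset.mem_product, Finset.mem_range] at hp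
      have := mul_Bl hw' (mem_Bl.2 ⟨-p.1, -p.2, (by simp; omega : |-(p.1 : ℤ)| ≤ l),
        (by simp; omega), rfl⟩)
      simp only [zpow_neg, zpow_natCast, ← mul_inv, mul_inv_cancel_right] at this
      exact hz' this
    have h3 : Bl g h (k * (2 * l + 1)) ∪ S ⊆ Bl g h ((k + 1) * (2 * l + 1)) := by
      refine Finset.union_subset (mono (by nlinarith)) fun w hw => ?_
      obtain ⟨p, hp, rfl⟩ := Finset.mem_image.1 hw
      simp only [Finset.mem_product, Finset.mem_range] at hp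
      have := mul_Bl hz (mem_Bl.2 ⟨p.1, p.2, (by simp; omega : |(p.1 : ℤ)| ≤ l),
        (by simp; omega), rfl⟩)
      simp only [zpow_natCast] at this
      exact mono (by nlinarith) this
    have h4 := Finset.card_le_card h3
    rw [Finset.card_union_of_disjoint h2, h1] at h4
    have := ih (by nlinarith)
    nlinarith

end

/-- the multiplier `2 ^ a * 3 ^ b` -/
def un (p : ℕ × ℕ) : ℕ := 2 ^ p.1 * 3 ^ p.2

/-- the orbit of `ρ` is seen inside a box of size `2 m` -/
def Wr (ρ : UnitAddCircle) (m : ℕ) : Prop :=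
  ∀ p, ∃ p' : ℕ × ℕ, p'.1 ≤ 2 * m ∧ p'.2 ≤ 2 * m ∧ un p • ρ = un p' • ρ

/-- logarithmic size of the denominator -/
noncomputable def lam (ρ : UnitAddCircle) : ℕ := Nat.log 6 (addOrderOf ρ) + 1

theorem un_le {p : ℕ × ℕ} {M : ℕ} (h1 : p.1 ≤ M) (h2 : p.2 ≤ M) : un p ≤ 6 ^ M := by
  rw [show 6 = 2 * 3 from rfl, mul_pow]
  unfold un
  gcongr <;> norm_num

theorem un_pos (p : ℕ × ℕ) : 0 < un p := by
  unfold un
  positivity

theorem un_inj : Function.Injective un := by
  rintro ⟨a, b⟩ ⟨a', b'⟩ h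
  have h2 := congrArg (fun n => n.factorization 2) h
  have h3 := congrArg (fun n => n.factorization 3) h
  simp [un, Nat.factorization_mul, Nat.prime_two.factorization, Nat.prime_three.factorization]
    at h2 h3
  rw [h2, h3]

theorem card_orbit {ρ : UnitAddCircle} (hc : (addOrderOf ρ).Coprime 6) {m : ℕ} (hw : ¬Wr ρ m)
    (hm : 4 * lam ρ ≤ m) : m * lam ρ ≤ 4 * ((Finset.range (2 * m + 1) ×ˢ
      Finset.range (2 * m + 1)).image fun p => un p • ρ).card := by
  classical
  set q := addOrderOf ρ with hq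
  have hq0 : q ≠ 0 := by
    rintro h
    simp [h] at hc
  have : NeZero q := ⟨hq0⟩
  set g := ZMod.unitOfCoprime 2 (Nat.Coprime.coprime_dvd_left (by norm_num) hc.symm)
  set h := ZMod.unitOfCoprime 3 (Nat.Coprime.coprime_dvd_left (by norm_num) hc.symm)
  have e1 : ∀ p : ℕ × ℕ, ((g ^ p.1 * h ^ p.2 : (ZMod q)ˣ) : ZMod q) = (un p : ℕ) := by
    intro p
    simp [g, h, un]
  have e2 : ∀ p p' : ℕ × ℕ, g ^ p.1 * h ^ p.2 = g ^ p'.1 * h ^ p'.2 ↔ un p • ρ = un p' • ρ := by
    intro p p'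
    rw [nsmul_eq_nsmul_iff_modEq, ← ZMod.natCast_eq_natCast_iff, ← e1, ← e1, Units.ext_iff]
  have e3 : ∀ z ∈ Bl g h m, ∃ p : ℕ × ℕ, p.1 ≤ 2 * m ∧ p.2 ≤ 2 * m ∧
      g ^ m * h ^ m * z = g ^ p.1 * h ^ p.2 := by
    intro z hz
    obtain ⟨a, b, h1, h2, rfl⟩ := mem_Bl.1 hz
    rw [abs_le] at h1 h2
    refine ⟨((m + a).toNat, (m + b).toNat), by simp; omega, by simp; omega, ?_⟩
    rw [mul_mul_mul_comm, ← zpow_natCast, ← zpow_natCast, ← zpow_natCast, ← zpow_natCast,
      ← zpow_add, ← zpow_add, Int.toNat_of_nonneg (by omega), Int.toNat_of_nonneg (by omega)]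
  set l := Nat.log 6 q with hl
  have hk := Nat.div_mul_le_self m (2 * l + 1)
  have key := grow (g := g) (h := h) l m (by
    intro p hp p' hp' e
    simp only [Finset.coe_product, Finset.coe_range, Set.mem_prod, Set.mem_Iio] at hp hp'
    have h1 := (e2 p p').1 e
    rw [nsmul_eq_nsmul_iff_modEq] at h1
    have h2 := Nat.pow_log_le_self 6 hq0
    have h3 := un_le (p := p) (M := l) (by omega) (by omega)
    have h4 := un_le (p := p') (M := l) (by omega) (by omega)
    have h5 := un_pos p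
    have h6 := un_pos p'
    refine un_inj (h1.eq_of_abs_lt ?_)
    rw [abs_lt]
    rw [← hq, ← hl] at *
    omega) (by
    unfold Wr at hw
    push Not at hw
    obtain ⟨p, hp⟩ := hw
    refine ⟨p.1 - m, p.2 - m, fun hz => ?_⟩
    obtain ⟨p', h1, h2, h3⟩ := e3 _ hz
    refine hp p' h1 h2 ((e2 _ _).1 ?_)
    rw [← h3, mul_mul_mul_comm, ← zpow_natCast g m, ← zpow_natCast h m, ← zpow_add, ← zpow_add]
    simp) _ hk
  have h1 : (Bl g h (m / (2 * l + 1) * (2 * l + 1))).card ≤ ((Finset.range (2 * m + 1) ×ˢ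
      Finset.range (2 * m + 1)).image fun p => un p • ρ).card := by
    refine Finset.card_le_card_of_injOn
      (fun z => ((g ^ m * h ^ m * z : (ZMod q)ˣ) : ZMod q).val • ρ) (fun z hz => ?_) ?_
    · obtain ⟨a, b, h1, h2, rfl⟩ := mem_Bl.1 hz
      obtain ⟨p, h3, h4, h5⟩ := e3 _ (mem_Bl.2 ⟨a, b, by omega, by omega, rfl⟩)
      refine Finset.mem_coe.2 (Finset.mem_image.2 ⟨p, by simp; omega, ?_⟩)
      simp only [h5, e1, ZMod.val_natCast]
      exact (mod_addOrderOf_nsmul ρ _).symm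
    · intro z _ z' _ e
      simp only at e
      rw [nsmul_eq_nsmul_iff_modEq, ← ZMod.natCast_eq_natCast_iff, ZMod.natCast_zmod_val,
        ZMod.natCast_zmod_val, ← Units.ext_iff] at e
      exact mul_left_cancel e
  have h2 := Nat.lt_div_mul_add (a := m) (b := 2 * l + 1) (by omega)
  unfold lam at hm ⊢
  rw [← hq, ← hl] at hm ⊢
  generalize m / (2 * l + 1) = k at *
  have h3 : m ≤ 4 * (k * (l + 1)) := by nlinarith
  nlinarith

theorem sep {z : UnitAddCircle} {N : ℕ} (hN : 0 < N) (h : N • z = 0) (hz : z ≠ 0) :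
    1 ≤ N * ‖z‖ := by
  have h1 := AddCircle.le_add_order_smul_norm_of_isOfFinAddOrder
    (isOfFinAddOrder_iff_nsmul_eq_zero.2 ⟨N, hN, h⟩) hz
  rw [nsmul_eq_mul] at h1
  refine h1.trans ?_
  gcongr
  exact addOrderOf_le_of_nsmul_eq_zero hN h

theorem dist_un (k : ℕ) (x y : UnitAddCircle) : dist (k • x) (k • y) ≤ k * dist x y := by
  rw [dist_eq_norm, dist_eq_norm, ← nsmul_sub]
  exact norm_nsmul_le

/-- invariance under both maps -/
def Inv (μ : Measure UnitAddCircle) : Prop :=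
  Measure.map (fun x : UnitAddCircle => (2 : ℕ) • x) μ = μ ∧
    Measure.map (fun x : UnitAddCircle => (3 : ℕ) • x) μ = μ

theorem Inv.mp {μ : Measure UnitAddCircle} (h : Inv μ) (p : ℕ × ℕ) :
    MeasurePreserving (fun x : UnitAddCircle => un p • x) μ μ := by
  have e : (fun x : UnitAddCircle => un p • x) =
      (fun x : UnitAddCircle => (2 ^ p.1 : ℕ) • x) ∘ fun x : UnitAddCircle => (3 ^ p.2 : ℕ) • x := by
    funext x
    simp [un, mul_smul]
  rw [e]
  exact MeasurePreserving.comp ⟨(continuous_nsmul _).measurable, H73.map_pow μ 2 h.1 _⟩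
    ⟨(continuous_nsmul _).measurable, H73.map_pow μ 3 h.2 _⟩

theorem lt_lam (ρ : UnitAddCircle) : addOrderOf ρ < 6 ^ lam ρ :=
  Nat.lt_pow_succ_log_self (by norm_num) _

theorem ball_le {μ : Measure UnitAddCircle} [IsProbabilityMeasure μ] (h : Inv μ)
    {ρ : UnitAddCircle} (hc : (addOrderOf ρ).Coprime 6) {m n : ℕ} (hw : ¬Wr ρ m)
    (hm : 4 * lam ρ ≤ m) (hn : 2 * m + lam ρ + 1 ≤ n) :
    m * lam ρ * μ.real (closedBall ρ (1 / 6 ^ n)) ≤ 4 := by
  classical
  set S := (Finset.range (2 * m + 1) ×ˢ Finset.range (2 * m + 1)).image fun p => un p • ρ with hS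
  have hq0 : 0 < addOrderOf ρ := by
    rw [Nat.pos_iff_ne_zero]
    rintro h
    simp [h] at hc
  have h1 : ∀ z ∈ S, μ.real (closedBall ρ (1 / 6 ^ n)) ≤
      μ.real (closedBall z (1 / 6 ^ (lam ρ + 1))) := by
    intro z hz
    obtain ⟨p, hp, rfl⟩ := Finset.mem_image.1 hz
    simp only [Finset.mem_product, Finset.mem_range] at hp
    refine le_trans (measureReal_mono (fun x hx => ?_) (measure_ne_top _ _))
      ((h.mp p).measureReal_preimage measurableSet_closedBall.nullMeasurableSet).le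
    rw [Set.mem_preimage, mem_closedBall]
    refine (dist_un _ _ _).trans ?_
    have h2 : (un p : ℝ) ≤ 6 ^ (2 * m) := by
      exact_mod_cast un_le (p := p) (M := 2 * m) (by omega) (by omega)
    calc (un p : ℝ) * dist x ρ ≤ 6 ^ (2 * m) * (1 / 6 ^ (2 * m + (lam ρ + 1))) := by
          gcongr
          refine le_trans (mem_closedBall.1 hx) ?_
          gcongr
          · norm_num
          · omega
      _ = _ := by
          rw [pow_add]
          field_simp
  have h2 : (S : Set UnitAddCircle).PairwiseDisjoint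
      fun z => closedBall z (1 / 6 ^ (lam ρ + 1)) := by
    intro z hz z' hz' hne
    refine closedBall_disjoint_closedBall ?_
    obtain ⟨p, -, rfl⟩ := Finset.mem_image.1 hz
    obtain ⟨p', -, rfl⟩ := Finset.mem_image.1 hz'
    have h3 := sep (z := un p • ρ - un p' • ρ) hq0 (by
      rw [nsmul_sub, smul_comm, smul_comm _ (un p'), addOrderOf_nsmul_eq_zero]
      simp) (sub_ne_zero.2 hne)
    have h4 : (addOrderOf ρ : ℝ) ≤ 6 ^ lam ρ := by exact_mod_cast (lt_lam ρ).le
    rw [dist_eq_norm, ← add_div, div_lt_iff₀ (by positivity), pow_succ]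
    nlinarith [norm_nonneg (un p • ρ - un p' • ρ)]
  have h3 := measureReal_biUnion_finset (μ := μ) h2 fun _ _ => measurableSet_closedBall
  have h4 := Finset.card_nsmul_le_sum _ _ _ h1
  rw [← h3, nsmul_eq_mul] at h4
  have h5 : ((m * lam ρ : ℕ) : ℝ) ≤ (4 * S.card : ℕ) := by exact_mod_cast card_orbit hc hw hm
  push_cast at h5
  have h6 := measureReal_le_one (μ := μ) (s := ⋃ z ∈ S, closedBall z (1 / 6 ^ (lam ρ + 1)))
  nlinarith [measureReal_nonneg (μ := μ) (s := closedBall ρ (1 / 6 ^ n))]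

end Pool.Agent.MP_60c1b5_an.H72
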