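import Mathlib
import Pool.Agent.MP_60c1b5_an.H72.Grow

set_option autoImplicit false

/-!
The closing construction: points near wrapped periodic orbits are replaced by these orbits.
-/

namespace Pool.Agent.MP_60c1b5_an.H72

open MeasureTheory Metric Finset BoundedContinuousFunction

theorem shift (F : ℕ → ℝ) (M j : ℕ) :
    ∑ a ∈ range M, F (j + a) - ∑ a ∈ range M, F a = ∑ a ∈ range j, (F (M + a) - F a) := by
  have h1 := sum_range_add F j M
  have h2 := sum_range_add F M j
  rw [add_comm M j] at h2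
  rw [sum_sub_distrib]
  linarith

theorem shift_le (F : ℕ → ℝ) (c : ℝ) (h : ∀ a, |F a| ≤ c) (M j : ℕ) :
    |∑ a ∈ range M, F (j + a) - ∑ a ∈ range M, F a| ≤ 2 * j * c := by
  rw [shift]
  refine (abs_sum_le_sum_abs _ _).trans ((sum_le_card_nsmul _ _ (2 * c) fun a _ => ?_).trans ?_)
  · linarith [abs_sub (F (M + a)) (F a), h (M + a), h a]
  · simp only [card_range, nsmul_eq_mul]
    linarith

/-- the sum over a box of the orbit -/
noncomputable def Sm (M : ℕ) (f : UnitAddCircle → ℝ) (x : UnitAddCircle) : ℝ :=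
  ∑ a ∈ range M, ∑ b ∈ range M, f (un (a, b) • x)

theorem Sm_eq (M : ℕ) (f : UnitAddCircle → ℝ) (x : UnitAddCircle) :
    Sm M f x = ∑ p ∈ range M ×ˢ range M, f (un p • x) := by
  rw [sum_product, Sm]

theorem un_add (a b j k : ℕ) (x : UnitAddCircle) :
    un (a, b) • un (j, k) • x = un (j + a, k + b) • x := by
  rw [← mul_smul]
  congr 1
  simp only [un, pow_add]
  ring

theorem Sm_shift {f : UnitAddCircle → ℝ} {c : ℝ} (h : ∀ x, |f x| ≤ c) (M j k : ℕ)
    (x : UnitAddCircle) : |Sm M f (un (j, k) • x) - Sm M f x| ≤ 2 * (j + k) * (M * c) := by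
  have h1 := shift_le (fun a => ∑ b ∈ range M, f (un (a, b) • x)) (M * c) (fun a =>
    (abs_sum_le_sum_abs _ _).trans ((sum_le_card_nsmul _ _ c fun _ _ => h _).trans (by simp))) M j
  have h2 : |∑ a ∈ range M, (∑ b ∈ range M, f (un (j + a, k + b) • x) -
      ∑ b ∈ range M, f (un (j + a, b) • x))| ≤ M * (2 * k * c) :=
    (abs_sum_le_sum_abs _ _).trans ((sum_le_card_nsmul _ _ _ fun a _ =>
      shift_le (fun b => f (un (j + a, b) • x)) c (fun _ => h _) M k).trans (by simp))
  rw [sum_sub_distrib] at h2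
  simp only [Sm, un_add]
  rw [abs_le] at h1 h2 ⊢
  constructor <;> linarith [h1.1, h1.2, h2.1, h2.2]

theorem Sm_per (f : UnitAddCircle → ℝ) {P : ℕ} {x : UnitAddCircle} (h2 : 2 ^ P • x = x)
    (h3 : 3 ^ P • x = x) (j k : ℕ) : Sm P f (un (j, k) • x) = Sm P f x := by
  have e2 : ∀ a b, un (P + a, b) • x = un (a, b) • x := fun a b => by
    rw [← zero_add b, ← un_add, zero_add, show un (P, 0) = 2 ^ P by simp [un], h2]
  have e3 : ∀ a b, un (a, P + b) • x = un (a, b) • x := fun a b => by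
    rw [← zero_add a, ← un_add, zero_add, show un (0, P) = 3 ^ P by simp [un], h3]
  have h1 := shift (fun a => ∑ b ∈ range P, f (un (a, b) • x)) P j
  simp only [e2, sub_self, sum_const_zero, sub_eq_zero] at h1
  simp only [Sm, un_add]
  rw [← h1]
  refine sum_congr rfl fun a _ => ?_
  have := shift (fun b => f (un (j + a, b) • x)) P k
  simpa only [e3, sub_self, sum_const_zero, sub_eq_zero] using this

theorem Sm_wr {f : UnitAddCircle → ℝ} {c : ℝ} (h : ∀ x, |f x| ≤ c) {P m : ℕ} (M : ℕ)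
    {x : UnitAddCircle} (h2 : 2 ^ P • x = x) (h3 : 3 ^ P • x = x) (hw : Wr x m) :
    |M ^ 2 * Sm P f x - P ^ 2 * Sm M f x| ≤ P ^ 2 * (8 * m * (M * c)) := by
  have hc : 0 ≤ c := (abs_nonneg _).trans (h 0)
  have e : Sm P (Sm M f) x = M ^ 2 * Sm P f x := by
    have : Sm P (Sm M f) x = Sm M (Sm P f) x := by
      simp only [Sm_eq]
      rw [sum_comm]
      refine sum_congr rfl fun p _ => sum_congr rfl fun p' _ => ?_
      rw [smul_comm]
    rw [this, Sm]
    simp only [Sm_per f h2 h3, sum_const, card_range, nsmul_eq_mul]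
    ring
  have h1 : ∀ p, |Sm M f (un p • x) - Sm M f x| ≤ 8 * m * (M * c) := by
    intro p
    obtain ⟨⟨j, k⟩, a1, a2, a3⟩ := hw p
    rw [a3]
    refine (Sm_shift h M j k x).trans ?_
    have : (j : ℝ) + k ≤ 4 * m := by exact_mod_cast (by simp only at a1 a2; omega)
    have := mul_le_mul_of_nonneg_right this (by positivity : 0 ≤ M * c)
    linarith
  have e2 : Sm P (Sm M f) x - P ^ 2 * Sm M f x =
      ∑ a ∈ range P, ∑ b ∈ range P, (Sm M f (un (a, b) • x) - Sm M f x) := by
    simp only [sum_sub_distrib, sum_const, card_range, nsmul_eq_mul]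
    rw [Sm]
    ring
  rw [← e, e2]
  refine (abs_sum_le_sum_abs _ _).trans ((sum_le_card_nsmul _ _ (P * (8 * m * (M * c))) fun a _ =>
    (abs_sum_le_sum_abs _ _).trans ((sum_le_card_nsmul _ _ _ fun b _ => h1 _).trans (by simp))).trans
    ?_)
  simp only [card_range, nsmul_eq_mul]
  linarith

theorem Sm_le {f : UnitAddCircle → ℝ} {c : ℝ} {M : ℕ} {x y : UnitAddCircle}
    (h : ∀ a < M, ∀ b < M, |f (un (a, b) • x) - f (un (a, b) • y)| ≤ c) :
    |Sm M f x - Sm M f y| ≤ M ^ 2 * c := by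
  simp only [Sm, ← sum_sub_distrib]
  refine (abs_sum_le_sum_abs _ _).trans ((sum_le_card_nsmul _ _ (M * c) fun a ha =>
    (abs_sum_le_sum_abs _ _).trans ((sum_le_card_nsmul _ _ _ fun b hb =>
      h a (mem_range.1 ha) b (mem_range.1 hb)).trans (by simp))).trans ?_)
  simp only [card_range, nsmul_eq_mul]
  linarith

theorem Sm_abs {f : UnitAddCircle → ℝ} {c : ℝ} (h : ∀ x, |f x| ≤ c) (M : ℕ) (x : UnitAddCircle) :
    |Sm M f x| ≤ M ^ 2 * c := by
  refine (abs_sum_le_sum_abs _ _).trans ((sum_le_card_nsmul _ _ (M * c) fun a _ =>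
    (abs_sum_le_sum_abs _ _).trans ((sum_le_card_nsmul _ _ _ fun b _ => h _).trans (by simp))).trans
    ?_)
  simp only [card_range, nsmul_eq_mul]
  linarith

/-- the finitely supported invariant measures -/
def Per : Set (ProbabilityMeasure UnitAddCircle) :=
  {ν | Measure.map (fun x : UnitAddCircle => (2 : ℕ) • x) (ν : Measure UnitAddCircle)
          = (ν : Measure UnitAddCircle) ∧
      Measure.map (fun x : UnitAddCircle => (3 : ℕ) • x) (ν : Measure UnitAddCircle)
          = (ν : Measure UnitAddCircle) ∧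
      ∃ S : Finset UnitAddCircle, (ν : Measure UnitAddCircle) ((↑S : Set UnitAddCircle)ᶜ) = 0}

theorem int_comp (μ : Measure UnitAddCircle) [IsFiniteMeasure μ] (f : UnitAddCircle →ᵇ ℝ)
    {π : UnitAddCircle → UnitAddCircle} (hπ : Measurable π) : Integrable (fun x => f (π x)) μ :=
  Integrable.of_bound (f.continuous.measurable.comp hπ).aestronglyMeasurable ‖f‖
    (Filter.Eventually.of_forall fun _ => f.norm_coe_le_norm _)

theorem int_Sm (μ : Measure UnitAddCircle) [IsFiniteMeasure μ] (f : UnitAddCircle →ᵇ ℝ) (M : ℕ)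
    {π : UnitAddCircle → UnitAddCircle} (hπ : Measurable π) :
    Integrable (fun x => Sm M f (π x)) μ ∧ ∫ x, Sm M f (π x) ∂μ =
      ∑ a ∈ range M, ∑ b ∈ range M, ∫ x, f (un (a, b) • π x) ∂μ := by
  have h : ∀ p, Integrable (fun x => f (un p • π x)) μ := fun p =>
    int_comp μ f ((continuous_nsmul _).measurable.comp hπ)
  refine ⟨integrable_finsetSum _ fun a _ => integrable_finsetSum _ fun b _ => h _, ?_⟩
  simp only [Sm]
  rw [integral_finsetSum _ fun a _ => integrable_finsetSum _ fun b _ => h _]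
  exact sum_congr rfl fun a _ => integral_finsetSum _ fun b _ => h _

theorem exists_per (μ : Measure UnitAddCircle) [IsProbabilityMeasure μ] {P : ℕ} (hP : 0 < P)
    {π : UnitAddCircle → UnitAddCircle} (hπ : Measurable π) (R : Finset UnitAddCircle)
    (hR : ∀ x, π x ∈ R) (h2 : ∀ x, 2 ^ P • π x = π x) (h3 : ∀ x, 3 ^ P • π x = π x) :
    ∃ ν ∈ Per, ∀ f : UnitAddCircle →ᵇ ℝ,
      P ^ 2 * ∫ x, f x ∂(ν : Measure UnitAddCircle) = ∫ x, Sm P f (π x) ∂μ := by
  classical
  have hm : ∀ p, Measurable fun x => un p • π x := fun p =>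
    (continuous_nsmul _).measurable.comp hπ
  set ν : Measure UnitAddCircle := ((P : ENNReal) ^ 2)⁻¹ •
    ∑ p ∈ range P ×ˢ range P, μ.map fun x => un p • π x with hν
  have hP' : (P : ENNReal) ^ 2 ≠ 0 := by simpa using hP.ne'
  have pr : IsProbabilityMeasure ν := ⟨by
    simp only [hν, Measure.smul_apply, Measure.finsetSum_apply, smul_eq_mul,
      Measure.map_apply (hm _) MeasurableSet.univ, Set.preimage_univ, measure_univ, sum_const,
      card_product, card_range, nsmul_eq_mul, mul_one, ← sq, Nat.cast_pow]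
    exact ENNReal.inv_mul_cancel hP' (by simp)⟩
  have key : ∀ f : UnitAddCircle →ᵇ ℝ, P ^ 2 * ∫ x, f x ∂ν = ∫ x, Sm P f (π x) ∂μ := by
    intro f
    rw [hν, integral_smul_measure, integral_finsetSum_measure fun p _ => f.integrable _,
      (int_Sm μ f P hπ).2, sum_product]
    simp only [integral_map (hm _).aemeasurable f.continuous.aestronglyMeasurable,
      ENNReal.toReal_inv, ENNReal.toReal_pow, ENNReal.toReal_natCast, smul_eq_mul]
    field_simp
  have inv : ∀ p, ν.map (fun x => un p • x) = ν := by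
    intro p
    have := Measure.isProbabilityMeasure_map (μ := ν) (continuous_nsmul (un p)).aemeasurable
    refine ext_of_forall_integral_eq_of_IsFiniteMeasure fun f => ?_
    rw [integral_map (continuous_nsmul _).aemeasurable f.continuous.aestronglyMeasurable]
    have h1 := key (f.compContinuous ⟨fun x => un p • x, continuous_nsmul _⟩)
    have h4 := key f
    simp only [compContinuous_apply, ContinuousMap.coe_mk] at h1
    refine mul_left_cancel₀ (by positivity : (P : ℝ) ^ 2 ≠ 0) ?_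
    rw [h1, h4]
    refine integral_congr_ae (Filter.Eventually.of_forall fun x => ?_)
    simp only
    rw [← Sm_per f (h2 x) (h3 x) p.1 p.2]
    simp only [Sm, compContinuous_apply, ContinuousMap.coe_mk]
    exact sum_congr rfl fun a _ => sum_congr rfl fun b _ => by rw [smul_comm]
  refine ⟨⟨ν, pr⟩, ⟨inv (1, 0), inv (0, 1),
    ((range P ×ˢ range P) ×ˢ R).image fun z => un z.1 • z.2, ?_⟩, key⟩
  simp only [ProbabilityMeasure.coe_mk, hν, Measure.smul_apply, Measure.finsetSum_apply]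
  rw [sum_eq_zero, smul_zero]
  intro p hp
  rw [Measure.map_apply (hm _) (Finset.measurableSet _).compl]
  convert measure_empty (μ := μ)
  ext x
  simp only [Set.mem_preimage, Set.mem_compl_iff, mem_coe, Set.mem_empty_iff_false, iff_false,
    not_not]
  exact mem_image.2 ⟨(p, π x), mem_product.2 ⟨hp, hR x⟩, rfl⟩

theorem close {μ : Measure UnitAddCircle} [IsProbabilityMeasure μ] (h : Inv μ)
    (R : Finset UnitAddCircle) (r : ℝ) {m M P : ℕ} (hM : 0 < M) (hP : 0 < P)
    (hR : ∀ ρ ∈ R, 2 ^ P • ρ = ρ ∧ 3 ^ P • ρ = ρ ∧ Wr ρ m)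
    (hd : (R : Set UnitAddCircle).PairwiseDisjoint fun ρ => closedBall ρ r) :
    ∃ ν ∈ Per, ∀ (f : UnitAddCircle →ᵇ ℝ) (ω : ℝ), 0 ≤ ω →
      (∀ x y, dist x y ≤ 6 ^ M * r → |f x - f y| ≤ ω) →
      |∫ x, f x ∂(ν : Measure UnitAddCircle) - ∫ x, f x ∂μ| ≤
        ω + 8 * m / M * ‖f‖ + 2 * ‖f‖ * μ.real (⋃ ρ ∈ R, closedBall ρ r)ᶜ := by
  classical
  set G := ⋃ ρ ∈ R, closedBall ρ r with hG
  have hGm : MeasurableSet G := R.measurableSet_biUnion fun _ _ => measurableSet_closedBall
  set π : UnitAddCircle → UnitAddCircle := fun x =>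
    ∑ ρ ∈ R, (closedBall ρ r).indicator (fun _ => ρ) x with hπ
  have hπm : Measurable π :=
    Finset.measurable_sum _ fun ρ _ => measurable_const.indicator measurableSet_closedBall
  have p1 : ∀ ρ ∈ R, ∀ x ∈ closedBall ρ r, π x = ρ := by
    intro ρ hρ x hx
    simp only [hπ]
    rw [sum_eq_single_of_mem ρ hρ, Set.indicator_of_mem hx]
    intro ρ' hρ' hne
    exact Set.indicator_of_notMem (Set.disjoint_right.1 (hd hρ' hρ hne) hx) _
  have p2 : ∀ x ∉ G, π x = 0 := fun x hx => sum_eq_zero fun ρ hρ =>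
    Set.indicator_of_notMem (fun h => hx (Set.mem_biUnion hρ h)) _
  have p3 : ∀ x, π x ∈ insert 0 R := by
    intro x
    by_cases hx : x ∈ G
    · obtain ⟨ρ, hρ, h1⟩ := Set.mem_iUnion₂.1 hx
      rw [p1 ρ hρ x h1]
      exact mem_insert_of_mem hρ
    · rw [p2 x hx]
      exact mem_insert_self _ _
  obtain ⟨ν, hν, key⟩ := exists_per μ hP hπm _ p3
    (fun x => (mem_insert.1 (p3 x)).elim (fun e => by simp [e]) fun e => (hR _ e).1)
    (fun x => (mem_insert.1 (p3 x)).elim (fun e => by simp [e]) fun e => (hR _ e).2.1)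
  refine ⟨ν, hν, fun f ω hω hf => ?_⟩
  have hb : ∀ x, |f x| ≤ ‖f‖ := fun x => f.norm_coe_le_norm x
  have hP' : (0 : ℝ) < P := by exact_mod_cast hP
  have hM' : (0 : ℝ) < M := by exact_mod_cast hM
  have e1 : ∫ x, Sm M f x ∂μ = M ^ 2 * ∫ x, f x ∂μ := by
    have := (int_Sm μ f M measurable_id).2
    simp only [id] at this
    have e : ∀ p, ∫ x, f (un p • x) ∂μ = ∫ x, f x ∂μ := fun p => by
      rw [← integral_map (continuous_nsmul _).aemeasurable f.continuous.aestronglyMeasurable,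
        (h.mp p).map_eq]
    simp only [this, e, sum_const, card_range, nsmul_eq_mul]
    ring
  have i1 := (int_Sm μ f P hπm).1
  have i2 : Integrable (fun x => Sm M f x) μ := (int_Sm μ f M measurable_id).1
  have e2 : ∫ x, f x ∂(ν : Measure UnitAddCircle) - ∫ x, f x ∂μ =
      ∫ x, (Sm P f (π x) / P ^ 2 - Sm M f x / M ^ 2) ∂μ := by
    rw [integral_sub (i1.div_const _) (i2.div_const _), integral_div, integral_div, ← key, e1]
    field_simp
  have i3 : Integrable (Gᶜ.indicator fun _ => 2 * ‖f‖) μ :=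
    (integrable_const _).indicator hGm.compl
  have e3 : ∫ x, (ω + 8 * m / M * ‖f‖ + Gᶜ.indicator (fun _ => 2 * ‖f‖) x) ∂μ =
      ω + 8 * m / M * ‖f‖ + 2 * ‖f‖ * μ.real Gᶜ := by
    rw [integral_add (integrable_const _) i3, integral_indicator_const _ hGm.compl]
    simp [mul_comm]
  rw [e2, ← e3, ← Real.norm_eq_abs]
  refine norm_integral_le_of_norm_le ((integrable_const _).add i3)
    (Filter.Eventually.of_forall fun x => ?_)
  rw [Real.norm_eq_abs]
  by_cases hx : x ∈ G
  · obtain ⟨ρ, hρ, h1⟩ := Set.mem_iUnion₂.1 hx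
    rw [p1 ρ hρ x h1, Set.indicator_of_notMem (by simpa using hx), add_zero]
    have a1 := Sm_wr hb M (hR ρ hρ).1 (hR ρ hρ).2.1 (hR ρ hρ).2.2
    have a2 := Sm_le (f := f) (c := ω) (M := M) (x := ρ) (y := x) fun a ha b hb =>
      hf _ _ ((dist_un _ _ _).trans (by
        have : (un (a, b) : ℝ) ≤ 6 ^ M := by exact_mod_cast un_le ha.le hb.le
        rw [dist_comm]
        gcongr
        exact h1))
    have e : Sm P f ρ / P ^ 2 - Sm M f x / M ^ 2 =
        (M ^ 2 * Sm P f ρ - P ^ 2 * Sm M f ρ) / (P ^ 2 * M ^ 2) + (Sm M f ρ - Sm M f x) / M ^ 2 := by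
      field_simp
      ring
    rw [e]
    refine (abs_add_le _ _).trans ?_
    rw [abs_div, abs_div, abs_of_pos (by positivity : (0 : ℝ) < P ^ 2 * M ^ 2),
      abs_of_pos (by positivity : (0 : ℝ) < M ^ 2), add_comm]
    refine add_le_add ((div_le_iff₀' (by positivity)).2 a2) ((div_le_iff₀' (by positivity)).2
      (a1.trans (le_of_eq ?_)))
    field_simp
  · rw [Set.indicator_of_mem (by simpa using hx)]
    have a1 := Sm_abs hb P (π x)
    have a2 := Sm_abs hb M x
    rw [← div_le_iff₀' (by positivity)] at a1 a2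
    refine (abs_sub _ _).trans ?_
    rw [abs_div, abs_div, abs_of_pos (by positivity : (0 : ℝ) < P ^ 2),
      abs_of_pos (by positivity : (0 : ℝ) < M ^ 2)]
    have : 0 ≤ 8 * m / M * ‖f‖ := by positivity
    linarith

end Pool.Agent.MP_60c1b5_an.H72
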