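import Mathlib
import Pool.Agent.MP_60c1b5_an.H72.Amb
import Pool.Agent.MP_60c1b5_an.H72.Grow

set_option autoImplicit false

/-!
The partition lemma: points `u_i x` in a short arc split into parts of small total size.
-/

namespace Pool.Agent.MP_60c1b5_an.H72

open Real Filter Submodule Module Pool.Agent.MP_1e211b_nt.H73 Pool.Agent.MP_60c1b5_an.H73

theorem pw_real (k l : ℤ) : (pw k l : ℝ) = exp (k * log 2 + l * log 3) := by
  rw [exp_add, mul_comm (k : ℝ), exp_mul, exp_log two_pos, mul_comm (l : ℝ), exp_mul,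
    exp_log three_pos, pw]
  push_cast
  rw [rpow_intCast, rpow_intCast]

theorem pw_toNat {k l : ℤ} (hk : 0 ≤ k) (hl : 0 ≤ l) :
    (((2 : ℤ) ^ k.toNat * 3 ^ l.toNat : ℤ) : ℚ) = pw k l := by
  push_cast
  rw [pw, ← zpow_natCast, ← zpow_natCast, Int.toNat_of_nonneg hk, Int.toNat_of_nonneg hl]

theorem est {u0 uj ud x β e0 ej ed η q c Γ : ℝ} (hq : 1 ≤ q) (hc : 1 ≤ c) (h0 : 1 ≤ u0)
    (hj : 1 ≤ uj) (hd : 1 ≤ ud) (h0d : u0 ≤ c * ud) (hjd : uj ≤ c * ud) (hqd : q ≤ c * ud)
    (hΓ : 1 ≤ Γ) (hx : |x| ≤ Γ / q) (hβ : |β| ≤ Γ) (hη : η ≤ 1) (a0 : |e0| ≤ η) (aj : |ej| ≤ η)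
    (ad : |ed| ≤ η) :
    |uj * x - β - ej| ≤ uj * (6 * c * Γ) ∧ |ud * x - β - ed| ≤ ud / q * (6 * c * Γ) ∧
    |(ud - u0) * (uj * x - β - ej) + (u0 - uj) * (ud * x - β - ed) +
      (uj - ud) * (u0 * x - β - e0)| ≤ η * ud * (6 * c * Γ) ∧
    |ud * (u0 * x - β - e0) - u0 * (ud * x - β - ed)| ≤ ud * (6 * c * Γ) := by
  have hη0 : 0 ≤ η := (abs_nonneg _).trans a0
  have t : ∀ u e : ℝ, 0 ≤ u → |e| ≤ η → |u * x - β - e| ≤ u * (Γ / q) + 2 * Γ := by
    intro u e hu he
    have h1 := abs_sub (u * x - β) e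
    have h2 := abs_sub (u * x) β
    rw [abs_mul, abs_of_nonneg hu] at h2
    nlinarith [mul_le_mul_of_nonneg_left hx hu]
  have hcd : ud ≤ c * ud := le_mul_of_one_le_left (by linarith) hc
  have d : ∀ u u' e r : ℝ, 0 ≤ u → 0 ≤ u' → u ≤ c * ud → u' ≤ c * ud → |e| ≤ r →
      |(u - u') * e| ≤ c * ud * r := by
    intro u u' e r b1 b2 b3 b4 b5
    rw [abs_mul]
    exact mul_le_mul (abs_le.2 ⟨by linarith, by linarith⟩) b5 (abs_nonneg _) (by linarith)
  have hcΓ : Γ ≤ c * Γ := le_mul_of_one_le_left (by linarith) hc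
  refine ⟨(t uj ej (by linarith) aj).trans ?_, (t ud ed (by linarith) ad).trans ?_, ?_, ?_⟩
  · have h1 : Γ / q ≤ Γ := div_le_self (by linarith) hq
    nlinarith [mul_le_mul_of_nonneg_left h1 (by linarith : 0 ≤ uj),
      mul_le_mul_of_nonneg_right hj (by linarith : 0 ≤ c * Γ)]
  · have h1 : 1 ≤ c * (ud / q) := by
      rw [← mul_div_assoc, one_le_div (by linarith)]
      exact hqd
    have h2 : ud * (Γ / q) = ud / q * Γ := by ring
    have h3 : 0 ≤ ud / q := by positivity
    nlinarith [mul_le_mul_of_nonneg_left hcΓ h3, mul_le_mul_of_nonneg_right h1 (by linarith : 0 ≤ Γ)]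
  · have e : (ud - u0) * (uj * x - β - ej) + (u0 - uj) * (ud * x - β - ed) +
        (uj - ud) * (u0 * x - β - e0) = (u0 - ud) * ej + (uj - u0) * ed + (ud - uj) * e0 := by ring
    rw [e]
    have h1 := d u0 ud ej η (by linarith) (by linarith) h0d hcd aj
    have h2 := d uj u0 ed η (by linarith) (by linarith) hjd h0d ad
    have h3 := d ud uj e0 η (by linarith) (by linarith) hcd hjd a0
    have h4 := abs_add_three ((u0 - ud) * ej) ((uj - u0) * ed) ((ud - uj) * e0)
    have h5 : 0 ≤ c * ud * η := by positivity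
    nlinarith [mul_le_mul_of_nonneg_left hΓ h5]
  · have e : ud * (u0 * x - β - e0) - u0 * (ud * x - β - ed) =
        (u0 - ud) * β + (0 - ud) * e0 + (u0 - 0) * ed := by ring
    rw [e]
    have h1 := d u0 ud β Γ (by linarith) (by linarith) h0d hcd hβ
    have h2 := d 0 ud e0 Γ le_rfl (by linarith) (by linarith) hcd (by linarith)
    have h3 := d u0 0 ed Γ (by linarith) le_rfl h0d (by linarith) (by linarith)
    have h4 := abs_add_three ((u0 - ud) * β) ((0 - ud) * e0) ((u0 - 0) * ed)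
    have h5 : 0 ≤ c * ud * Γ := by positivity
    nlinarith

variable {U : Ultrafilter ℕ} {A : Type} [AddCommGroup A] {I : Type} [Fintype I]

/-- the three coordinates attached to a point -/
def xi (u m : ℕ → I → ℚ) (n : ℕ) (k : Fin 3) (i : I) : ℚ := ![1, 1 / u n i, m n i / u n i] k

theorem struct [DecidableEq I] [Nontrivial I] (E : Amb U A) (α : I → A) (hα : Function.Injective α)
    (cs : I → ℚ) (hcs : ∀ i, 0 < cs i) (u m : ℕ → I → ℚ)
    (hu : ∀ᶠ n in (U : Filter ℕ), ∀ i, u n i = cs i * E.X (α i) n) :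
    ∃ (i0 d : I) (w0 : ℕ) (c0 : ℚ) (N : ℕ) (f : I → Fin N),
      N = finrank ℚ ((I → ℚ) ⧸ E.G (xi u m) w0) ∧ i0 ≠ d ∧ 1 ≤ c0 ∧
      (∀ᶠ n in (U : Filter ℕ), ∀ i, u n i ≤ c0 * u n d) ∧
      (∀ w, w0 ≤ w → E.G (xi u m) w = E.G (xi u m) w0) ∧
      (∀ i, i ≠ i0 → (fun n => u n i0 / u n i) ∈ E.Mm (E.Sw w0)) ∧
      Function.Surjective f ∧ (∀ j, f j = f i0 → j = i0) ∧
      (∀ s : _ → I, (∀ k, f (s k) = k) →
        ⊤ ≤ span ℚ (Set.range fun k => (E.G (xi u m) w0).mkQ (Pi.single (s k) 1))) ∧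
      (N = 2 → ∀ᶠ n in (U : Filter ℕ), ∀ j,
        (u n d - u n i0) * m n j + (u n i0 - u n j) * m n d + (u n j - u n d) * m n i0 = 0) := by
  obtain ⟨i0, h0⟩ := Ultrafilter.eventually_exists_iff.1
    (Eventually.of_forall (f := (U : Filter ℕ)) fun n => Finite.exists_min fun i => E.X (α i) n)
  obtain ⟨d, hd⟩ := Ultrafilter.eventually_exists_iff.1
    (Eventually.of_forall (f := (U : Filter ℕ)) fun n => Finite.exists_max fun i => E.X (α i) n)
  have n0 : ∀ i, i ≠ i0 → E.Neg (α i0 - α i) := fun i hi =>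
    E.neg_of_le (hα.ne hi.symm) (h0.mono fun n hn => hn i)
  have hne : i0 ≠ d := by
    rintro rfl
    obtain ⟨i, hi⟩ := exists_ne i0
    obtain ⟨n, h1, h2⟩ := (hd.and (n0 i hi)).exists
    rw [E.X_sub, div_lt_one (E.X_pos _ n)] at h2
    exact h2.not_ge (h1 i)
  choose w hw using fun i => E.ex (α i0 - α i)
  obtain ⟨w1, hw1⟩ := Finite.exists_le w
  obtain ⟨w0, a1, a2⟩ := E.stab (xi u m) w1
  have upos : ∀ᶠ n in (U : Filter ℕ), ∀ i, 0 < u n i :=
    hu.mono fun n hn i => hn i ▸ mul_pos (hcs i) (E.X_pos _ n)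
  have rat : ∀ i, i ≠ i0 → (fun n => u n i0 / u n i) ∈ E.Mm (E.Sw w0) := by
    intro i hi
    refine E.mono_mem (E.Sw_mono ((hw1 i).trans a1) ⟨n0 i hi, hw i⟩) (cs i0 / cs i) ?_
    filter_upwards [hu] with n hn
    rw [hn, hn, E.X_sub, mul_div_mul_comm]
  have up : E.Mm (E.Sw w0) ≤ E.Mm {a | E.Neg a} := E.Mm_mono fun _ h => h.1
  set G := E.G (xi u m) w0 with hG
  have fsum : ∀ (F : I → ℕ → ℚ), (∀ l, F l ∈ E.Mm {a | E.Neg a}) →
      (fun n => ∑ l, F l n) ∈ E.Mm {a | E.Neg a} := by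
    intro F hF
    have : (fun n => ∑ l, F l n) = ∑ l, F l := by
      funext n
      simp [Finset.sum_apply]
    rw [this]
    exact sum_mem fun l _ => hF l
  have G1 : ∀ c ∈ G, ∑ i, c i = 0 := by
    rintro c ⟨M, h1, h2⟩
    refine E.nv0 (fsum M fun l => up (h1 l)) ?_
    filter_upwards [h2] with n hn
    simpa [xi] using (hn 0).symm
  have G2 : ∀ c ∈ G, c i0 = 0 := by
    rintro c ⟨M, h1, h2⟩
    refine E.nv0 (fsum (fun l n => M l n * (u n i0 / u n l) -
      if l = i0 then 0 else c l * (u n i0 / u n l)) fun l => ?_) ?_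
    · by_cases e : l = i0
      · obtain ⟨g, b1, b2⟩ := E.mem_Mm.1 (up (h1 l))
        refine E.mem_Mm.2 ⟨g, b1, ?_⟩
        filter_upwards [b2, upos] with n c1 c2
        simp [e ▸ c1, e, (c2 i0).ne']
      · simp only [if_neg e]
        exact sub_mem (E.Mm_mul _ (up (h1 l)) _ (up (rat l e))) (smul_mem _ (c l) (up (rat l e)))
    · filter_upwards [h2, upos] with n hn c2
      have h3 := congrArg (fun z => z * u n i0) (hn 1)
      simp only [xi, Matrix.cons_val_one, Matrix.cons_val_zero, Finset.sum_mul] at h3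
      have h4 : ∑ l, M l n * (u n i0 / u n l) = ∑ l, c l * (u n i0 / u n l) := by
        convert h3.symm using 2 <;> ring
      rw [Finset.sum_sub_distrib, h4, ← Finset.sum_sub_distrib, Finset.sum_eq_single i0]
      · simp [(c2 i0).ne']
      · intro l _ e
        simp [e]
      · simp
  set φ1 : ((I → ℚ) ⧸ G) →ₗ[ℚ] ℚ := G.liftQ (Fintype.linearCombination ℚ fun _ => 1)
    fun c hc => by simpa [Fintype.linearCombination_apply] using G1 c hc with hφ1
  set φ2 : ((I → ℚ) ⧸ G) →ₗ[ℚ] ℚ := G.liftQ (LinearMap.proj i0) G2 with hφ2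
  have p1 : ∀ i, φ1 (G.mkQ (Pi.single i 1)) = 1 := fun i => by
    simp [hφ1, Fintype.linearCombination_apply_single]
  have p2 : ∀ i, φ2 (G.mkQ (Pi.single i 1)) = if i0 = i then 1 else 0 := fun i => by
    simp [hφ2, Pi.single_apply]
  obtain ⟨f, f1, f2⟩ := flag (fun i => G.mkQ (Pi.single i 1)) (fun i h => by simpa [h] using p1 i)
    (by
      rw [show (fun i => G.mkQ (Pi.single i 1)) = G.mkQ ∘ Pi.basisFun ℚ I from
        funext fun i => by simp, Set.range_comp, span_image, Basis.span_eq, Submodule.map_top,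
        range_mkQ])
  choose s0 hs0 using f1
  have sec : ∀ j, ∀ k, f (Function.update s0 (f j) j k) = k := by
    intro j k
    by_cases e : k = f j
    · simp [e]
    · simp [e, hs0]
  have f3 : ∀ j, f j = f i0 → j = i0 := by
    intro j hj
    by_contra hc
    have h1 : span ℚ (Set.range ((fun i => G.mkQ (Pi.single i 1)) ∘ Function.update s0 (f j) j)) ≤
        LinearMap.ker φ2 := by
      refine span_le.2 (Set.range_subset_iff.2 fun k => ?_)
      simp only [Function.comp, SetLike.mem_coe, LinearMap.mem_ker, p2]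
      refine if_neg fun e => ?_
      have h2 := sec j k
      rw [← e, ← hj] at h2
      rw [← h2, Function.update_self] at e
      exact hc e.symm
    have := h1 (f2 _ (sec j) (mem_top (x := G.mkQ (Pi.single i0 1))))
    rw [LinearMap.mem_ker, p2] at this
    simp at this
  obtain ⟨c1, hc1⟩ := Finite.exists_le fun i => cs i / cs d
  refine ⟨i0, d, w0, c1, _, f, rfl, hne, by simpa [(hcs d).ne'] using hc1 d, ?_, a2, rat,
    fun k => ⟨_, hs0 k⟩, f3, f2, fun h2 => ?_⟩
  · filter_upwards [hu, hd] with n b1 b2 i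
    rw [b1, b1, ← mul_assoc]
    exact mul_le_mul ((div_le_iff₀ (hcs d)).1 (hc1 i)) (b2 i) (E.X_pos _ n).le
      ((hcs i).le.trans ((div_le_iff₀ (hcs d)).1 (hc1 i)))
  have two : ∀ j, j ≠ i0 → f j = f d := by
    intro j hj
    have b1 : (f j : ℕ) ≠ f i0 := fun e => hj (f3 j (Fin.ext e))
    have b2 : (f d : ℕ) ≠ f i0 := fun e => hne (f3 d (Fin.ext e)).symm
    have b3 := (f j).2.trans_eq h2
    have b4 := (f d).2.trans_eq h2
    have b5 := (f i0).2.trans_eq h2
    exact Fin.ext (by omega)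
  have mem : ∀ j, j ≠ i0 → (Pi.single j 1 - Pi.single d 1 : I → ℚ) ∈ G := by
    intro j hj
    have h1 : span ℚ (Set.range ((fun i => G.mkQ (Pi.single i 1)) ∘ Function.update s0 (f d) d)) ≤
        span ℚ {G.mkQ (Pi.single i0 1), G.mkQ (Pi.single d 1)} := by
      refine span_mono (Set.range_subset_iff.2 fun k => ?_)
      by_cases e : Function.update s0 (f d) d k = i0
      · simp [e]
      · have := two _ e
        rw [sec] at this
        simp [this]
    obtain ⟨a, b, h⟩ := mem_span_pair.1 (h1 (f2 _ (sec d) (mem_top (x := G.mkQ (Pi.single j 1)))))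
    have b1 := congrArg φ1 h
    have b2 := congrArg φ2 h
    simp only [map_add, map_smul, p1, p2, if_neg hne, if_neg hj.symm, smul_eq_mul, mul_one,
      mul_zero, add_zero, if_true] at b1 b2
    rw [b2, zero_add] at b1
    rw [b2, b1, zero_smul, zero_add, one_smul, eq_comm, mkQ_apply, mkQ_apply,
      Submodule.Quotient.eq] at h
    exact h
  choose! M M1 M2 using mem
  set N : Matrix I I (ℕ → ℚ) := fun j l => if j = i0 then 0 else M j l with hN
  have h3 := det_mem _ E.Mm_mul N fun j l => by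
    simp only [hN]
    split_ifs with e
    · exact zero_mem _
    · exact up (M1 j e l)
  have h4 : ∀ᶠ n in (U : Filter ℕ), (1 - N).det n ≠ 0 := by
    refine Ultrafilter.eventually_not.2 fun h => ?_
    have := E.nv0 h3 (c := -1) (h.mono fun n hn => by simp [hn])
    simp at this
  have h5 : ∀ᶠ n in (U : Filter ℕ), ∀ j, j ≠ i0 → ∀ k,
      ∑ i, (Pi.single j 1 - Pi.single d 1 : I → ℚ) i * xi u m n k i = ∑ l, M j l n * xi u m n k l :=
    eventually_all.2 fun j => by
      by_cases e : j = i0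
      · simp [e]
      · simpa only [ne_eq, e, not_false_eq_true, forall_const] using M2 j e
  filter_upwards [h4, h5, upos] with n b1 b2 b3
  set δ : I → ℚ := fun l => (m n i0 - m n d) * xi u m n 0 l +
    (u n i0 * m n d - u n d * m n i0) * xi u m n 1 l + (u n d - u n i0) * xi u m n 2 l with hδ
  have c1 : ∀ j, δ j * u n j = (u n d - u n i0) * m n j + (u n i0 - u n j) * m n d +
      (u n j - u n d) * m n i0 := by
    intro j
    have := (b3 j).ne'
    simp only [hδ, xi, Matrix.cons_val_zero, Matrix.cons_val_one, Matrix.cons_val]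
    field_simp
    ring
  have c2 : ∀ j, j = i0 ∨ j = d → δ j = 0 := by
    intro j hj
    refine (mul_eq_zero.1 ?_).resolve_right (b3 j).ne'
    rw [c1]
    rcases hj with rfl | rfl <;> ring
  have c3 : δ = 0 := by
    refine Matrix.eq_zero_of_mulVec_eq_zero (M := (Pi.evalRingHom (fun _ => ℚ) n).mapMatrix (1 - N))
      (by rwa [← RingHom.map_det]) (funext fun j => ?_)
    rw [map_sub, map_one, Matrix.sub_mulVec, Matrix.one_mulVec, Pi.sub_apply, Pi.zero_apply,
      sub_eq_zero]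
    simp only [Matrix.mulVec, dotProduct, RingHom.mapMatrix_apply, Matrix.map_apply, hN,
      Pi.evalRingHom_apply]
    by_cases e : j = i0
    · simp [e, c2]
    · have e0 := b2 j e
      simp only [Pi.sub_apply, sub_mul, Finset.sum_sub_distrib, Pi.single_apply, ite_mul, one_mul,
        zero_mul, Finset.sum_ite_eq', Finset.mem_univ, if_true] at e0
      have e1 : ∀ (r : ℚ) (k : Fin 3), ∑ l, M j l n * (r * xi u m n k l) =
          r * (xi u m n k j - xi u m n k d) := by
        intro r k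
        rw [e0, Finset.mul_sum]
        exact Finset.sum_congr rfl fun _ _ => by ring
      have e2 := c2 d (Or.inr rfl)
      simp only [if_neg e, hδ, mul_add, Finset.sum_add_distrib, e1] at e2 ⊢
      linear_combination e2
  intro j
  rw [← c1, c3, Pi.zero_apply, zero_mul]

end Pool.Agent.MP_60c1b5_an.H72
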