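import Mathlib
import Pool.Agent.MP_60c1b5_an.H72.Part

set_option autoImplicit false

/-!
The partition inequality from the Subspace Theorem.
-/

namespace Pool.Agent.MP_60c1b5_an.H72

open Real Filter Submodule Module Pool.Agent.MP_1e211b_nt.H73 Pool.Agent.MP_60c1b5_an.H73

/-- the logarithm of the multiplier -/
noncomputable def lg (p : ℕ × ℕ) : ℝ := p.1 * log 2 + p.2 * log 3

theorem un_pw (p : ℕ × ℕ) : (un p : ℚ) = pw p.1 p.2 := by simp [un, pw]

theorem un_exp (p : ℕ × ℕ) : (un p : ℝ) = exp (lg p) := by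
  have := pw_real p.1 p.2
  rw [← un_pw] at this
  simpa [lg] using this

theorem pw_sub (k l k' l' : ℤ) : pw (k - k') (l - l') = pw k l / pw k' l' := by
  rw [eq_div_iff (pw_pos _ _).ne', ← pw_add, sub_add_cancel, sub_add_cancel]

theorem lg_le {p : ℕ × ℕ} {M : ℕ} (h1 : p.1 ≤ M) (h2 : p.2 ≤ M) : 0 ≤ lg p ∧ lg p ≤ 2 * M := by
  have h3 : (un p : ℝ) ≤ 6 ^ M := by exact_mod_cast un_le h1 h2
  have h4 : (1 : ℝ) ≤ un p := by exact_mod_cast un_pos p
  rw [un_exp] at h3 h4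
  exact ⟨one_le_exp_iff.1 h4, exp_le_exp.1 (h3.trans (six_pow_le M))⟩

theorem sum_lev {W T : Type} [Fintype W] [Fintype T] [DecidableEq T] (Q : W → Finset T)
    (F : W × T → ℝ) :
    ∑ p ∈ Finset.univ.filter fun p : W × T => p.2 ∈ Q p.1, F p = ∑ a, ∑ τ ∈ Q a, F (a, τ) := by
  rw [Finset.sum_filter, Fintype.sum_prod_type]
  simp

theorem poly_le (c ε : ℝ) (hε : 0 < ε) :
    ∀ᶠ n : ℕ in atTop, c * (2 * n + 1) ^ 2 ≤ exp (ε * n) := by
  have h := (isLittleO_pow_exp_pos_mul_atTop 2 hε).comp_tendsto tendsto_natCast_atTop_atTop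
  filter_upwards [h.def (c := 1 / (9 * (|c| + 1))) (by positivity), eventually_ge_atTop 1] with
    n h1 h2
  have h3 : (1 : ℝ) ≤ n := by exact_mod_cast h2
  simp only [Function.comp, norm_eq_abs, abs_exp, abs_pow, Nat.abs_cast] at h1
  rw [one_div_mul_eq_div, le_div_iff₀ (by positivity)] at h1
  have h4 : (2 * (n : ℝ) + 1) ^ 2 ≤ 9 * n ^ 2 := by nlinarith
  nlinarith [le_abs_self c, mul_le_mul_of_nonneg_left h4 (abs_nonneg c), sq_nonneg (2 * (n : ℝ) + 1),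
    mul_le_mul_of_nonneg_right (le_abs_self c) (sq_nonneg (2 * (n : ℝ) + 1))]

theorem transl {U : Ultrafilter ℕ} {I J : Type} [Fintype I] [Countable J] [Nonempty J]
    (hU : (U : Filter ℕ) ≤ atTop) (u : ℕ → I → ℕ) (hu : ∀ n i, 0 < u n i) (q : ℕ → ℕ)
    (m : ℕ → I → ℤ) (x β : ℕ → ℝ)
    (hq : ∀ᶠ n in (U : Filter ℕ), 0 < q n ∧ ∀ i j, u n i ≡ u n j [MOD q n])
    (he : ∀ᶠ n : ℕ in (U : Filter ℕ), ∀ i, |u n i * x n - β n - m n i| ≤ exp (-n))
    (i0 d : I) (c0 : ℝ) (c1 : 1 ≤ c0) (hud : ∀ᶠ n in (U : Filter ℕ),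
      (∀ i, (u n i : ℝ) ≤ c0 * u n d) ∧ (q n : ℝ) ≤ c0 * u n d) (σ : J → ℕ → Fin 3 → ℚ) :
    ∃ (m' : ℕ → I → ℤ) (γ : ℕ → Fin 3 → ℚ),
      (∀ᶠ n in (U : Filter ℕ), ∀ i,
        ∑ l, γ n l * xi (fun n i => u n i) (fun n i => m n i) n l i = m' n i / u n i) ∧
      (∀ y, ∀ᶠ n in (U : Filter ℕ), ∑ l, γ n l * σ y n l = 0 → ∀ l, σ y n l = 0) ∧
      ∀ ε : ℝ, 0 < ε → ∀ᶠ n : ℕ in (U : Filter ℕ), ∀ j, |(m' n j : ℝ)| ≤ u n j * exp (ε * n) ∧
        |(m' n d : ℝ)| ≤ u n d / q n * exp (ε * n) ∧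
        |((u n d : ℝ) - u n i0) * m' n j + (u n i0 - u n j) * m' n d + (u n j - u n d) * m' n i0| ≤
          exp (-n) * u n d * exp (ε * n) ∧
        |(u n d : ℝ) * m' n i0 - u n i0 * m' n d| ≤ u n d * exp (ε * n) := by
  obtain ⟨t, ht⟩ : ∃ t : ℕ → ℤ, ∀ n, t n = ⌊q n * x n⌋ := ⟨_, fun _ => rfl⟩
  obtain ⟨φ, hφ⟩ : ∃ φ : ℕ → ℚ, ∀ n, φ n = (u n i0 % q n : ℕ) / q n := ⟨_, fun _ => rfl⟩
  obtain ⟨k, hk⟩ : ∃ k : ℕ → ℤ, ∀ n, k n = ⌊β n - t n * φ n⌋ := ⟨_, fun _ => rfl⟩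
  obtain ⟨s, hs, hgen⟩ := generic
    (fun y n => σ y n 2 - t n * (σ y n 0 / q n - φ n * σ y n 1) + k n * σ y n 1)
    (fun y n => σ y n 0 / q n - φ n * σ y n 1) (fun y n => -σ y n 1)
  have hdiv : ∀ᶠ n in (U : Filter ℕ), ∀ i, ((u n i / q n : ℕ) : ℚ) = u n i / q n - φ n := by
    filter_upwards [hq] with n hn i
    have e1 : (q n : ℚ) ≠ 0 := by exact_mod_cast hn.1.ne'
    have e2 : (q n : ℚ) * (u n i / q n : ℕ) + (u n i0 % q n : ℕ) = u n i := by
      rw [← hn.2 i i0]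
      exact_mod_cast Nat.div_add_mod _ _
    rw [hφ, ← e2]
    field_simp
    ring
  refine ⟨fun n i => m n i + (s n - t n) * (u n i / q n : ℕ) + k n - s n ^ 2, fun n =>
    ![(s n - t n) / q n, k n - s n ^ 2 - (s n - t n) * φ n, 1], ?_, fun y => ?_, fun ε hε => ?_⟩
  · filter_upwards [hdiv, hq] with n hn h i
    have e1 : (q n : ℚ) ≠ 0 := by exact_mod_cast h.1.ne'
    have e2 : (u n i : ℚ) ≠ 0 := by exact_mod_cast (hu n i).ne'
    simp only [Fin.sum_univ_three, xi, Matrix.cons_val_zero, Matrix.cons_val_one,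
      Matrix.cons_val, Int.cast_sub, Int.cast_add, Int.cast_mul, Int.cast_natCast, Int.cast_pow, hn]
    field_simp
    ring
  · filter_upwards [hU (hgen y), hq] with n b1 b2 b3
    have e1 : (q n : ℚ) ≠ 0 := by exact_mod_cast b2.1.ne'
    obtain ⟨c1, c2, c3⟩ := b1 (by
      simp only [Fin.sum_univ_three, Matrix.cons_val_zero, Matrix.cons_val_one,
        Matrix.cons_val] at b3
      linear_combination b3)
    rw [neg_eq_zero] at c3
    simp only [c3, mul_zero, sub_zero, add_zero, div_eq_zero_iff, e1, or_false] at c1 c2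
    simp only [c2, zero_div, mul_zero, sub_zero] at c1
    intro l
    fin_cases l
    exacts [c2, c3, c1]
  filter_upwards [hq, he, hdiv, hud, hU (poly_le (6 * c0 * 3) ε hε)] with n b4 b7 b8 b9 b10 j
  have q1 : (1 : ℝ) ≤ q n := by exact_mod_cast b4.1
  have u1 : ∀ i, (1 : ℝ) ≤ u n i := fun i => by exact_mod_cast hu n i
  have s1 : (s n : ℝ) ≤ 2 * n := by exact_mod_cast hs n
  have s2 : (0 : ℝ) ≤ s n := by positivity
  have n0 : (0 : ℝ) ≤ n := by positivity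
  have φ0 : 0 ≤ (φ n : ℝ) ∧ (φ n : ℝ) ≤ 1 := by
    rw [hφ]
    push_cast
    exact ⟨by positivity, (div_le_one (by positivity)).2
      (by exact_mod_cast (Nat.mod_lt _ b4.1).le)⟩
  have em : ∀ i, ((m n i + (s n - t n) * (u n i / q n : ℕ) + k n - s n ^ 2 : ℤ) : ℝ) =
      u n i * (x n + (s n - t n) / q n) - (β n - t n * φ n - k n + s n * φ n + s n ^ 2) -
        (u n i * x n - β n - m n i) := by
    intro i
    have := congrArg (fun r : ℚ => (r : ℝ)) (b8 i)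
    simp only [Rat.cast_natCast, Rat.cast_sub, Rat.cast_div] at this
    simp only [Int.cast_sub, Int.cast_add, Int.cast_mul, Int.cast_natCast, Int.cast_pow, this]
    ring
  have es := est (Γ := 3 * (2 * n + 1) ^ 2) (x := x n + (s n - t n) / q n)
    (β := β n - t n * φ n - k n + s n * φ n + s n ^ 2) q1 c1 (u1 i0) (u1 j) (u1 d) (b9.1 i0)
    (b9.1 j) b9.2 (by nlinarith) (by
      have d1 := Int.floor_le (q n * x n)
      have d2 := Int.lt_floor_add_one (q n * x n)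
      rw [← ht] at d1 d2
      have : x n + (s n - t n) / q n = (q n * x n - t n + s n) / q n := by
        field_simp
        ring
      rw [this, abs_div, abs_of_pos (by positivity : (0 : ℝ) < q n)]
      gcongr
      rw [abs_le]
      constructor <;> nlinarith) (by
      have d1 := Int.floor_le (β n - t n * φ n)
      have d2 := Int.lt_floor_add_one (β n - t n * φ n)
      rw [← hk] at d1 d2
      rw [abs_le]
      constructor <;> nlinarith [φ0.1, φ0.2]) (exp_le_one_iff.2 (by linarith)) (b7 i0) (b7 j) (b7 d)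
  simp only [← em] at es
  have b11 : 6 * c0 * (3 * (2 * n + 1) ^ 2) ≤ exp (ε * n) := by linarith
  exact ⟨es.1.trans (by gcongr), es.2.1.trans (by gcongr), es.2.2.1.trans (by gcongr),
    es.2.2.2.trans (by gcongr)⟩

theorem core {U : Ultrafilter ℕ} {W I : Type} [Fintype W] [DecidableEq W] [Fintype I]
    [DecidableEq I] (hU : (U : Filter ℕ) ≤ atTop) (K B0 : ℕ) (p : ℕ → I → ℕ × ℕ)
    (hK : ∀ᶠ n in (U : Filter ℕ), ∀ i, (p n i).1 ≤ K * n ∧ (p n i).2 ≤ K * n)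
    (xs ys : ℕ → W → ℤ)
    (hB1 : ∀ᶠ n : ℕ in (U : Filter ℕ), ∀ a, |xs n a| ≤ (B0 * n : ℕ) ∧ |ys n a| ≤ (B0 * n : ℕ))
    (In : W → Prop) (d : I) (m' Dt : ℕ → I → ℤ) (r1 r2 : ℕ → I → ℝ) (ε1 : ℝ) (hε1 : 0 < ε1)
    (hr : ∀ᶠ n : ℕ in (U : Filter ℕ), ∀ j, 0 ≤ r1 n j ∧ r1 n j ≤ 2 * (K * n : ℕ) ∧ 0 ≤ r2 n j ∧
      r2 n j ≤ n ∧ |(m' n j : ℝ)| ≤ un (p n j) * exp (ε1 * n - r1 n j) ∧
      |(Dt n j : ℝ)| ≤ un (p n d) * exp (ε1 * n - r2 n j)) :
    ∃ (Z : ℕ → ℚ) (z : ℕ → W × (I ⊕ I) → ℤ) (A2 A3 : ℕ → W → ℝ), (∀ n, Z n ≠ 0) ∧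
      (∀ n a j, ¬In a → z n (a, .inr j) = 0) ∧
      (∀ᶠ n in (U : Filter ℕ), ∀ a i,
        (z n (a, .inl i) : ℚ) = m' n i * (pw (xs n a) (ys n a) * Z n / un (p n i)) ∧
        (In a → (z n (a, .inr i) : ℚ) =
          Dt n i * (pw (xs n a) (ys n a) * Z n / un (p n i) / un (p n d)))) ∧
      ∀ ε : ℝ, 0 < ε → ∀ P P2 P3 : Finset (W × (I ⊕ I)), IsB (cls U z) P → IsB (cls U z) P2 →
        IsB (cls U z) P3 → ∀ᶠ n : ℕ in (U : Filter ℕ),
          ∑ y ∈ P2, y.2.elim (fun i => A2 n y.1 - (p n i).1 * log 2) (fun _ => 0) +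
          ∑ y ∈ P3, y.2.elim (fun i => A3 n y.1 - (p n i).2 * log 3) (fun _ => 0) <
          ∑ y ∈ P, (A2 n y.1 + A3 n y.1 + ε1 * n -
            y.2.elim (r1 n) fun j => lg (p n j) + r2 n j) + ε * n := by
  classical
  obtain ⟨B, hB⟩ : ∃ B, B = B0 + 2 * K := ⟨_, rfl⟩
  have hBn : ∀ n, B * n = B0 * n + 2 * (K * n) := fun n => by
    rw [hB]
    ring
  obtain ⟨e2, he2⟩ : ∃ e2 : ℕ → W × (I ⊕ I) → ℕ, ∀ n z, e2 n z =
    z.2.elim (fun i => (xs n z.1 + (B * n : ℕ) - (p n i).1).toNat) fun _ => 0 :=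
    ⟨_, fun _ _ => rfl⟩
  obtain ⟨e3, he3⟩ : ∃ e3 : ℕ → W × (I ⊕ I) → ℕ, ∀ n z, e3 n z =
    z.2.elim (fun i => (ys n z.1 + (B * n : ℕ) - (p n i).2).toNat) fun _ => 0 :=
    ⟨_, fun _ _ => rfl⟩
  obtain ⟨z, hz⟩ : ∃ z : ℕ → W × (I ⊕ I) → ℤ, ∀ n y, z n y = y.2.elim
    (fun i => m' n i * (2 ^ e2 n (y.1, .inl i) * 3 ^ e3 n (y.1, .inl i)))
    fun j => if In y.1 then Dt n j * (2 ^ (xs n y.1 + (B * n : ℕ) - (p n j).1 - (p n d).1).toNat *
      3 ^ (ys n y.1 + (B * n : ℕ) - (p n j).2 - (p n d).2).toNat) else 0 := ⟨_, fun _ _ => rfl⟩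
  obtain ⟨A2, hA2⟩ : ∃ A2 : ℕ → W → ℝ, ∀ n a, A2 n a = (xs n a + (B * n : ℕ)) * log 2 :=
    ⟨_, fun _ _ => rfl⟩
  obtain ⟨A3, hA3⟩ : ∃ A3 : ℕ → W → ℝ, ∀ n a, A3 n a = (ys n a + (B * n : ℕ)) * log 3 :=
    ⟨_, fun _ _ => rfl⟩
  have hz1 : ∀ᶠ n in (U : Filter ℕ), ∀ a i, (z n (a, .inl i) : ℚ) =
      m' n i * (pw (xs n a) (ys n a) * pw (B * n : ℕ) (B * n : ℕ) / un (p n i)) ∧
      (In a → (z n (a, .inr i) : ℚ) = Dt n i *
        (pw (xs n a) (ys n a) * pw (B * n : ℕ) (B * n : ℕ) / un (p n i) / un (p n d))) := by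
    filter_upwards [hB1, hK] with n b1 b2 a i
    have c1 := b1 a
    have c2 := b2 i
    have c3 := b2 d
    have c4 := hBn n
    rw [abs_le, abs_le] at c1
    refine ⟨?_, fun ha => ?_⟩
    · simp only [hz, he2, he3, Sum.elim_inl, Int.cast_mul (m' n i)]
      rw [pw_toNat (by omega) (by omega), pw_sub, pw_add, ← un_pw]
    · simp only [hz, Sum.elim_inr, if_pos ha, Int.cast_mul (Dt n i)]
      rw [pw_toNat (by omega) (by omega), pw_sub, pw_sub, pw_add, ← un_pw, ← un_pw]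
  refine ⟨fun n => pw (B * n : ℕ) (B * n : ℕ), z, A2, A3, fun n => (pw_pos _ _).ne',
    fun n a j h => by simp [hz, h], hz1, fun ε hε P P2 P3 hP hP2 hP3 => ?_⟩
  have l2 : 0 < log 2 := log_pos one_lt_two
  have l3 : 0 < log 3 := log_pos (by norm_num)
  have l4 : log 2 ≤ 1 := by linarith [log_two_lt_d9]
  have l5 : log 3 ≤ 2 := by linarith [log_le_sub_one_of_pos three_pos]
  have key := gl3 U (fun n => n) hU (6 * B + 4 * K + 1 + ⌈ε1⌉₊) z (fun n y => exp (A2 n y.1 +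
      A3 n y.1 + ε1 * n - y.2.elim (r1 n) fun j => lg (p n j) + r2 n j)) e2 e3 (by
    filter_upwards [hz1, hB1, hK, hr] with n b1 b2 b3 b4
    have u1 : ∀ i, (0 : ℝ) < un (p n i) := fun i => by exact_mod_cast un_pos _
    have n0 : (0 : ℝ) ≤ n := by positivity
    have xz : ∀ a, (pw (xs n a) (ys n a) : ℝ) * pw (B * n : ℕ) (B * n : ℕ) =
        exp (A2 n a + A3 n a) := by
      intro a
      rw [← Rat.cast_mul, ← pw_add, pw_real, hA2, hA3]
      push_cast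
      rfl
    have hEb : ∀ a, 0 ≤ A2 n a + A3 n a ∧ A2 n a + A3 n a ≤ 6 * B * n := by
      intro a
      have c2 := b2 a
      have c4 := hBn n
      rw [abs_le, abs_le] at c2
      have d1 : (0 : ℝ) ≤ xs n a + (B * n : ℕ) := by exact_mod_cast (by omega)
      have d2 : (0 : ℝ) ≤ ys n a + (B * n : ℕ) := by exact_mod_cast (by omega)
      have d3 : (xs n a : ℝ) + (B * n : ℕ) ≤ 2 * (B * n : ℕ) := by exact_mod_cast (by omega)
      have d4 : (ys n a : ℝ) + (B * n : ℕ) ≤ 2 * (B * n : ℕ) := by exact_mod_cast (by omega)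
      rw [hA2, hA3]
      refine ⟨by positivity, ?_⟩
      have d5 := mul_le_mul d3 l4 l2.le (by positivity)
      have d6 := mul_le_mul d4 l5 l3.le (by positivity)
      push_cast at d5 d6 ⊢
      linarith
    have hce : ε1 * n ≤ ⌈ε1⌉₊ * n := mul_le_mul_of_nonneg_right (Nat.le_ceil _) n0
    have hc0' : 0 ≤ ε1 * n := by positivity
    have hKn : (0 : ℝ) ≤ K * n := by positivity
    have hBn' : (0 : ℝ) ≤ B * n := by positivity
    rintro ⟨a, i | j⟩
    · have c2 := b2 a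
      have c4 := hBn n
      obtain ⟨c5, c6, -, -, c7, -⟩ := b4 i
      rw [abs_le, abs_le] at c2
      refine ⟨?_, exp_pos _, ?_, ?_, ?_, ?_, ?_⟩
      · have d1 := congrArg (fun r : ℚ => (r : ℝ)) (b1 a i).1
        simp only [Rat.cast_mul, Rat.cast_div, Rat.cast_intCast, Rat.cast_natCast, xz] at d1
        have := u1 i
        rw [d1, abs_mul, abs_of_pos (by positivity : 0 < exp (A2 n a + A3 n a) / un (p n i)),
          Sum.elim_inl, add_sub_assoc, exp_add (A2 n a + A3 n a)]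
        refine (mul_le_mul_of_nonneg_right c7 (by positivity)).trans (le_of_eq ?_)
        field_simp
      · rw [log_exp, abs_le, Sum.elim_inl]
        have := hEb a
        push_cast at c6 ⊢
        constructor <;> linarith
      · rw [hz]
        exact (dvd_mul_right _ _).mul_left _
      · rw [hz]
        exact (dvd_mul_left _ _).mul_left _
      · simp only [he2, Sum.elim_inl, add_mul, mul_assoc]
        omega
      · simp only [he3, Sum.elim_inl, add_mul, mul_assoc]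
        omega
    · obtain ⟨-, -, c5, c6, -, c7⟩ := b4 j
      refine ⟨?_, exp_pos _, ?_, by simp [he2], by simp [he3], by simp [he2], by simp [he3]⟩
      · by_cases ha : In a
        · have d1 := congrArg (fun r : ℚ => (r : ℝ)) ((b1 a j).2 ha)
          simp only [Rat.cast_mul, Rat.cast_div, Rat.cast_intCast, Rat.cast_natCast, xz] at d1
          have := u1 j
          have := u1 d
          rw [d1, abs_mul, abs_of_pos
            (by positivity : 0 < exp (A2 n a + A3 n a) / un (p n j) / un (p n d)), Sum.elim_inr,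
            show A2 n a + A3 n a + ε1 * n - (lg (p n j) + r2 n j) =
              A2 n a + A3 n a - lg (p n j) + (ε1 * n - r2 n j) by ring,
            exp_add (A2 n a + A3 n a - lg (p n j)), exp_sub (A2 n a + A3 n a), ← un_exp]
          refine (mul_le_mul_of_nonneg_right c7 (by positivity)).trans (le_of_eq ?_)
          field_simp
        · simp only [hz, Sum.elim_inr, if_neg ha, Int.cast_zero, abs_zero]
          positivity
      · rw [log_exp, abs_le, Sum.elim_inr]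
        have := hEb a
        have d1 := lg_le (b3 j).1 (b3 j).2
        push_cast at d1 ⊢
        constructor <;> linarith) ε hε P P2 P3 hP hP2 hP3
  filter_upwards [key, hB1, hK] with n b0 b2 b3
  have pe : ∀ (r : ℝ) (e : ℕ), 0 < r → r ^ e = exp (e * log r) := fun r e hr => by
    rw [← log_pow, exp_log (by positivity)]
  simp only [pe _ _ two_pos, pe _ _ three_pos, ← exp_sum, ← exp_add, exp_lt_exp] at b0
  have c4 := hBn n
  convert b0 using 3 <;> rename_i y _ <;> obtain ⟨a, i | j⟩ := y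
  · have c1 := abs_le.1 (b2 a).1
    have c2 := b3 i
    have : (e2 n (a, .inl i) : ℝ) = xs n a + (B * n : ℕ) - (p n i).1 := by
      simp only [he2, Sum.elim_inl]
      exact_mod_cast Int.toNat_of_nonneg (by omega)
    rw [Sum.elim_inl, this, hA2]
    ring
  · simp [he2]
  · have c1 := abs_le.1 (b2 a).2
    have c2 := b3 i
    have : (e3 n (a, .inl i) : ℝ) = ys n a + (B * n : ℕ) - (p n i).2 := by
      simp only [he3, Sum.elim_inl]
      exact_mod_cast Int.toNat_of_nonneg (by omega)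
    rw [Sum.elim_inl, this, hA3]
    ring
  · simp [he3]

end Pool.Agent.MP_60c1b5_an.H72
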