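import Mathlib
import Pool.Agent.MP_60c1b5_an.H72.Core

set_option autoImplicit false

/-!
The partition inequality from the Subspace Theorem.
-/

namespace Pool.Agent.MP_60c1b5_an.H72

open Real Filter Submodule Module Pool.Agent.MP_1e211b_nt.H73 Pool.Agent.MP_60c1b5_an.H73

theorem count {A : Type} [DecidableEq A] {S T : Finset A} (sub : S ⊆ T) (hS : S.Nonempty)
    (F : T → ℝ) {η c r Φ e : ℝ} (hT : (T.card : ℝ) ≤ (1 + η) * S.card) (hc : 0 ≤ c)
    (he : 0 ≤ e) (h1 : η * c ≤ e) (h2 : r ≤ e) (h : ∀ a, F a ≤ if a.1 ∈ S then r - Φ else c)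
    (h0 : 0 < ∑ a, F a + e) : Φ ≤ 3 * e := by
  have tot := Finset.sum_le_sum fun a (_ : a ∈ Finset.univ) => h a
  rw [Finset.sum_coe_sort T fun a => if a ∈ S then r - Φ else c, Finset.sum_ite,
    Finset.filter_mem_eq_inter, Finset.inter_eq_right.2 sub, ← Finset.sdiff_eq_filter,
    Finset.sum_const, Finset.sum_const, nsmul_eq_mul, nsmul_eq_mul,
    Finset.cast_card_sdiff sub] at tot
  have w1 : (1 : ℝ) ≤ S.card := by exact_mod_cast Finset.card_pos.2 hS
  by_contra hcon
  have d1 : (T.card - S.card : ℝ) * c ≤ η * S.card * c :=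
    mul_le_mul_of_nonneg_right (by linarith) hc
  have d2 := mul_le_mul_of_nonneg_right h1 (zero_le_one.trans w1)
  have d3 := mul_le_mul_of_nonneg_right h2 (zero_le_one.trans w1)
  have d4 := mul_le_mul_of_nonneg_right w1 he
  have d5 := mul_le_mul_of_nonneg_right (not_le.1 hcon).le (zero_le_one.trans w1)
  linarith

theorem part {U : Ultrafilter ℕ} {I : Type} [Fintype I] [DecidableEq I] [Nontrivial I]
    (hU : (U : Filter ℕ) ≤ atTop) (K : ℕ) (p : ℕ → I → ℕ × ℕ)
    (hK : ∀ᶠ n in (U : Filter ℕ), ∀ i, (p n i).1 ≤ K * n ∧ (p n i).2 ≤ K * n)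
    (hsep : ∀ i j, i ≠ j → ∀ C : ℤ, ∀ᶠ n in (U : Filter ℕ),
      C < |((p n i).1 : ℤ) - (p n j).1| + |((p n i).2 : ℤ) - (p n j).2|)
    (q : ℕ → ℕ) (m : ℕ → I → ℤ) (x β : ℕ → ℝ)
    (hq : ∀ᶠ n in (U : Filter ℕ), 0 < q n ∧ ∀ i j, un (p n i) ≡ un (p n j) [MOD q n])
    (he : ∀ᶠ n : ℕ in (U : Filter ℕ), ∀ i, |un (p n i) * x n - β n - m n i| ≤ exp (-n)) :
    ∃ (N : ℕ) (f : I → Fin N) (i0 d : I), i0 ≠ d ∧ Function.Surjective f ∧
      (∀ j, f j = f i0 → j = i0) ∧
      (N = 2 → ∀ᶠ n in (U : Filter ℕ), ∀ j, ((un (p n d) : ℚ) - un (p n i0)) * m n j +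
        (un (p n i0) - un (p n j)) * m n d + (un (p n j) - un (p n d)) * m n i0 = 0) ∧
      ∀ ε : ℝ, 0 < ε → ∀ s1 s2 s3 : Fin N → I, (∀ k, f (s1 k) = k) → (∀ k, f (s2 k) = k) →
        (∀ k, f (s3 k) = k) → ∀ᶠ n : ℕ in (U : Filter ℕ),
          ∑ k, (lg (p n (s1 k)) - (p n (s2 k)).1 * log 2 - (p n (s3 k)).2 * log 3) +
            (N - 2) * n + log (q n) ≤ lg (p n d) + ε * n := by
  classical
  obtain ⟨ρ, E, α, C, C', hE⟩ := exists_amb U (fun i n => ((p n i).1 : ℤ))
    (fun i n => ((p n i).2 : ℤ))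
    (fun i => ⟨K, hK.mono fun n hn => by
      rw [Nat.abs_cast]
      exact_mod_cast (hn i).1⟩)
    (fun i => ⟨K, hK.mono fun n hn => by
      rw [Nat.abs_cast]
      exact_mod_cast (hn i).2⟩)
  have hα : Function.Injective α := by
    intro i j e
    by_contra hne
    obtain ⟨n, h1, h2⟩ := (hE.and (hsep i j hne (|C i - C j| + |C' i - C' j|))).exists
    rw [(h1 i).1, (h1 i).2, (h1 j).1, (h1 j).2, e] at h2
    simp at h2
  have upos : ∀ n i, (0 : ℚ) < un (p n i) := fun n i => by exact_mod_cast un_pos _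
  obtain ⟨i0, d, w0, c0, N, f, hN, hne, hc0, hud, hw, rat, fs, f3, f2, two⟩ := struct E α hα
    (fun i => pw (C i) (C' i)) (fun i => pw_pos _ _) (fun n i => un (p n i)) (fun n i => m n i) (by
      filter_upwards [hE] with n hn i
      simp only [un_pw, (hn i).1, (hn i).2, pw_add, Amb.X, mul_comm])
  refine ⟨N, f, i0, d, hne, fs, f3, two, fun ε hε s1 s2 s3 h1 h2 h3 => ?_⟩
  obtain ⟨s0, hs0⟩ : ∃ s0, s0 = Function.update s1 (f d) d := ⟨_, rfl⟩
  have h0 : ∀ k, f (s0 k) = k := by
    intro k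
    by_cases e : k = f d
    · simp [hs0, e]
    · simp [hs0, e, h1]
  obtain ⟨ε1, hε1, hε1'⟩ : ∃ ε1 : ℝ, 0 < ε1 ∧ N * ε1 ≤ ε / 4 :=
    ⟨ε / (4 * (N + 1)), by positivity, by
      rw [← mul_div_assoc, div_le_div_iff₀ (by positivity) (by positivity)]
      nlinarith⟩
  obtain ⟨η, hη, hη'⟩ : ∃ η : ℝ, 0 < η ∧ η * (Fintype.card I * (2 * K + ε1)) ≤ ε / 4 :=
    ⟨ε / (4 * (Fintype.card I * (2 * K + ε1) + 1)), by positivity, by
      rw [div_mul_eq_mul_div, div_le_div_iff₀ (by positivity) (by positivity)]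
      nlinarith⟩
  obtain ⟨D, hD⟩ := E.fol w0 η hη
  choose KB hKB using fun a : E.Bx (D + w0) => E.lin a
  obtain ⟨B0, hB0⟩ := Finite.exists_le KB
  have hB1 : ∀ᶠ n : ℕ in (U : Filter ℕ), ∀ a : E.Bx (D + w0),
      |E.x n a| ≤ (B0 * n : ℕ) ∧ |E.y n a| ≤ (B0 * n : ℕ) := by
    filter_upwards [eventually_all.2 hKB] with n hn a
    have : (KB a : ℤ) * n ≤ (B0 * n : ℕ) := by exact_mod_cast Nat.mul_le_mul_right n (hB0 a)
    exact ⟨(hn a).1.trans this, (hn a).2.trans this⟩
  have hqd : ∀ᶠ n in (U : Filter ℕ), q n ≤ un (p n i0) ∨ q n ≤ un (p n d) := by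
    filter_upwards [hq, hsep i0 d hne 0] with n b1 b2
    have b3 : un (p n i0) ≠ un (p n d) := fun e => by simp [un_inj e] at b2
    have b4 := Int.le_of_dvd (abs_pos.2 (by omega)) ((dvd_abs _ _).2 (b1.2 i0 d).dvd)
    rcases le_abs.1 b4 with h | h <;> omega
  have hlq : ∀ᶠ n : ℕ in (U : Filter ℕ), 0 ≤ log (q n) ∧ log (q n) ≤ 2 * (K * n : ℕ) := by
    filter_upwards [hq, hqd, hK] with n b1 b2 b3
    refine ⟨log_natCast_nonneg _, (log_le_iff_le_exp (by exact_mod_cast b1.1)).2 ?_⟩
    refine le_trans ?_ (six_pow_le _)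
    exact_mod_cast b2.elim (fun h => h.trans (un_le (b3 _).1 (b3 _).2))
      fun h => h.trans (un_le (b3 _).1 (b3 _).2)
  have hud' : ∀ᶠ n in (U : Filter ℕ), ∀ i, (un (p n i) : ℝ) ≤ c0 * un (p n d) :=
    hud.mono fun n hn i => by exact_mod_cast hn i
  obtain ⟨m', γ, hr, hγ, es⟩ := transl hU (fun n i => un (p n i)) (fun n i => un_pos _) q m x β hq he
    i0 d c0 (by exact_mod_cast hc0) (by
      filter_upwards [hud', hqd] with n b1 b2
      exact ⟨b1, b2.elim (fun h => le_trans (by exact_mod_cast h) (b1 i0))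
        fun h => le_trans (by exact_mod_cast h) (b1 d)⟩)
    fun (y : E.Bx (D + w0) × I → ℚ) n l => ∑ z, y z *
      (E.X z.1 n * xi (fun n i => un (p n i)) (fun n i => m n i) n l z.2)
  generalize xi (fun n i => (un (p n i) : ℚ)) (fun n i => (m n i : ℚ)) = ξ at *
  obtain ⟨Dt, hDt⟩ : ∃ Dt : ℕ → I → ℤ, ∀ n j, Dt n j =
    if j = i0 then un (p n d) * m' n i0 - un (p n i0) * m' n d else
    (un (p n d) - un (p n i0)) * m' n j + (un (p n i0) - un (p n j)) * m' n d +
      (un (p n j) - un (p n d)) * m' n i0 := ⟨_, fun _ _ => rfl⟩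
  obtain ⟨Z, z, A2, A3, hZ, hz0, hz1, key⟩ := core hU K B0 p hK
    (fun n (a : E.Bx (D + w0)) => E.x n a) (fun n a => E.y n a) hB1 (fun a => a.1 ∈ E.Bx D) d m' Dt
    (fun n i => if i = d then log (q n) else 0) (fun n j => if j = i0 then 0 else n) ε1 hε1 (by
      filter_upwards [es ε1 hε1, hlq, hq] with n b1 b2 b3 j
      have n0 : (0 : ℝ) ≤ n := by positivity
      refine ⟨by split_ifs <;> simp [b2.1], ?_, by split_ifs <;> simp, by split_ifs <;> simp, ?_, ?_⟩
      · split_ifs
        · exact b2.2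
        · positivity
      · split_ifs with e
        · rw [e, exp_sub, exp_log (by exact_mod_cast b3.1)]
          exact (b1 d).2.1.trans_eq (by ring)
        · rw [sub_zero]
          exact (b1 j).1
      · rw [hDt]
        split_ifs with e
        · rw [sub_zero]
          exact_mod_cast (b1 j).2.2.2
        · rw [sub_eq_neg_add (ε1 * n), exp_add, ← mul_assoc, mul_comm _ (exp (-n))]
          exact_mod_cast (b1 j).2.2.1)
  obtain ⟨v, hv⟩ : ∃ v : E.Bx (D + w0) × I → (ℕ → ℚ) ⧸ nullSeq U,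
    ∀ y, v y = cls U z (y.1, .inl y.2) := ⟨_, fun _ => rfl⟩
  have hr' : ∀ᶠ n in (U : Filter ℕ), ∀ i,
      ∑ l, Z n * γ n l * ξ n l i = Z n * (m' n i / un (p n i)) := by
    filter_upwards [hr] with n hn i
    simp only [← hn, Finset.mul_sum, mul_assoc]
  have hv1 : ∀ y, v y = (nullSeq U).mkQ fun n => E.X y.1 n * ∑ l, Z n * γ n l * ξ n l y.2 := by
    intro y
    rw [hv]
    refine (mk_eq_iff _ _ _).2 ?_
    filter_upwards [hz1, hr'] with n b1 b2
    rw [(b1 _ _).1, b2, Amb.X]
    ring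
  obtain ⟨ν, hν, hν1⟩ := E.bases ξ w0 D hw (fun n l => Z n * γ n l) (fun y => by
    filter_upwards [hγ y] with n b1 b2
    refine b1 (mul_left_cancel₀ (hZ n) ?_)
    simpa only [Finset.mul_sum _ _ (Z n), mul_assoc, mul_zero] using b2) v hv1
  generalize E.G ξ w0 = G at *
  obtain ⟨cI, hcI⟩ : ∃ cI : I ⊕ I → I → ℚ, cI =
    Sum.elim (fun i => Pi.single i 1) fun j => Pi.single j 1 - Pi.single d 1 := ⟨_, rfl⟩
  obtain ⟨c, hc⟩ : ∃ c : E.Bx (D + w0) × (I ⊕ I) → I → ℚ, ∀ y, c y =
    if y.1.1 ∈ E.Bx D then cI y.2 else y.2.elim (fun i => Pi.single i 1) fun _ => 0 :=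
    ⟨_, fun _ => rfl⟩
  have hbd : ∀ a, ∃ Q : Finset I, ⊤ ≤ span ℚ (Set.range fun τ : Q => (Gr ν v a).mkQ
      (Pi.single τ.1 1)) ∧ Q.card ≤ finrank ℚ ((I → ℚ) ⧸ Gr ν v a) := by
    intro a
    obtain ⟨b, -, -, b1, b2⟩ := exists_linearIndepOn_extension
      (linearIndepOn_empty ℚ fun i : I => (Gr ν v a).mkQ (Pi.single i 1))
      (Set.empty_subset (Set.univ : Set I))
    lift b to Finset I using b.toFinite
    refine ⟨b, ?_, by simpa using LinearIndependent.fintype_card_le_finrank b2⟩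
    rw [Set.image_univ, ← span_le, Set.image_eq_range] at b1
    refine le_trans ?_ b1
    rw [show (fun i => (Gr ν v a).mkQ (Pi.single i 1)) = (Gr ν v a).mkQ ∘ Pi.basisFun ℚ I from
      funext fun i => by simp, Set.range_comp, span_image, Basis.span_eq, Submodule.map_top,
      range_mkQ]
  choose Bd hb1 hb2 using hbd
  obtain ⟨Q, hQ⟩ : ∃ Q : (Fin N → I ⊕ I) → E.Bx (D + w0) → Finset (I ⊕ I), ∀ τ a, Q τ a =
    if a.1 ∈ E.Bx D then Finset.univ.image τ else (Bd a).image .inl := ⟨_, fun _ _ => rfl⟩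
  have mk : ∀ τ, ⊤ ≤ span ℚ (Set.range fun l => G.mkQ (cI (τ l))) →
      IsB (cls U z) (Finset.univ.filter fun y => y.2 ∈ Q τ y.1) := by
    intro τ hτ
    refine level ν hν v (cls U z) c ?_ (Q τ) (fun a => ?_) fun a => ?_
    · rintro ⟨a, i | j⟩
      · have : c (a, .inl i) = Pi.single i 1 := by simp [hc, hcI]
        simp only [this, Fintype.linearCombination_apply_single, one_smul, hv, sub_self]
        exact zero_mem _
      · by_cases ha : a.1 ∈ E.Bx D
        · have e1 : c (a, .inr j) = Pi.single j 1 - Pi.single d 1 := by simp [hc, hcI, ha]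
          rw [e1, map_sub, Fintype.linearCombination_apply_single,
            Fintype.linearCombination_apply_single, one_smul, one_smul, hv1, hv1, cls, ← map_sub,
            ← map_sub]
          by_cases hj : j = i0
          · convert zero_mem (low ν v a)
            rw [← map_zero (nullSeq U).mkQ, mk_eq_iff]
            filter_upwards [hz1, hr'] with n b1 b2
            have := (upos n i0).ne'
            have := (upos n d).ne'
            simp only [Pi.sub_apply, (b1 _ _).2 ha, b2, hDt, hj, if_true, Pi.zero_apply, Amb.X]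
            push_cast
            field_simp
            ring
          · have b0 := add_mem (add_mem
              ((hν1 a ha).2 j _ (neg_mem (rat d hne.symm))) ((hν1 a ha).2 d _ (rat j hj)))
              ((hν1 a ha).2 i0 _ (sub_mem (rat d hne.symm) (rat j hj)))
            simp only [← map_add] at b0
            convert b0 using 1
            rw [mk_eq_iff]
            filter_upwards [hz1, hr'] with n b1 b2
            have := (upos n i0).ne'
            have := (upos n d).ne'
            have := (upos n j).ne'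
            simp only [Pi.sub_apply, Pi.add_apply, Pi.neg_apply, (b1 _ _).2 ha, b2, hDt, if_neg hj,
              Amb.X]
            push_cast
            field_simp
            ring
        · simp only [hc, if_neg ha, Sum.elim_inr, map_zero, sub_zero, cls, hz0 _ _ _ ha,
            Int.cast_zero]
          exact (map_zero (nullSeq U).mkQ).symm ▸ zero_mem _
    · by_cases ha : a.1 ∈ E.Bx D
      · rw [(hν1 a ha).1]
        refine hτ.trans (span_mono ?_)
        rintro _ ⟨l, rfl⟩
        exact ⟨⟨τ l, by simp [hQ, ha]⟩, by simp [hc, ha]⟩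
      · refine (hb1 a).trans (span_mono ?_)
        rintro _ ⟨l, rfl⟩
        exact ⟨⟨.inl l, by simp [hQ, ha]⟩, by simp [hc, ha]⟩
    · by_cases ha : a.1 ∈ E.Bx D
      · rw [(hν1 a ha).1, ← hN]
        simpa [hQ, ha] using Finset.card_image_le (s := Finset.univ) (f := τ)
      · simpa [hQ, ha, Finset.card_image_of_injective _ Sum.inl_injective] using hb2 a
  obtain ⟨τ1, hτ1⟩ : ∃ τ1 : Fin N → I ⊕ I, ∀ l, τ1 l =
    if l = f d then .inl d else .inr (s0 l) := ⟨_, fun _ => rfl⟩
  have key1 := key (ε / 4) (by positivity) _ _ _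
    (mk τ1 (by
      have d1 : G.mkQ (Pi.single d 1) ∈ span ℚ (Set.range fun l => G.mkQ (cI (τ1 l))) :=
        subset_span ⟨f d, by simp [hτ1, hcI]⟩
      refine (f2 s0 h0).trans (span_le.2 (Set.range_subset_iff.2 fun l => ?_))
      by_cases e : l = f d
      · simpa [e, hs0] using d1
      · have d2 := add_mem (subset_span (R := ℚ)
          (s := Set.range fun l => G.mkQ (cI (τ1 l))) ⟨l, rfl⟩) d1
        simpa [hτ1, hcI, e] using d2))
    (mk (fun l => .inl (s2 l)) (by simpa only [hcI, Sum.elim_inl] using f2 s2 h2))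
    (mk (fun l => .inl (s3 l)) (by simpa only [hcI, Sum.elim_inl] using f2 s3 h3))
  filter_upwards [key1, hK, hlq, hud', hU (poly_le c0 (ε / 4) (by positivity))] with
    n b0 b3 b6 b9 b10
  have n0 : (0 : ℝ) ≤ n := by positivity
  simp only [sum_lev] at b0
  obtain ⟨Φ, hΦ⟩ : ∃ Φ, Φ = ∑ l, (lg (p n (s0 l)) - (p n (s2 l)).1 * log 2 -
    (p n (s3 l)).2 * log 3) + (N - 2) * n + log (q n) - lg (p n d) := ⟨_, rfl⟩
  have inj : ∀ s : Fin N → I, (∀ l, f (s l) = l) → Function.Injective s :=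
    fun s h => Function.LeftInverse.injective h
  rw [← sub_pos, ← Finset.sum_add_distrib, add_sub_right_comm, ← Finset.sum_sub_distrib] at b0
  have hΦ1 := count (Φ := Φ) (r := N * ε1 * n) (c := Fintype.card I * (2 * K + ε1) * n)
    (fun a ha => by simpa using E.add ha (E.zero w0)) ⟨0, E.zero D⟩ _ hD (by positivity)
    (by positivity) (by rw [← mul_assoc]; gcongr) (by gcongr) (fun a => ?_) b0
  · have d1 : lg (p n (s1 (f d))) ≤ lg (p n d) + ε / 4 * n := by
      rw [← exp_le_exp, exp_add, ← un_exp, ← un_exp, mul_comm]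
      have c1 : (0 : ℝ) ≤ c0 := by exact_mod_cast zero_le_one.trans hc0
      refine (b9 _).trans (mul_le_mul_of_nonneg_right (le_trans ?_ b10) (by positivity))
      exact le_mul_of_one_le_right c1 (by nlinarith)
    have d2 : ∑ l, lg (p n (s1 l)) = ∑ l, lg (p n (s0 l)) + lg (p n (s1 (f d))) - lg (p n d) := by
      rw [← Finset.add_sum_erase _ _ (Finset.mem_univ (f d)),
        ← Finset.add_sum_erase _ _ (Finset.mem_univ (f d)),
        Finset.sum_congr rfl (g := fun l => lg (p n (s0 l))) fun l hl => by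
          simp [hs0, (Finset.mem_erase.1 hl).1]]
      simp only [hs0, Function.update_self]
      ring
    simp only [Finset.sum_sub_distrib] at hΦ ⊢
    linarith
  by_cases ha : a.1 ∈ E.Bx D
  · simp only [hQ, if_pos ha]
    rw [Finset.sum_image (g := fun l => Sum.inl (s2 l)) (Sum.inl_injective.comp (inj s2 h2)).injOn,
      Finset.sum_image (g := fun l => Sum.inl (s3 l)) (Sum.inl_injective.comp (inj s3 h3)).injOn,
      Finset.sum_image (by
        intro l _ l' _ e
        simp only [hτ1] at e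
        split_ifs at e with c1 c2 c2
        · rw [c1, c2]
        · exact inj s0 h0 (Sum.inr.inj e))]
    have d0 : f i0 ≠ f d := fun e => hne (f3 d e.symm).symm
    have d1 : ∀ l, (τ1 l).elim (fun i => if i = d then log (q n) else 0)
        (fun j => lg (p n j) + if j = i0 then 0 else (n : ℝ)) = lg (p n (s0 l)) + n -
        (if l = f d then lg (p n d) - log (q n) + n else 0) - if l = f i0 then (n : ℝ) else 0 := by
      intro l
      by_cases c1 : l = f d
      · simp only [hτ1, c1, if_true, Sum.elim_inl, hs0, Function.update_self, if_neg d0.symm]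
        ring
      · by_cases c2 : l = f i0
        · simp only [hτ1, if_neg c1, Sum.elim_inr, if_pos c2, if_pos (f3 _ ((h0 l).trans c2))]
          ring
        · have c3 : s0 l ≠ i0 := fun e => c2 (by rw [← e, h0])
          simp only [hτ1, if_neg c1, Sum.elim_inr, if_neg c2, if_neg c3]
          ring
    simp only [d1, hΦ, Finset.sum_add_distrib, Finset.sum_sub_distrib, Sum.elim_inl,
      Finset.sum_ite_eq', Finset.mem_univ, if_true, Finset.sum_const, Finset.card_univ,
      Fintype.card_fin, nsmul_eq_mul]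
    exact le_of_eq (by ring)
  · simp only [hQ, if_neg ha, Finset.sum_image Sum.inl_injective.injOn, ← Finset.sum_add_distrib,
      ← Finset.sum_sub_distrib, Sum.elim_inl]
    refine (Finset.sum_le_card_nsmul _ _ ((2 * K + ε1) * n) fun i _ => ?_).trans ?_
    · have d1 := (lg_le (b3 i).1 (b3 i).2).2
      simp only [lg] at d1
      push_cast at d1 ⊢
      split_ifs <;> linarith [b6.1]
    · rw [nsmul_eq_mul, mul_assoc]
      gcongr
      exact Finset.card_le_univ _

end Pool.Agent.MP_60c1b5_an.H72
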