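import Mathlib
import Pool.Agent.MP_60c1b5_an.H72.Main
import Pool.Agent.MP_089fcb_co.H21.TwoLog

set_option autoImplicit false

/-!
Many points `u x` in a short arc force the arc to sit near a rational of small height.
-/

namespace Pool.Agent.MP_60c1b5_an.H72

open Real Filter Topology Pool.Agent.MP_60c1b5_an.H73

/-- `β` is very close to a rational of small denominator -/
def Ap (δ : ℝ) (n : ℕ) (β : ℝ) : Prop :=
  ∃ (q : ℕ) (k : ℤ), 1 ≤ q ∧ (q : ℝ) ≤ exp (δ * n) ∧ |q * β - k| ≤ exp (-((1 - δ) * n))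

theorem gap (K : ℕ) (ε : ℝ) (hε : 0 < ε) : ∀ᶠ n : ℕ in atTop, ∀ p p' : ℕ × ℕ, p.1 ≤ K * n →
    p.2 ≤ K * n → p'.1 ≤ K * n → p'.2 ≤ K * n → p ≠ p' →
    (un p : ℝ) + un p' ≤ |(un p : ℝ) - un p'| * exp (ε * n) := by
  have hc : (0 : ℝ) < (2 * K + 10000) * exp 3 := by positivity
  have h := (isLittleO_pow_log_id_atTop (n := 2)).comp_tendsto
    (tendsto_natCast_atTop_atTop.const_mul_atTop hc)
  filter_upwards [h.def (c := ε / 2 / 66 / ((2 * K + 10000) * exp 3)) (by positivity),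
    eventually_ge_atTop 1, (tendsto_natCast_atTop_atTop.const_mul_atTop (half_pos hε)).eventually
      (eventually_ge_atTop 2)] with n h1 h2 h3
  have n1 : (1 : ℝ) ≤ n := by exact_mod_cast h2
  have l2 : 1 / 2 ≤ log 2 := by linarith [log_two_gt_d9]
  have l3 : log 2 ≤ log 3 := log_le_log two_pos (by norm_num)
  have l4 : log 2 ≤ 1 := by linarith [log_two_lt_d9]
  have l5 : log 3 ≤ 2 := by linarith [log_le_sub_one_of_pos three_pos]
  have hK : (0 : ℝ) ≤ K := by positivity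
  have key : ∀ p p' : ℕ × ℕ, p.1 ≤ K * n → p.2 ≤ K * n → p'.1 ≤ K * n → p'.2 ≤ K * n → p ≠ p' →
      exp (-(ε / 2 * n)) ≤ |lg p - lg p'| := by
    intro p p' a1 a2 a3 a4 hne
    have b : ∀ k l : ℕ, k ≤ K * n → l ≤ K * n → ∀ r : ℝ, 1 / 2 ≤ r →
        (((k : ℤ) - l).natAbs : ℝ) ≤ (2 * K + 10000) * n * r := by
      intro k l c1 c2 r hr
      have : ((((k : ℤ) - l).natAbs : ℕ) : ℝ) ≤ (K * n : ℕ) := Nat.cast_le.2 (by omega)
      rw [Nat.cast_mul] at this
      nlinarith [mul_le_mul_of_nonneg_left hr (by positivity : (0 : ℝ) ≤ (2 * K + 10000) * n)]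
    have h4 := Pool.Agent.MP_089fcb_co.H21.two_log 2 3 ((p.2 : ℤ) - p'.2).natAbs
      ((p.1 : ℤ) - p'.1).natAbs le_rfl (by norm_num) (fun e => by
        have := un_inj (a₁ := (((p.1 : ℤ) - p'.1).natAbs, 0)) (a₂ := (0, ((p.2 : ℤ) - p'.2).natAbs))
          (by simpa [un] using e)
        simp only [Prod.mk.injEq] at this
        exact hne (Prod.ext (by omega) (by omega))) ((2 * K + 10000) * n) (by nlinarith)
      (b _ _ a2 a4 _ l2) (b _ _ a1 a3 _ (l2.trans l3))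
    refine le_trans (exp_le_exp.2 ?_) (h4.trans ?_)
    · simp only [Function.comp, id, norm_eq_abs, abs_pow, sq_abs] at h1
      rw [abs_of_pos (by positivity), mul_right_comm, log_mul (by positivity) (by positivity),
        log_exp, mul_right_comm, ← mul_assoc, div_mul_cancel₀ _ hc.ne'] at h1
      have : log (2 : ℕ) * log (3 : ℕ) ≤ 2 := by
        push_cast
        nlinarith
      have h5 := mul_le_mul_of_nonneg_left this (sq_nonneg (log ((2 * K + 10000) * n) + 3))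
      rw [mul_assoc 33]
      generalize (log ((2 * K + 10000) * n) + 3) ^ 2 = X at *
      generalize log (2 : ℕ) * log (3 : ℕ) = Y at *
      linarith
    · have e : lg p - lg p' = (p.1 - p'.1) * log 2 - -((p.2 - p'.2) * log 3) := by
        simp only [lg]
        ring
      rw [e]
      refine le_trans (le_of_eq ?_) (abs_abs_sub_abs_le_abs_sub _ _)
      rw [abs_neg, abs_mul, abs_mul, abs_of_nonneg (by linarith : 0 ≤ log 2),
        abs_of_nonneg (by linarith : 0 ≤ log 3), Nat.cast_natAbs, Nat.cast_natAbs]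
      push_cast
      rfl
  have fin : ∀ a b : ℝ, exp (-(ε / 2 * n)) ≤ a - b → exp a + exp b ≤ (exp a - exp b) * exp (ε * n) := by
    intro a b hab
    have c1 := add_one_le_exp (a - b)
    have c2 := add_one_le_exp (ε / 2 * n)
    have c3 : exp (ε * n) = exp (ε / 2 * n) * exp (ε / 2 * n) := by
      rw [← exp_add]
      ring_nf
    have c4 : exp a = exp (a - b) * exp b := by rw [← exp_add, sub_add_cancel]
    have c5 : 1 ≤ (exp (a - b) - 1) * exp (ε / 2 * n) := by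
      rw [exp_neg] at hab
      rw [← inv_le_iff_one_le_mul₀ (exp_pos _)]
      linarith
    have c6 := mul_le_mul_of_nonneg_right c5 (exp_pos b).le
    have c7 : 0 ≤ exp a - exp b := by nlinarith [exp_pos b, exp_pos (-(ε / 2 * n))]
    have c8 : 0 ≤ (exp a - exp b) * exp (ε / 2 * n) := by positivity
    have c9 : exp b ≤ (exp a - exp b) * exp (ε / 2 * n) := by
      rw [c4]
      linarith
    rw [c3, ← mul_assoc]
    nlinarith [mul_le_mul_of_nonneg_left (show 3 ≤ exp (ε / 2 * n) by linarith) c8,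
      mul_le_mul_of_nonneg_left (show 1 ≤ exp (ε / 2 * n) by linarith) c7]
  intro p p' a1 a2 a3 a4 hne
  rw [un_exp, un_exp]
  rcases le_abs'.1 (key p p' a1 a2 a3 a4 hne) with h | h
  · rw [add_comm, abs_sub_comm]
    exact (fin _ _ (by linarith)).trans (by gcongr; exact le_abs_self _)
  · exact (fin _ _ h).trans (by gcongr; exact le_abs_self _)

theorem sepd {U : Ultrafilter ℕ} (hU : (U : Filter ℕ) ≤ atTop) (K L : ℕ) (hL : 5 ≤ L) (δ : ℝ)
    (hδ : 4 ≤ δ * L) (x β : ℕ → ℝ) (r : ℕ) : ∀ (I : Type) [Fintype I] [Nonempty I],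
    Fintype.card I = r → ∀ (p : ℕ → I → ℕ × ℕ) (m : ℕ → I → ℤ),
    (∀ᶠ n in (U : Filter ℕ), ∀ i, (p n i).1 ≤ K * n ∧ (p n i).2 ≤ K * n) →
    (∀ i j, i ≠ j → ∀ C : ℤ, ∀ᶠ n in (U : Filter ℕ),
      C < |((p n i).1 : ℤ) - (p n j).1| + |((p n i).2 : ℤ) - (p n j).2|) →
    (∀ᶠ n : ℕ in (U : Filter ℕ), ∀ i, |un (p n i) * x n - β n - m n i| ≤ exp (-n)) →
    (∀ᶠ n : ℕ in (U : Filter ℕ), ∀ i1 i2 i3, 2 * n + L * (lg (p n i1) - (p n i2).1 * log 2 -
      (p n i3).2 * log 3) ≤ r * n) → ∀ᶠ n in (U : Filter ℕ), Ap δ n (β n) := by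
  classical
  induction r using Nat.strong_induction_on with
  | _ r ih =>
  intro I _ _ hr p m hK hsep he hg
  have L0 : (5 : ℝ) ≤ L := by exact_mod_cast hL
  have δ0 : 0 < δ := by
    by_contra h
    nlinarith
  have n1 : ∀ᶠ n : ℕ in (U : Filter ℕ), (1 : ℝ) ≤ n :=
    hU ((eventually_ge_atTop 1).mono fun n hn => by exact_mod_cast hn)
  have : Nontrivial I := by
    obtain ⟨n, h1, h2⟩ := (hg.and n1).exists
    obtain ⟨i⟩ := ‹Nonempty I›
    have h3 := h1 i i i
    rw [lg, add_sub_cancel_left, sub_self, mul_zero, add_zero] at h3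
    have h4 : (2 : ℝ) ≤ r := le_of_mul_le_mul_right h3 (by linarith)
    rw [← Fintype.one_lt_card_iff_nontrivial, hr]
    exact_mod_cast h4
  obtain ⟨q, hq⟩ : ∃ q : ℕ → ℕ, ∀ n, q n = Finset.univ.gcd fun ij : I × I =>
    ((un (p n ij.1) : ℤ) - un (p n ij.2)).natAbs := ⟨_, fun _ => rfl⟩
  have hne : ∀ᶠ n in (U : Filter ℕ), ∀ i j, i ≠ j → p n i ≠ p n j := by
    simp only [eventually_all]
    intro i j h
    filter_upwards [hsep i j h 0] with n hn e
    simp [e] at hn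
  have qd : ∀ n i j, (q n : ℤ) ∣ (un (p n i) : ℤ) - un (p n j) := fun n i j => by
    rw [Int.natCast_dvd, hq]
    exact Finset.gcd_dvd (Finset.mem_univ (i, j))
  have q0 : ∀ᶠ n in (U : Filter ℕ), 0 < q n := by
    obtain ⟨i, j, h⟩ := exists_pair_ne I
    filter_upwards [hne] with n hn
    refine Nat.pos_of_ne_zero fun e => hn i j h (un_inj ?_)
    have := qd n i j
    rw [e, Nat.cast_zero, zero_dvd_iff] at this
    omega
  obtain ⟨N, f, i0, d, h0d, fs, f3, two, ineq⟩ := part hU K p hK hsep q m x β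
    (q0.mono fun n hn => ⟨hn, fun i j => (Nat.modEq_iff_dvd).2 (qd n j i)⟩) he
  by_contra hcon
  have cl : ∀ k, ∃ s : I × I × I, f s.1 = k ∧ f s.2.1 = k ∧ f s.2.2 = k ∧
      ∀ᶠ n : ℕ in (U : Filter ℕ), ((Fintype.card {i // f i = k} : ℝ) - 2 +
        if k = f i0 then 1 else 0) * n ≤ L * (lg (p n s.1) - (p n s.2.1).1 * log 2 -
          (p n s.2.2).2 * log 3) := by
    intro k
    by_cases e : k = f i0
    · refine ⟨(i0, i0, i0), e.symm, e.symm, e.symm, Eventually.of_forall fun n => ?_⟩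
      have : Fintype.card {i // f i = k} = 1 :=
        Fintype.card_eq_one_iff.2 ⟨⟨i0, e.symm⟩, fun j => Subtype.ext (f3 _ (j.2.trans e))⟩
      rw [this, if_pos e, lg]
      simp only [Nat.cast_one]
      linarith
    have : Nonempty {i // f i = k} := ⟨⟨_, (fs k).choose_spec⟩⟩
    have h1 := mt (ih _ (hr ▸ Fintype.card_subtype_lt (x := i0) (Ne.symm e)) {i // f i = k} rfl
      (fun n i => p n i) (fun n i => m n i) (hK.mono fun n hn i => hn i)
      (fun i j h => hsep i j fun e => h (Subtype.ext e)) (he.mono fun n hn i => hn i)) hcon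
    rw [← Ultrafilter.eventually_not] at h1
    obtain ⟨s, hs⟩ := Ultrafilter.eventually_exists_iff.1 (h1.mono (q := fun n : ℕ =>
      ∃ s : {i // f i = k} × {i // f i = k} × {i // f i = k}, (Fintype.card {i // f i = k} : ℝ) * n <
        2 * n + L * (lg (p n s.1) - (p n s.2.1).1 * log 2 - (p n s.2.2).2 * log 3)) fun n hn => by
      push Not at hn
      obtain ⟨a, b, c, h⟩ := hn
      exact ⟨(a, b, c), h⟩)
    refine ⟨(s.1, s.2.1, s.2.2), s.1.2, s.2.1.2, s.2.2.2, hs.mono fun n hn => ?_⟩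
    rw [if_neg e]
    linarith
  choose s c1 c2 c3 c4 using cl
  have N2 : 2 ≤ N := by
    have a1 := (f i0).2
    have a2 := (f d).2
    have a3 : (f d : ℕ) ≠ f i0 := fun e => h0d (f3 d (Fin.ext e)).symm
    omega
  have main : ∀ᶠ n : ℕ in (U : Filter ℕ), ∃ g q' : ℕ, q n = g * q' ∧ g ∣ un (p n i0) ∧
      (L - 2) * (N - 2) * n + L * log q' ≤ 2 * n := by
    filter_upwards [ineq (1 / L) (by positivity) _ _ _ c1 c2 c3, eventually_all.2 c4, hg, q0] with
      n b1 b2 b3 b4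
    obtain ⟨i2, a2⟩ := Finite.exists_min fun i => (p n i).1
    obtain ⟨i3, a3⟩ := Finite.exists_min fun i => (p n i).2
    have gd : ∀ i, un ((p n i2).1, (p n i3).2) ∣ un (p n i) := fun i =>
      mul_dvd_mul (pow_dvd_pow _ (a2 i)) (pow_dvd_pow _ (a3 i))
    obtain ⟨q', hq'⟩ : un ((p n i2).1, (p n i3).2) ∣ q n := by
      rw [hq]
      refine Finset.dvd_gcd fun ij _ => Int.natCast_dvd.1 (dvd_sub ?_ ?_) <;>
        exact_mod_cast gd _
    refine ⟨_, q', hq', gd i0, ?_⟩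
    have q1 : (0 : ℝ) < q' := by
      rw [hq'] at b4
      exact_mod_cast Nat.pos_of_mul_pos_left b4
    have b5 := Finset.sum_le_sum fun k (_ : k ∈ Finset.univ) => b2 k
    have b6 : ∑ k, (Fintype.card {i // f i = k} : ℝ) = r := by
      rw [← Nat.cast_sum, ← Fintype.card_sigma, Fintype.card_congr (Equiv.sigmaFiberEquiv f), hr]
    rw [← Finset.mul_sum, ← Finset.sum_mul, Finset.sum_add_distrib, Finset.sum_sub_distrib, b6]
      at b5
    simp only [Finset.sum_const, Finset.card_univ, Fintype.card_fin, nsmul_eq_mul,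
      Finset.sum_ite_eq', Finset.mem_univ, if_true] at b5
    rw [hq', Nat.cast_mul, log_mul (by exact_mod_cast (un_pos _).ne') q1.ne', un_exp, log_exp]
      at b1
    have b7 := mul_le_mul_of_nonneg_left b1 (by linarith : (0 : ℝ) ≤ L)
    have b8 := b3 d i2 i3
    have b9 : L * (1 / L * n : ℝ) = n := by field_simp
    simp only [lg] at b7 b8 b5
    linarith
  have N3 : N = 2 := by
    obtain ⟨n, ⟨g, q', -, -, h1⟩, h2⟩ := (main.and n1).exists
    by_contra h
    have h3 : (3 : ℝ) ≤ N := by exact_mod_cast (by omega)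
    have h4 : 3 * 1 ≤ ((L : ℝ) - 2) * (N - 2) := by gcongr <;> linarith
    nlinarith [mul_nonneg (by linarith : (0 : ℝ) ≤ L) (log_natCast_nonneg q')]
  refine hcon ?_
  filter_upwards [main, two N3, he, hne, hK, q0, hU (gap K (δ / 2) (half_pos δ0)), n1] with
    n ⟨g, q', b1, ⟨v, b2⟩, b3⟩ b4 b5 b6 b7 b8 b9 b10
  have q1 : 0 < q' := by
    rw [b1] at b8
    exact Nat.pos_of_mul_pos_left b8
  have q2 : (q' : ℝ) ≤ exp (δ / 2 * n) := by
    rw [← log_le_iff_le_exp (by exact_mod_cast q1)]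
    refine le_of_mul_le_mul_left ?_ (by linarith : (0 : ℝ) < L)
    rw [N3] at b3
    push_cast at b3
    nlinarith
  obtain ⟨κ, hκ⟩ : (un (p n d) : ℤ) - un (p n i0) ∣ (m n d - m n i0) * q n := by
    rw [← Int.natAbs_dvd_natAbs, Int.natAbs_mul, Int.natAbs_natCast, hq, ← normalize_eq
      (m n d - m n i0).natAbs, ← Finset.gcd_mul_left]
    refine Finset.dvd_gcd fun ij _ => ?_
    rw [← Int.natAbs_mul, Int.natAbs_dvd_natAbs]
    refine ⟨m n ij.1 - m n ij.2, Int.cast_injective (α := ℚ) ?_⟩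
    push_cast
    linear_combination b4 ij.2 - b4 ij.1
  refine ⟨q', κ * v - q' * m n i0, q1, q2.trans (exp_le_exp.2 (by nlinarith)), ?_⟩
  have w0 : 0 < |(un (p n d) : ℝ) - un (p n i0)| := by
    rw [abs_pos, sub_ne_zero]
    exact_mod_cast un_inj.ne (b6 d i0 h0d.symm)
  refine le_of_mul_le_mul_left ?_ w0
  have e1 : ((un (p n d) : ℝ) - un (p n i0)) * (q' * β n - (κ * v - q' * m n i0 : ℤ)) =
      q' * (un (p n i0) * (un (p n d) * x n - β n - m n d) -
        un (p n d) * (un (p n i0) * x n - β n - m n i0)) := by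
    have a1 := congrArg (fun z : ℤ => (z : ℝ)) hκ
    have a2 := congrArg (fun z : ℕ => (z : ℝ)) b2
    rw [b1] at a1
    push_cast at a1 a2 ⊢
    linear_combination v * a1 + q' * (m n d - m n i0) * a2
  have e2 : exp (-((1 - δ) * n)) = exp (δ / 2 * n) * (exp (δ / 2 * n) * exp (-n)) := by
    rw [← exp_add, ← exp_add]
    ring_nf
  rw [← abs_mul, e1, abs_mul, Nat.abs_cast, e2, mul_left_comm, ← mul_assoc |_ - _|]
  refine mul_le_mul q2 ((abs_sub _ _).trans (le_trans ?_ (mul_le_mul_of_nonneg_right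
    (b9 _ _ (b7 d).1 (b7 d).2 (b7 i0).1 (b7 i0).2 (b6 d i0 h0d.symm)) (exp_pos _).le)))
    (abs_nonneg _) (exp_pos _).le
  rw [abs_mul, abs_mul, Nat.abs_cast, Nat.abs_cast, add_mul, add_comm]
  gcongr
  exacts [b5 i0, b5 d]

theorem pts (δ : ℝ) (hδ : 0 < δ) : ∃ L : ℕ, ∀ K : ℕ, ∀ᶠ n : ℕ in atTop, ∀ (x β : ℝ)
    (S : Finset (ℕ × ℕ)), (∀ p ∈ S, p.1 ≤ K * n ∧ p.2 ≤ K * n ∧
      ∃ m : ℤ, |un p * x - β - m| ≤ exp (-n)) → L * (K + 1) ≤ S.card → Ap δ n β := by
  obtain ⟨L, hL⟩ := exists_nat_ge (4 / δ)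
  refine ⟨2 * (L + 5), fun K => ?_⟩
  by_contra hcon
  obtain ⟨U, hU⟩ := Ultrafilter.exists_le (atTop ⊓ 𝓟 {n : ℕ | _})
    (h := frequently_iff_neBot.1 (not_eventually.1 hcon))
  obtain ⟨hU, hb⟩ := le_inf_iff.1 hU
  have hb1 : ∀ᶠ n : ℕ in (U : Filter ℕ), ∃ (x β : ℝ) (p : Fin (2 * (L + 5) * (K + 1)) → ℕ × ℕ)
      (m : Fin (2 * (L + 5) * (K + 1)) → ℤ), Function.Injective p ∧ ¬Ap δ n β ∧
      ∀ i, ((p i).1 ≤ K * n ∧ (p i).2 ≤ K * n) ∧ |un (p i) * x - β - m i| ≤ exp (-n) := by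
    filter_upwards [le_principal_iff.1 hb] with n hn
    push Not at hn
    obtain ⟨x, β, S, h1, h2, h3⟩ := hn
    obtain ⟨p, hp⟩ := Function.Embedding.exists_of_card_le_finset
      (α := Fin (2 * (L + 5) * (K + 1))) (s := S) (by simpa using h2)
    choose m hm using fun i => (h1 (p i) (hp ⟨i, rfl⟩)).2.2
    exact ⟨x, β, p, m, p.injective, h3, fun i =>
      ⟨⟨(h1 _ (hp ⟨i, rfl⟩)).1, (h1 _ (hp ⟨i, rfl⟩)).2.1⟩, hm i⟩⟩
  obtain ⟨x, hx⟩ := hb1.choice
  obtain ⟨β, hβ⟩ := hx.choice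
  obtain ⟨p, hp⟩ := hβ.choice
  obtain ⟨m, hm⟩ := hp.choice
  suffices h : ∀ᶠ n in (U : Filter ℕ), Ap δ n (β n) by
    obtain ⟨n, h1, h2⟩ := (h.and hm).exists
    exact h2.2.1 h1
  by_cases hs : ∀ i j, i ≠ j → ∀ C : ℤ, ∀ᶠ n in (U : Filter ℕ),
      C < |((p n i).1 : ℤ) - (p n j).1| + |((p n i).2 : ℤ) - (p n j).2|
  · have : Nonempty (Fin (2 * (L + 5) * (K + 1))) := ⟨⟨0, by positivity⟩⟩
    refine sepd hU K (L + 5) (by omega) δ (by
      rw [div_le_iff₀ hδ] at hL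
      push_cast
      nlinarith) x β _ _ (Fintype.card_fin _) p m (hm.mono fun n hn i => (hn.2.2 i).1) hs
      (hm.mono fun n hn i => (hn.2.2 i).2) (hm.mono fun n hn i1 i2 i3 => ?_)
    have a1 := (lg_le (hn.2.2 i1).1.1 (hn.2.2 i1).1.2).2
    have a2 : 0 ≤ (p n i2).1 * log 2 := by positivity
    have a3 : 0 ≤ (p n i3).2 * log 3 := by positivity
    have a4 := mul_le_mul_of_nonneg_left (show lg (p n i1) - (p n i2).1 * log 2 -
      (p n i3).2 * log 3 ≤ 2 * (K * n : ℕ) by linarith) (Nat.cast_nonneg (L + 5))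
    have a5 : (0 : ℝ) ≤ L * n := by positivity
    have a6 : (0 : ℝ) ≤ n := by positivity
    push_cast at a4 ⊢
    linarith
  push Not at hs
  obtain ⟨i, j, hij, C, hC⟩ := hs
  filter_upwards [hC, hm, hU (poly_le (2 * 6 ^ C.toNat) δ hδ)] with n b1 ⟨b2, _, b3⟩ b4
  obtain ⟨v, hv⟩ : ∃ v : ℕ × ℕ, v = ((p n i).1 - (p n j).1, (p n i).2 - (p n j).2) := ⟨_, rfl⟩
  obtain ⟨w, hw⟩ : ∃ w : ℕ × ℕ, w = ((p n j).1 - (p n i).1, (p n j).2 - (p n i).2) := ⟨_, rfl⟩
  have a1 := abs_nonneg (((p n i).1 : ℤ) - (p n j).1)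
  have a2 := abs_nonneg (((p n i).2 : ℤ) - (p n j).2)
  have a3 := abs_le.1 (show |((p n i).1 : ℤ) - (p n j).1| ≤ C by omega)
  have a4 := abs_le.1 (show |((p n i).2 : ℤ) - (p n j).2| ≤ C by omega)
  have v1 : (un v : ℝ) ≤ 6 ^ C.toNat := by
    exact_mod_cast un_le (by simp only [hv]; omega) (by simp only [hv]; omega)
  have w1 : (un w : ℝ) ≤ 6 ^ C.toNat := by
    exact_mod_cast un_le (by simp only [hw]; omega) (by simp only [hw]; omega)
  have e : un w * un (p n i) = un v * un (p n j) := by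
    simp only [un, hv, hw]
    rw [mul_mul_mul_comm, mul_mul_mul_comm (2 ^ _) (3 ^ _) (2 ^ (p n j).1), ← pow_add, ← pow_add,
      ← pow_add, ← pow_add]
    congr 2 <;> omega
  have vw : un v ≠ un w := by
    intro h
    have := un_inj h
    simp only [hv, hw, Prod.mk.injEq] at this
    exact hij (b2 (Prod.ext (by omega) (by omega)))
  have b5 : 2 * 6 ^ C.toNat ≤ exp (δ * n) :=
    le_trans (le_mul_of_one_le_right (by positivity) (one_le_pow₀ (by
      linarith [(Nat.cast_nonneg n : (0 : ℝ) ≤ n)]))) b4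
  have b6 : |((un v : ℝ) - un w) * β n - (un w * m n i - un v * m n j : ℤ)| ≤
      exp (-((1 - δ) * n)) := by
    have e1 := congrArg (fun z : ℕ => (z : ℝ)) e
    push_cast at e1 ⊢
    rw [show ((un v : ℝ) - un w) * β n - (un w * m n i - un v * m n j) =
      un w * (un (p n i) * x n - β n - m n i) - un v * (un (p n j) * x n - β n - m n j) by
        linear_combination (-x n) * e1, show -((1 - δ) * n) = δ * n + -n by ring, exp_add]
    refine (abs_sub _ _).trans (le_trans ?_ (mul_le_mul_of_nonneg_right b5 (exp_pos _).le))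
    rw [abs_mul, abs_mul, Nat.abs_cast, Nat.abs_cast, two_mul, add_mul]
    gcongr
    exacts [(b3 i).2, (b3 j).2]
  have v0 : (0 : ℝ) ≤ un v := by positivity
  have w0 : (0 : ℝ) ≤ un w := by positivity
  rcases lt_or_gt_of_ne vw with h | h
  · refine ⟨un w - un v, -(un w * m n i - un v * m n j), by omega, ?_, (le_of_eq ?_).trans b6⟩
    · rw [Nat.cast_sub h.le]
      linarith
    · rw [Nat.cast_sub h.le, ← abs_neg, Int.cast_neg]
      congr 1
      ring
  · refine ⟨un v - un w, un w * m n i - un v * m n j, by omega, ?_, (le_of_eq ?_).trans b6⟩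
    · rw [Nat.cast_sub h.le]
      linarith
    · rw [Nat.cast_sub h.le]

end Pool.Agent.MP_60c1b5_an.H72
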