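import Mathlib
import Pool.Agent.MP_60c1b5_an.H72.Pts

set_option autoImplicit false

/-!
Heavy arcs sit near rationals of small height; the mass near rationals with long orbits.
-/

namespace Pool.Agent.MP_60c1b5_an.H72

open Real Filter MeasureTheory Metric Pool.Agent.MP_60c1b5_an.H73

theorem heavy (δ ε : ℝ) (hδ : 0 < δ) (hε : 0 < ε) : ∀ᶠ n : ℕ in atTop,
    ∀ (μ : Measure UnitAddCircle) [IsProbabilityMeasure μ], Inv μ → ∀ y,
      ε ≤ n ^ 2 * μ.real (closedBall y (exp (-n))) → ∃ (q : ℕ) (ρ : UnitAddCircle), 1 ≤ q ∧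
        (q : ℝ) ≤ exp (δ * n) ∧ q • ρ = 0 ∧ dist y ρ ≤ exp (-((1 - δ) * n)) := by
  obtain ⟨L, hL⟩ := pts δ hδ
  obtain ⟨K, hK⟩ := exists_nat_gt (2 * L / ε + 1)
  filter_upwards [hL K] with n hn μ _ hμ y hy
  induction y using QuotientAddGroup.induction_on with
  | H β =>
  obtain ⟨q, k, q1, q2, q3⟩ : Ap δ n β := by
    by_contra hc
    have h1 := avg μ hμ.1 hμ.2 (closedBall (β : UnitAddCircle) (exp (-n))) measurableSet_closedBall
      (Finset.range (K * n) ×ˢ Finset.range (K * n)) (L * (K + 1)) fun x S hS h => by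
        induction x using QuotientAddGroup.induction_on with
        | H x =>
        refine le_of_not_ge fun h2 => hc (hn x β S (fun p hp => ?_) h2)
        have h3 := hS hp
        simp only [Finset.mem_product, Finset.mem_range] at h3
        refine ⟨h3.1.le, h3.2.le, round (un p * x - β), ?_⟩
        have h4 := h p hp
        rwa [mem_closedBall, dist_eq_norm, ← AddCircle.coe_nsmul, ← AddCircle.coe_sub,
          UnitAddCircle.norm_eq, nsmul_eq_mul] at h4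
    have h2 := ENNReal.toReal_mono (by finiteness) h1
    simp only [Finset.card_product, Finset.card_range, ENNReal.toReal_mul, ENNReal.toReal_natCast,
      Nat.cast_mul, Nat.cast_add, Nat.cast_one] at h2
    have h3 : (1 : ℝ) ≤ K := by linarith [show 0 ≤ 2 * L / ε by positivity]
    have h4 : 2 * L < K * ε := by
      rw [← div_lt_iff₀ hε]
      linarith
    have h5 := mul_le_mul_of_nonneg_left hy (sq_nonneg (K : ℝ))
    have h6 : (0 : ℝ) ≤ L := by positivity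
    rw [ENNReal.toReal_add (by finiteness) (by finiteness), ENNReal.toReal_natCast,
      ENNReal.toReal_one, ← measureReal_def] at h2
    nlinarith [mul_lt_mul_of_pos_left h4 (by linarith : (0 : ℝ) < K)]
  have q0 : (1 : ℝ) ≤ q := by exact_mod_cast q1
  refine ⟨q, ((k / q : ℝ) : UnitAddCircle), q1, q2, ?_, le_trans ?_ q3⟩
  · rw [← AddCircle.coe_nsmul, nsmul_eq_mul, mul_div_cancel₀ _ (by positivity),
      AddCircle.coe_eq_zero_iff]
    exact ⟨k, by simp⟩
  · rw [dist_eq_norm, ← AddCircle.coe_sub]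
    refine QuotientAddGroup.norm_mk_le_norm.trans ?_
    rw [show q * β - k = q * (β - k / q) by field_simp, abs_mul, Nat.abs_cast]
    exact le_mul_of_one_le_left (abs_nonneg _) q0

/-- denominator prime to `6` -/
def Cop (ρ : UnitAddCircle) : Prop := (addOrderOf ρ).Coprime 6

/-- doubly logarithmic size of the denominator -/
noncomputable def jj (ρ : UnitAddCircle) : ℕ := Nat.log 2 (lam ρ)

/-- an economical cover at scale `6 ^ (-n)` -/
def Cov (μ : Measure UnitAddCircle) (C : ℕ) (ε : ℝ) (n : ℕ) : Prop :=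
  ∃ F : Finset UnitAddCircle, F.card ≤ C * n ^ 2 ∧ μ.real (⋃ y ∈ F, closedBall y (1 / 6 ^ n))ᶜ ≤ ε

theorem Cop.pos {ρ : UnitAddCircle} (h : Cop ρ) : 0 < addOrderOf ρ :=
  Nat.pos_of_ne_zero fun e => by simp [Cop, e] at h

theorem lam_lt (ρ : UnitAddCircle) : lam ρ < 2 ^ (jj ρ + 1) :=
  Nat.lt_pow_succ_log_self one_lt_two _

theorem le_lam (ρ : UnitAddCircle) : 2 ^ jj ρ ≤ lam ρ := Nat.pow_log_le_self _ (by simp [lam])

theorem far {ρ ρ' : UnitAddCircle} (h : Cop ρ) (h' : Cop ρ') (hne : ρ ≠ ρ') {k : ℕ}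
    (hk : jj ρ ≤ k) (hk' : jj ρ' ≤ k) : 1 / 6 ^ 2 ^ (k + 2) ≤ dist ρ ρ' := by
  have h1 := sep (z := ρ - ρ') (mul_pos h.pos h'.pos) (by
    rw [smul_sub, mul_smul _ _ ρ', mul_comm, mul_smul, addOrderOf_nsmul_eq_zero,
      addOrderOf_nsmul_eq_zero, smul_zero, smul_zero, sub_zero]) (sub_ne_zero.2 hne)
  have h2 : addOrderOf ρ * addOrderOf ρ' ≤ 6 ^ 2 ^ (k + 2) := by
    refine (Nat.mul_le_mul (lt_lam ρ).le (lt_lam ρ').le).trans ?_
    rw [← pow_add]
    refine Nat.pow_le_pow_right (by norm_num) ?_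
    have a1 := (lam_lt ρ).trans_le (Nat.pow_le_pow_right two_pos (Nat.succ_le_succ hk))
    have a2 := (lam_lt ρ').trans_le (Nat.pow_le_pow_right two_pos (Nat.succ_le_succ hk'))
    rw [pow_succ]
    omega
  rw [dist_eq_norm, div_le_iff₀' (by positivity)]
  exact h1.trans (mul_le_mul_of_nonneg_right (by exact_mod_cast h2) (norm_nonneg _))

theorem six_lt {a b : ℕ} (h : a < b) : (1 : ℝ) / 6 ^ b ≤ 1 / 6 * (1 / 6 ^ a) := by
  rw [one_div_mul_one_div, ← pow_succ']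
  gcongr
  · norm_num
  · exact h

theorem near (C D : ℕ) (η : ℝ) (hη : 0 < η) : ∀ᶠ t : ℕ in atTop,
    ∀ (μ : Measure UnitAddCircle) [IsProbabilityMeasure μ], Inv μ → ∀ ε, Cov μ C ε (5 * 2 ^ t) →
      ∀ R : Finset UnitAddCircle, (∀ ρ, Cop ρ → jj ρ + D ≤ t → ρ ∈ R) →
        μ.real (⋃ ρ ∈ R, closedBall ρ (1 / 6 ^ 2 ^ t))ᶜ ≤ ε + η := by
  classical
  have ht : Tendsto (fun t : ℕ => 5 * 2 ^ t) atTop atTop :=
    tendsto_atTop_mono (fun t => (Nat.lt_two_pow_self (n := t)).le.trans (by omega)) tendsto_id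
  filter_upwards [ht.eventually (heavy (1 / (10 * 2 ^ (D + 1))) (η / (C + 1)) (by positivity)
    (by positivity)), eventually_ge_atTop (D + 1)] with t hv h1 μ _ hμ ε ⟨F, hF, hc⟩ R hR
  obtain ⟨e, rfl⟩ := Nat.exists_eq_add_of_le h1
  obtain ⟨T, hT⟩ : ∃ T, T = 2 ^ (D + 1 + e) := ⟨_, rfl⟩
  rw [← hT] at hv hF hc ⊢
  have T2 : 2 ≤ T := hT ▸ le_self_pow₀ one_le_two (show D + 1 + e ≠ 0 by omega)
  have T3 : (2 : ℝ) ≤ T := by exact_mod_cast T2
  have r1 : (1 : ℝ) / 6 ^ (5 * T) ≤ exp (-(5 * T : ℕ)) := by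
    rw [exp_neg, one_div, ← exp_one_pow]
    gcongr
    linarith [exp_one_lt_d9]
  rw [← (hμ.mp (T, T)).measureReal_preimage
    (R.measurableSet_biUnion fun _ _ => measurableSet_closedBall).compl.nullMeasurableSet]
  have sub : (fun x => un (T, T) • x) ⁻¹' (⋃ ρ ∈ R, closedBall ρ (1 / 6 ^ T))ᶜ ⊆
      (⋃ y ∈ F, closedBall y (1 / 6 ^ (5 * T)))ᶜ ∪ ⋃ y ∈ F.filter fun y =>
        ((5 * T : ℕ) : ℝ) ^ 2 * μ.real (closedBall y (exp (-(5 * T : ℕ)))) < η / (C + 1),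
          closedBall y (exp (-(5 * T : ℕ))) := by
    intro x hx
    by_contra hcon
    rw [Set.mem_union, not_or, Set.mem_compl_iff, not_not] at hcon
    obtain ⟨h0, h3⟩ := hcon
    obtain ⟨y, hy, h2⟩ := Set.mem_iUnion₂.1 h0
    simp only [Set.mem_compl_iff, Set.mem_iUnion, not_exists,
      Finset.mem_filter, mem_closedBall, Set.mem_preimage] at h2 h3 hx
    obtain ⟨q, ρ, q1, q2, q3, q4⟩ := hv μ hμ y (not_lt.1 fun h => h3 y ⟨hy, h⟩ (h2.trans r1))
    have q5 : q ≤ 2 ^ 2 ^ e := by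
      have : (q : ℝ) ≤ 2 ^ 2 ^ e := by
        refine q2.trans ?_
        rw [show 1 / (10 * 2 ^ (D + 1)) * ((5 * T : ℕ) : ℝ) = (2 ^ e : ℕ) * (1 / 2) by
          rw [hT]; push_cast; field_simp; ring, exp_nat_mul]
        gcongr
        rw [← pow_le_pow_iff_left₀ (exp_pos _).le zero_le_two two_ne_zero, ← exp_nat_mul]
        norm_num
        linarith [exp_one_lt_d9]
      exact_mod_cast this
    have q6 : 2 ^ e ≤ T := hT ▸ Nat.pow_le_pow_right two_pos (by omega)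
    obtain ⟨a, q', a1, a2⟩ := Nat.exists_eq_pow_mul_and_not_dvd (n := q) (by omega) 2 (by norm_num)
    have a3 : 0 < q' := Nat.pos_of_ne_zero fun h => a1 (by simp [h])
    obtain ⟨b, q'', b1, b2⟩ := Nat.exists_eq_pow_mul_and_not_dvd a3.ne' 3 (by norm_num)
    have b3 : 0 < q'' := Nat.pos_of_ne_zero fun h => b1 (by simp [h])
    have a4 : a ≤ T := ((Nat.pow_le_pow_iff_right one_lt_two).1
      (((Nat.le_mul_of_pos_right _ a3).trans a2.ge).trans q5)).trans q6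
    have a5 : q' ≤ q := (Nat.le_mul_of_pos_left _ (by positivity)).trans a2.ge
    have b4 : b ≤ T := ((Nat.pow_le_pow_iff_right one_lt_two).1 ((Nat.pow_le_pow_left (by norm_num)
      b).trans ((((Nat.le_mul_of_pos_right _ b3).trans b2.ge).trans a5).trans q5))).trans q6
    have c1 : addOrderOf (un (T, T) • ρ) ∣ q'' := by
      rw [addOrderOf_dvd_iff_nsmul_eq_zero, ← mul_smul]
      obtain ⟨c, hc⟩ : q ∣ q'' * un (T, T) := by
        rw [a2, b2, ← mul_assoc, mul_comm]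
        exact mul_dvd_mul_left _ (mul_dvd_mul (pow_dvd_pow _ a4) (pow_dvd_pow _ b4))
      rw [hc, mul_comm, mul_smul, q3, smul_zero]
    have c2 : q''.Coprime 6 := Nat.Coprime.mul_right (m := 2) (n := 3)
      ((Nat.prime_two.coprime_iff_not_dvd.2 fun h => a1 (b2 ▸ h.mul_left _)).symm)
      (Nat.prime_three.coprime_iff_not_dvd.2 b1).symm
    refine hx _ (hR (un (T, T) • ρ) (c2.coprime_dvd_left c1) ?_) ((dist_un _ _ _).trans ?_)
    · have c3 : addOrderOf (un (T, T) • ρ) ≤ 6 ^ 2 ^ e := (Nat.le_of_dvd b3 c1).trans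
        (((Nat.le_mul_of_pos_left _ (by positivity)).trans b2.ge).trans (a5.trans
          (q5.trans (Nat.pow_le_pow_left (by norm_num) _))))
      have c4 := Nat.log_mono_right (b := 6) c3
      rw [Nat.log_pow (by norm_num)] at c4
      have c5 : lam (un (T, T) • ρ) ≤ 2 ^ (e + 1) := by
        have := Nat.one_le_two_pow (n := e)
        rw [lam, pow_succ]
        omega
      have c6 := Nat.log_mono_right (b := 2) c5
      rw [Nat.log_pow one_lt_two] at c6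
      rw [jj]
      omega
    · have d1 : (un (T, T) : ℝ) ≤ 6 ^ T := by exact_mod_cast un_le (p := (T, T)) le_rfl le_rfl
      have d2 : (1 : ℝ) / (10 * 2 ^ (D + 1)) ≤ 1 / 10 := by
        gcongr
        exact le_mul_of_one_le_right (by norm_num) (one_le_pow₀ one_le_two)
      have d3 : dist x ρ ≤ 2 * exp (-(9 / 2 * T)) := by
        refine (dist_triangle x y ρ).trans ?_
        rw [two_mul]
        refine add_le_add (h2.trans (r1.trans (exp_le_exp.2 ?_))) (q4.trans (exp_le_exp.2 ?_)) <;>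
          push_cast <;> nlinarith
      have d4 := six_pow_le T
      have d5 : 2 ≤ exp (1 / 2 * T) := by linarith [add_one_le_exp (1 / 2 * (T : ℝ))]
      rw [le_div_iff₀ (by positivity)]
      calc _ ≤ exp (2 * T) * (exp (1 / 2 * T) * exp (-(9 / 2 * T))) * exp (2 * T) := by
            gcongr
            · exact d1.trans d4
            · exact d3.trans (by gcongr)
        _ = 1 := by
            simp only [← exp_add]
            ring_nf
            exact exp_zero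
  refine (measureReal_mono sub).trans ((measureReal_union_le _ _).trans (add_le_add hc
    ((measureReal_biUnion_finset_le _ _).trans ((Finset.sum_le_card_nsmul _ _
      (η / (C + 1) / (5 * T : ℕ) ^ 2) fun y hy => ?_).trans ?_))))
  · rw [le_div_iff₀' (by positivity)]
    exact (Finset.mem_filter.1 hy).2.le
  · have h2 := (Nat.cast_le (α := ℝ)).2 ((Finset.card_filter_le F fun y =>
      ((5 * T : ℕ) : ℝ) ^ 2 * μ.real (closedBall y (exp (-(5 * T : ℕ)))) < η / (C + 1)).trans hF)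
    rw [nsmul_eq_mul]
    refine (mul_le_mul_of_nonneg_right h2 (by positivity)).trans ?_
    rw [Nat.cast_mul, Nat.cast_pow, mul_assoc, mul_div_cancel₀ _ (by positivity), ← mul_div_assoc,
      div_le_iff₀ (by positivity)]
    nlinarith

/-- rationals with long orbits -/
def Bad (τ D t : ℕ) (ρ : UnitAddCircle) : Prop := Cop ρ ∧ jj ρ + D ≤ t ∧ ¬Wr ρ (2 ^ (t - τ))

theorem bad_le {μ : Measure UnitAddCircle} [IsProbabilityMeasure μ] (h : Inv μ) {C τ σ s : ℕ}
    {ε η : ℝ} (hτ : 2 ≤ τ) (hσ : τ ≤ σ) (hC : C * 2 ^ (τ + 2) ≤ η * 4 ^ σ) (hs : 2 * σ ≤ s)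
    (hc : Cov μ C ε (2 ^ (s / 2 - σ))) (R : Finset UnitAddCircle)
    (hR : ∀ ρ ∈ R, Bad τ (2 * σ + 7) (s - jj ρ) ρ) :
    ∑ ρ ∈ R, μ.real (closedBall ρ (1 / 6 ^ 2 ^ (s - jj ρ))) ≤ ε + η := by
  classical
  obtain ⟨F, hF, hc⟩ := hc
  obtain ⟨a, ha⟩ : ∃ a, a = s / 2 - σ := ⟨_, rfl⟩
  rw [← ha] at hF hc
  have key : ∀ ρ ∈ R, ∀ ρ' ∈ R, ∀ x ∈ closedBall ρ (1 / 6 ^ 2 ^ (s - jj ρ)),
      ∀ x' ∈ closedBall ρ' (1 / 6 ^ 2 ^ (s - jj ρ')), dist x x' ≤ 2 * (1 / 6 ^ 2 ^ a) → ρ = ρ' := by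
    intro ρ h1 ρ' h2 x h3 x' h4 h5
    by_contra hne
    have b1 := (hR ρ h1).2.1
    have b2 := (hR ρ' h2).2.1
    have b3 := far (hR ρ h1).1 (hR ρ' h2).1 hne (k := a - 3) (by omega) (by omega)
    have b4 := fun {b : ℕ} (hb : a - 3 + 2 < b) => six_lt (Nat.pow_lt_pow_right one_lt_two hb)
    have b5 := dist_triangle4 ρ x x' ρ'
    have b6 : (0 : ℝ) < 1 / 6 ^ 2 ^ (a - 3 + 2) := by positivity
    rw [mem_closedBall'] at h3
    rw [mem_closedBall] at h4
    linarith [b4 (b := a) (by omega), b4 (b := s - jj ρ) (by omega), b4 (b := s - jj ρ') (by omega)]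
  rw [← Finset.sum_filter_add_sum_filter_not R fun ρ => closedBall ρ (1 / 6 ^ 2 ^ (s - jj ρ)) ⊆
    (⋃ y ∈ F, closedBall y (1 / 6 ^ 2 ^ a))ᶜ]
  refine add_le_add (le_trans ?_ hc) ((Finset.sum_le_card_nsmul _ _ (4 / 2 ^ (s - τ))
    fun ρ hρ => ?_).trans ?_)
  · rw [← measureReal_biUnion_finset (fun ρ h1 ρ' h2 hne => Set.disjoint_left.2 fun x h3 h4 =>
      hne (key ρ (Finset.mem_filter.1 h1).1 ρ' (Finset.mem_filter.1 h2).1 x h3 x h4 (by
        rw [dist_self]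
        positivity))) fun _ _ => measurableSet_closedBall]
    exact measureReal_mono (Set.iUnion₂_subset fun ρ h1 => (Finset.mem_filter.1 h1).2)
  · obtain ⟨b1, b2, b3⟩ := hR ρ (Finset.mem_filter.1 hρ).1
    have b4 := lam_lt ρ
    have b5 : 2 ^ (jj ρ + 1 + 2) ≤ 2 ^ (s - jj ρ - τ) := Nat.pow_le_pow_right two_pos (by omega)
    have b6 : 2 ^ (s - jj ρ - τ + 2) ≤ 2 ^ (s - jj ρ) := Nat.pow_le_pow_right two_pos (by omega)
    rw [pow_add _ _ 2] at b5 b6
    have b7 := ball_le h b1 b3 (n := 2 ^ (s - jj ρ)) (by omega) (by omega)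
    rw [le_div_iff₀' (by positivity)]
    refine le_trans (mul_le_mul_of_nonneg_right ?_ measureReal_nonneg) b7
    rw [show s - τ = s - jj ρ - τ + jj ρ by omega, pow_add]
    exact_mod_cast Nat.mul_le_mul_left _ (le_lam ρ)
  · have b1 : ∀ ρ, ¬closedBall ρ (1 / 6 ^ 2 ^ (s - jj ρ)) ⊆
        (⋃ y ∈ F, closedBall y (1 / 6 ^ 2 ^ a))ᶜ → ∃ y ∈ F,
          ∃ x ∈ closedBall ρ (1 / 6 ^ 2 ^ (s - jj ρ)), dist x y ≤ 1 / 6 ^ 2 ^ a := by
      intro ρ hρ
      obtain ⟨x, h1, h2⟩ := Set.not_subset.1 hρ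
      simp only [Set.mem_compl_iff, not_not, Set.mem_iUnion] at h2
      obtain ⟨y, h3, h4⟩ := h2
      exact ⟨y, h3, x, h1, h4⟩
    choose! y y1 x x1 x2 using b1
    have b2 := (Finset.card_le_card_of_injOn (s := R.filter fun ρ =>
      ¬closedBall ρ (1 / 6 ^ 2 ^ (s - jj ρ)) ⊆ (⋃ y ∈ F, closedBall y (1 / 6 ^ 2 ^ a))ᶜ) y
      (fun ρ h1 => y1 ρ (Finset.mem_filter.1 h1).2) fun ρ h1 ρ' h2 e => by
        obtain ⟨c1, c2⟩ := Finset.mem_filter.1 h1
        obtain ⟨c3, c4⟩ := Finset.mem_filter.1 h2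
        refine key ρ c1 ρ' c3 _ (x1 ρ c2) _ (x1 ρ' c4) ?_
        linarith [dist_triangle_right (x ρ) (x ρ') (y ρ'), e ▸ x2 ρ c2, x2 ρ' c4]).trans hF
    rw [nsmul_eq_mul]
    refine (mul_le_mul_of_nonneg_right (Nat.cast_le.2 b2) (by positivity)).trans ?_
    have b3 : ((2 : ℝ) ^ a) ^ 2 * 4 ^ σ ≤ 2 ^ (s - τ) * 2 ^ τ := by
      rw [show (4 : ℝ) = 2 ^ 2 by norm_num, ← pow_mul, ← pow_mul, ← pow_add, ← pow_add]
      exact pow_le_pow_right₀ one_le_two (by omega)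
    push_cast
    rw [← mul_div_assoc, div_le_iff₀ (by positivity)]
    refine le_of_mul_le_mul_right ?_ (by positivity : (0 : ℝ) < 4 ^ σ)
    rw [pow_add] at hC
    nlinarith [mul_le_mul_of_nonneg_left b3 (by positivity : (0 : ℝ) ≤ C * 4),
      mul_le_mul_of_nonneg_right hC (by positivity : (0 : ℝ) ≤ 2 ^ (s - τ))]

end Pool.Agent.MP_60c1b5_an.H72
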