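import Mathlib
import Pool.Agent.MP_60c1b5_an.H72.Near
import Pool.Agent.MP_60c1b5_an.H72.Close

set_option autoImplicit false

/-!
The closing lemma at quadratic complexity.
-/

namespace Pool.Agent.MP_60c1b5_an.H72

open Real Filter MeasureTheory Metric Topology BoundedContinuousFunction

theorem window (C a : ℕ) (η : ℝ) (hη : 0 < η) : ∃ b, ∀ (μ : Measure UnitAddCircle)
    [IsProbabilityMeasure μ], Inv μ → ∀ ε, (∀ n, a ≤ n → n ≤ b → Cov μ C ε n) →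
    ∃ ν ∈ Per, ∀ (f : UnitAddCircle →ᵇ ℝ) (ω : ℝ), 0 ≤ ω →
      (∀ x y, dist x y ≤ η → |f x - f y| ≤ ω) →
      |∫ x, f x ∂(ν : Measure UnitAddCircle) - ∫ x, f x ∂μ| ≤ ω + (8 * ε + 9 * η) * ‖f‖ := by
  classical
  have big : ∀ (c r : ℝ), 1 < r → ∀ᶠ k : ℕ in atTop, c ≤ η * r ^ k := fun c r hr =>
    ((tendsto_pow_atTop_atTop_of_one_lt hr).const_mul_atTop hη).eventually_ge_atTop c
  obtain ⟨τ, hτ, hτ'⟩ := ((eventually_ge_atTop 2).and (big 16 2 one_lt_two)).exists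
  obtain ⟨σ, hσ, hσ'⟩ := ((eventually_ge_atTop τ).and (big (C * 2 ^ (τ + 2)) 4 (by norm_num))).exists
  obtain ⟨t1, h1⟩ := eventually_atTop.1 ((near C (2 * σ + 7) η hη).and (big 6 6 (by norm_num)))
  obtain ⟨t0, ht0⟩ : ∃ t0, t0 = t1 + 2 * (a + σ) + 1 := ⟨_, rfl⟩
  obtain ⟨N, hN⟩ : ∃ N, N = 6 ^ 2 ^ (2 * t0 + 1) := ⟨_, rfl⟩
  refine ⟨5 * 2 ^ (2 * t0), fun μ _ hμ ε hc => ?_⟩
  have ord : ∀ ρ, jj ρ ≤ 2 * t0 → addOrderOf ρ ≤ N := fun ρ h => hN ▸ (lt_lam ρ).le.trans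
    (Nat.pow_le_pow_right (by norm_num) ((lam_lt ρ).le.trans
      (Nat.pow_le_pow_right two_pos (by omega))))
  obtain ⟨T, hT⟩ : ∃ T : Finset UnitAddCircle, ∀ ρ, ρ ∈ T ↔ Cop ρ ∧ jj ρ ≤ 2 * t0 :=
    ⟨((AddCircle.finite_torsion (1 : ℝ) (Nat.factorial_pos N)).subset fun ρ
      (h : Cop ρ ∧ jj ρ ≤ 2 * t0) => addOrderOf_dvd_iff_nsmul_eq_zero.1
        (Nat.dvd_factorial h.1.pos (ord ρ h.2))).toFinset, fun ρ => by
          rw [Set.Finite.mem_toFinset]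
          rfl⟩
  obtain ⟨g, hg⟩ : ∃ g : ℕ → UnitAddCircle → ℝ, ∀ t ρ, g t ρ =
    if Bad τ (2 * σ + 7) t ρ then μ.real (closedBall ρ (1 / 6 ^ 2 ^ t)) else 0 :=
    ⟨_, fun _ _ => rfl⟩
  have g0 : ∀ t ρ, 0 ≤ g t ρ := fun t ρ => by
    rw [hg]
    split_ifs
    exacts [measureReal_nonneg, le_rfl]
  have lt2 : ∀ k, a ≤ k → a ≤ 2 ^ k := fun k h => h.trans Nat.lt_two_pow_self.le
  have b1 : ∀ s ∈ Finset.Ico t0 (4 * t0), ∑ ρ ∈ T, g (s - jj ρ) ρ ≤ ε + η := by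
    intro s hs
    rw [Finset.mem_Ico] at hs
    simp only [hg, ← Finset.sum_filter]
    refine bad_le hμ hτ hσ hσ' (by omega) (hc _ (lt2 _ (by omega)) ?_) _
      fun ρ h => (Finset.mem_filter.1 h).2
    exact (Nat.pow_le_pow_right two_pos (by omega : _ ≤ 2 * t0)).trans (by omega)
  have b2 : ∑ t ∈ Finset.Ico t0 (2 * t0), ∑ ρ ∈ T, g t ρ ≤
      ∑ _t ∈ Finset.Ico t0 (2 * t0), 3 * (ε + η) := by
    calc _ = ∑ ρ ∈ T, ∑ t ∈ Finset.Ico t0 (2 * t0), g t ρ := Finset.sum_comm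
      _ ≤ ∑ ρ ∈ T, ∑ s ∈ Finset.Ico t0 (4 * t0), g (s - jj ρ) ρ := by
          refine Finset.sum_le_sum fun ρ h => ?_
          have := ((hT ρ).1 h).2
          refine le_trans (le_of_eq ?_) (Finset.sum_le_sum_of_subset_of_nonneg
            (Finset.Ico_subset_Ico (by omega) (by omega) :
              Finset.Ico (t0 + jj ρ) (2 * t0 + jj ρ) ⊆ _) fun _ _ _ => g0 _ _)
          rw [← Finset.sum_Ico_add']
          simp
      _ = _ := Finset.sum_comm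
      _ ≤ _ := Finset.sum_le_card_nsmul _ _ _ b1
      _ = _ := by
          rw [Finset.sum_const, Nat.card_Ico, Nat.card_Ico, show 4 * t0 - t0 = 3 * t0 by omega,
            show 2 * t0 - t0 = t0 by omega, nsmul_eq_mul, nsmul_eq_mul]
          push_cast
          ring
  obtain ⟨t, ht, b3⟩ := Finset.exists_le_of_sum_le ⟨t0, Finset.mem_Ico.2 (by omega)⟩ b2
  rw [Finset.mem_Ico] at ht
  have b4 := (h1 t (by omega)).1 μ hμ ε (hc _ ((lt2 t (by omega)).trans (by omega))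
    (Nat.mul_le_mul_left _ (Nat.pow_le_pow_right two_pos ht.2.le)))
    (T.filter fun ρ => jj ρ + (2 * σ + 7) ≤ t) fun ρ c1 c2 =>
      Finset.mem_filter.2 ⟨(hT ρ).2 ⟨c1, by omega⟩, c2⟩
  have per : ∀ ρ ∈ T, ∀ p : ℕ, p ∣ 6 → p ^ N.factorial • ρ = ρ := by
    intro ρ h p hp
    obtain ⟨c1, c2⟩ := (hT ρ).1 h
    obtain ⟨k, hk⟩ := Nat.dvd_factorial (Nat.totient_pos.2 c1.pos)
      ((Nat.totient_le _).trans (ord ρ c2))
    have := (Nat.ModEq.pow_totient (Nat.Coprime.coprime_dvd_right hp c1).symm).pow k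
    rw [← pow_mul, ← hk, one_pow, ← nsmul_eq_nsmul_iff_modEq, one_smul] at this
    exact this
  obtain ⟨ν, hν, b5⟩ := close hμ (T.filter fun ρ => jj ρ + (2 * σ + 7) ≤ t ∧ Wr ρ (2 ^ (t - τ)))
    (1 / 6 ^ 2 ^ t) (m := 2 ^ (t - τ)) (M := 2 ^ (t - 1)) (by positivity) (Nat.factorial_pos N)
    (fun ρ h => by
      obtain ⟨c1, -, c2⟩ := Finset.mem_filter.1 h
      exact ⟨per ρ c1 2 (by norm_num), per ρ c1 3 (by norm_num), c2⟩)
    fun ρ h ρ' h' hne => by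
      obtain ⟨c1, c2, -⟩ := Finset.mem_filter.1 h
      obtain ⟨c3, c4, -⟩ := Finset.mem_filter.1 h'
      have c5 := far ((hT ρ).1 c1).1 ((hT ρ').1 c3).1 hne (k := t - 3) (by omega) (by omega)
      have c6 := six_lt (Nat.pow_lt_pow_right one_lt_two (show t - 3 + 2 < t by omega))
      have c7 : (0 : ℝ) < 1 / 6 ^ 2 ^ (t - 3 + 2) := by positivity
      exact closedBall_disjoint_closedBall (by linarith)
  refine ⟨ν, hν, fun f ω hω hf => (b5 f ω hω fun x y h => hf x y (h.trans ?_)).trans ?_⟩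
  · have c1 := (h1 t (by omega)).2
    have c2 : (6 : ℝ) ^ 2 ^ (t - 1) * 6 ^ t ≤ 6 ^ 2 ^ t * 6 := by
      rw [← pow_add, ← pow_succ]
      refine pow_le_pow_right₀ (by norm_num) ?_
      have c3 := Nat.lt_two_pow_self (n := t - 1)
      have c4 : 2 ^ t = 2 ^ (t - 1) * 2 := by rw [← pow_succ, Nat.sub_add_cancel (by omega)]
      omega
    rw [mul_one_div, div_le_iff₀ (by positivity)]
    refine le_of_mul_le_mul_right (c2.trans ?_) (by positivity)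
    nlinarith [mul_le_mul_of_nonneg_left c1 (by positivity : (0 : ℝ) ≤ 6 ^ 2 ^ t)]
  have c1 : (8 : ℝ) * (2 ^ (t - τ) : ℕ) / (2 ^ (t - 1) : ℕ) ≤ η := by
    have c2 : (2 : ℝ) ^ (t - τ) * 2 ^ τ = 2 ^ (t - 1) * 2 := by
      rw [← pow_add, ← pow_succ, Nat.sub_add_cancel (by omega), Nat.sub_add_cancel (by omega)]
    push_cast
    rw [div_le_iff₀ (by positivity)]
    nlinarith [mul_le_mul_of_nonneg_left hτ' (by positivity : (0 : ℝ) ≤ 2 ^ (t - τ))]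
  have c2 : μ.real (⋃ ρ ∈ T.filter fun ρ => jj ρ + (2 * σ + 7) ≤ t ∧ Wr ρ (2 ^ (t - τ)),
      closedBall ρ (1 / 6 ^ 2 ^ t))ᶜ ≤ ε + η + 3 * (ε + η) := by
    simp only [hg, ← Finset.sum_filter] at b3
    refine le_trans (measureReal_mono fun x hx => ?_) ((measureReal_union_le _ _).trans
      (add_le_add b4 ((measureReal_biUnion_finset_le _ _).trans b3)))
    rw [Set.mem_union, Set.mem_compl_iff, ← imp_iff_not_or]
    intro h
    obtain ⟨ρ, c3, c4⟩ := Set.mem_iUnion₂.1 h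
    obtain ⟨c5, c6⟩ := Finset.mem_filter.1 c3
    exact Set.mem_iUnion₂.2 ⟨ρ, Finset.mem_filter.2 ⟨c5, ((hT ρ).1 c5).1, c6, fun c7 =>
      hx (Set.mem_iUnion₂.2 ⟨ρ, Finset.mem_filter.2 ⟨c5, c6, c7⟩, c4⟩)⟩, c4⟩
  nlinarith [mul_le_mul_of_nonneg_right c1 (norm_nonneg f),
    mul_le_mul_of_nonneg_left c2 (norm_nonneg f)]

theorem main : ∃ ω : ℕ → ℕ, Tendsto ω atTop atTop ∧ ∀ μ : ProbabilityMeasure UnitAddCircle,
    Inv μ → (∀ ε : ℝ, 0 < ε → ∀ᶠ n in atTop, Cov μ (ω n) ε n) → μ ∈ closure Per := by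
  classical
  choose b hb using fun k : ℕ => window k k (1 / (k + 1)) (by positivity)
  have ex : ∀ n, ∃ k, n ≤ max k (b k) := fun n => ⟨n, le_max_left _ _⟩
  refine ⟨fun n => Nat.find (ex n), tendsto_atTop.2 fun k => ?_, fun μ hμ h => ?_⟩
  · filter_upwards [eventually_gt_atTop ((Finset.range k).sup fun j => max j (b j))] with n hn
    rw [Nat.le_find_iff]
    exact fun j hj => not_le.2 ((Finset.le_sup (f := fun j => max j (b j))
      (Finset.mem_range.2 hj)).trans_lt hn)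
  have key : ∀ j : ℕ, ∃ ν ∈ Per, ∀ (f : UnitAddCircle →ᵇ ℝ) (ω : ℝ), 0 ≤ ω →
      (∀ x y, dist x y ≤ 1 / (j + 1) → |f x - f y| ≤ ω) →
      |∫ x, f x ∂(ν : Measure UnitAddCircle) - ∫ x, f x ∂(μ : Measure UnitAddCircle)| ≤
        ω + 17 * ‖f‖ * (1 / (j + 1)) := by
    intro j
    obtain ⟨a, ha⟩ := eventually_atTop.1 (h (1 / (j + 1)) (by positivity))
    have c1 : (1 : ℝ) / ((a + j : ℕ) + 1) ≤ 1 / (j + 1) := by
      gcongr
      omega
    obtain ⟨ν, hν, h1⟩ := hb (a + j) μ hμ (1 / (j + 1)) fun n h1 h2 => by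
      obtain ⟨F, h3, h4⟩ := ha n (by omega)
      exact ⟨F, h3.trans (Nat.mul_le_mul_right _ (Nat.find_min' _ (le_max_of_le_right h2))), h4⟩
    refine ⟨ν, hν, fun f ω hω hf => (h1 f ω hω fun x y h => hf x y (h.trans c1)).trans ?_⟩
    nlinarith [mul_le_mul_of_nonneg_right c1 (norm_nonneg f)]
  choose ν h1 h2 using key
  refine mem_closure_of_tendsto (f := ν) (b := atTop) ?_ (Eventually.of_forall h1)
  rw [ProbabilityMeasure.tendsto_iff_forall_integral_tendsto]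
  intro f
  rw [Metric.tendsto_nhds]
  intro e he
  obtain ⟨δ, hδ, h3⟩ := Metric.uniformContinuous_iff_le.1
    (CompactSpace.uniformContinuous_of_continuous f.continuous) (e / 2) (half_pos he)
  have h4 := tendsto_one_div_add_atTop_nhds_zero_nat (𝕜 := ℝ)
  have h5 := h4.const_mul (17 * ‖f‖)
  rw [mul_zero] at h5
  filter_upwards [h4.eventually_le_const hδ, h5.eventually_lt_const (half_pos he)] with j c1 c2
  rw [Real.dist_eq]
  linarith [h2 j f (e / 2) (half_pos he).le fun x y h => h3 (h.trans c1)]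

end Pool.Agent.MP_60c1b5_an.H72
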